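import Pool.Agent.Helper10.CYC.OddDefs

/-!
# Permutations with two blocks, cancellation in characteristic two
-/

set_option autoImplicit false

namespace Pool.Agent.Helper10.CYC

open Finset Polynomial

section dd

variable {R : Type*} [CommRing R] {k : ℕ}

lemma dd_rep (f : R[X]) (g : Fin k → R[X]) (i j : Fin k) (hij : i ≠ j) (h : g i = g j) :
    dd f g = 0 := by
  rw [dd]
  refine Matrix.det_zero_of_column_eq hij (fun a => ?_)
  simp only [Matrix.of_apply]
  rw [h]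

lemma dd_perm (f : R[X]) (g : Fin k → R[X]) (σ : Equiv.Perm (Fin k)) :
    dd f (fun j => g (σ j)) = ((Equiv.Perm.sign σ : ℤ) : R) * dd f g := by
  rw [dd, dd, ← Matrix.det_permute']
  rfl

lemma dd_perm2 [CharP R 2] (f : R[X]) (g : Fin k → R[X]) (σ : Equiv.Perm (Fin k)) :
    dd f (fun j => g (σ j)) = dd f g := by
  rw [dd_perm]
  rcases Int.units_eq_one_or (Equiv.Perm.sign σ) with h | h
  · rw [h]; simp
  · rw [h]
    have : ((((-1 : ℤˣ) : ℤ)) : R) = 1 := by
      push_cast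
      have h2 : (2 : R) = 0 := CharTwo.two_eq_zero
      linear_combination (-1 : R) * h2
    rw [this, one_mul]

end dd

/-- The diagonal square: `V(S)^2 = V(S^2)` in characteristic two. -/
lemma sq_lemma {K : Type*} [CommRing K] [CharP K 2] (s : ℕ) (F : (Fin s → ℕ) → K)
    (hperm : ∀ (E : Fin s → ℕ) (σ : Equiv.Perm (Fin s)), F (fun i => E (σ i)) = F E)
    (hrep : ∀ (E : Fin s → ℕ) (i j : Fin s), i ≠ j → E i = E j → F E = 0) :
    ∑ τ : Equiv.Perm (Fin s), F (fun i => (i : ℕ) + (τ i : ℕ)) = F (fun i => 2 * (i : ℕ)) := by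
  classical
  rw [← Finset.add_sum_erase univ _ (mem_univ (1 : Equiv.Perm (Fin s)))]
  have h1 : F (fun i => (i : ℕ) + (((1 : Equiv.Perm (Fin s)) i : Fin s) : ℕ))
      = F (fun i => 2 * (i : ℕ)) := by
    congr 1
    ext i
    rw [Equiv.Perm.one_apply]; ring
  rw [h1]
  have hinv : ∀ τ : Equiv.Perm (Fin s),
      F (fun i => (i : ℕ) + ((τ⁻¹ : Equiv.Perm (Fin s)) i : ℕ))
        = F (fun i => (i : ℕ) + (τ i : ℕ)) := by
    intro τ
    rw [← hperm (fun i => (i : ℕ) + ((τ⁻¹ : Equiv.Perm (Fin s)) i : ℕ)) τ]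
    congr 1
    ext i
    have h5 : (τ⁻¹ : Equiv.Perm (Fin s)) (τ i) = i := by simp
    rw [h5, add_comm]
  have h2 : ∑ τ ∈ univ.erase (1 : Equiv.Perm (Fin s)), F (fun i => (i : ℕ) + (τ i : ℕ)) = 0 := by
    refine Finset.sum_involution (fun τ _ => τ⁻¹) ?_ ?_ ?_ ?_
    · intro τ _
      rw [hinv]
      exact CharTwo.add_self_eq_zero _
    · intro τ hτ hne heq
      apply hne
      have hτ1 : τ ≠ 1 := (mem_erase.1 hτ).1
      have : ∃ i, τ i ≠ i := by
        by_contra hcon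
        push Not at hcon
        exact hτ1 (Equiv.ext hcon)
      obtain ⟨i, hi⟩ := this
      refine hrep _ i (τ i) (Ne.symm hi) ?_
      have h3 : τ (τ i) = i := by
        have h5 : (τ⁻¹ : Equiv.Perm (Fin s)) (τ i) = i := by simp
        rw [heq] at h5
        exact h5
      rw [h3, add_comm]
    · intro τ hτ
      rw [mem_erase] at hτ ⊢
      exact ⟨fun h => hτ.1 (inv_eq_one.1 h), mem_univ _⟩
    · intro τ _
      exact inv_inv τ
  rw [h2, add_zero]

section block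

variable {k s q : ℕ}

/-- The permutation with block form `τ ⊕ lam`. -/
def bp (e1 e2 : Fin s ⊕ Fin q ≃ Fin k) (τ : Equiv.Perm (Fin s)) (lam : Equiv.Perm (Fin q)) :
    Equiv.Perm (Fin k) := e1.symm.trans ((Equiv.Perm.sumCongr τ lam).trans e2)

lemma bp_inl (e1 e2 : Fin s ⊕ Fin q ≃ Fin k) (τ : Equiv.Perm (Fin s)) (lam : Equiv.Perm (Fin q))
    (i : Fin s) : bp e1 e2 τ lam (e1 (Sum.inl i)) = e2 (Sum.inl (τ i)) := by
  simp [bp]

lemma bp_inr (e1 e2 : Fin s ⊕ Fin q ≃ Fin k) (τ : Equiv.Perm (Fin s)) (lam : Equiv.Perm (Fin q))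
    (i : Fin q) : bp e1 e2 τ lam (e1 (Sum.inr i)) = e2 (Sum.inr (lam i)) := by
  simp [bp]

lemma sum_two_block {M : Type*} [AddCommMonoid M] (e1 e2 : Fin s ⊕ Fin q ≃ Fin k)
    (p : Equiv.Perm (Fin k) → Prop) [DecidablePred p]
    (hp : ∀ σ, p σ ↔ ∀ i : Fin s, ∃ t : Fin s, σ (e1 (Sum.inl i)) = e2 (Sum.inl t))
    (G : Equiv.Perm (Fin k) → M) :
    ∑ σ ∈ univ.filter p, G σ = ∑ τ : Equiv.Perm (Fin s), ∑ lam : Equiv.Perm (Fin q),
      G (bp e1 e2 τ lam) := by
  classical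
  rw [← Finset.sum_product']
  symm
  refine Finset.sum_bij (fun x _ => bp e1 e2 x.1 x.2) ?_ ?_ ?_ ?_
  · rintro ⟨τ, lam⟩ _
    rw [mem_filter]
    refine ⟨mem_univ _, (hp _).2 (fun i => ⟨τ i, bp_inl e1 e2 τ lam i⟩)⟩
  · rintro ⟨τ, lam⟩ _ ⟨τ', lam'⟩ _ h
    simp only at h
    have h1 : τ = τ' := by
      ext i
      have := bp_inl e1 e2 τ lam i
      rw [h, bp_inl] at this
      have h2 := Sum.inl_injective (e2.injective this)
      rw [h2]
    have h2 : lam = lam' := by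
      ext i
      have := bp_inr e1 e2 τ lam i
      rw [h, bp_inr] at this
      have h2 := Sum.inr_injective (e2.injective this)
      rw [h2]
    rw [h1, h2]
  · intro σ hσ
    rw [mem_filter] at hσ
    have hp' := (hp σ).1 hσ.2
    have hmaps : Set.MapsTo (e1.trans (σ.trans e2.symm)) (Set.range (Sum.inl : Fin s → _))
        (Set.range (Sum.inl : Fin s → Fin s ⊕ Fin q)) := by
      rintro _ ⟨i, rfl⟩
      obtain ⟨t, ht⟩ := hp' i
      refine ⟨t, ?_⟩
      simp only [Equiv.trans_apply]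
      rw [ht, Equiv.symm_apply_apply]
    have := Equiv.Perm.mem_sumCongrHom_range_of_perm_mapsTo_inl
      (σ := (e1.trans (σ.trans e2.symm) : Equiv.Perm (Fin s ⊕ Fin q))) hmaps
    obtain ⟨⟨τ, lam⟩, hx⟩ := this
    refine ⟨(τ, lam), mem_univ _, ?_⟩
    simp only [bp]
    have hx' : Equiv.Perm.sumCongr τ lam = e1.trans (σ.trans e2.symm) := hx
    rw [hx']
    ext i
    simp
  · intro x _
    rfl

end block

end Pool.Agent.Helper10.CYC
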