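import Pool.Agent.Helper10.CYC.Merge

/-!
# The relation E2 in two block form
-/

set_option autoImplicit false

namespace Pool.Agent.Helper10.CYC

open Finset Polynomial

lemma PS_congrE {R : Type*} [CommRing R] {s l : ℕ} (f : R[X]) (a : Fin s → R[X])
    (b : Fin l → R[X]) (C : Fin s → ℕ) (E E' : Fin l → ℕ) (hE : Function.Injective E)
    (h : ∀ t, ∃ t', E t = E' t') : PS f a b C E = PS f a b C E' := by
  choose π hπ using h
  have hinj : Function.Injective π := by
    intro x y hxy
    apply hE
    rw [hπ x, hπ y, hxy]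
  have h1 : E = fun t => E' (Equiv.ofBijective π (Finite.injective_iff_bijective.1 hinj) t) := by
    ext t
    exact hπ t
  rw [h1]
  exact PS_permE f a b C E' _

lemma PS_congrC {R : Type*} [CommRing R] {s l : ℕ} (f : R[X]) (a : Fin s → R[X])
    (b : Fin l → R[X]) (C C' : Fin s → ℕ) (E : Fin l → ℕ) (hC : Function.Injective C)
    (h : ∀ t, ∃ t', C t = C' t') : PS f a b C E = PS f a b C' E := by
  choose π hπ using h
  have hinj : Function.Injective π := by
    intro x y hxy
    apply hC
    rw [hπ x, hπ y, hxy]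
  have h1 : C = fun t => C' (Equiv.ofBijective π (Finite.injective_iff_bijective.1 hinj) t) := by
    ext t
    exact hπ t
  rw [h1]
  exact PS_permC f a b C' E _

/-- **(E2)** in two block form: `S` has `n` slots, the second block `q + 1` slots;
`k = n + (q + 1)`, gap `g ≥ 2` of the special slot, `b = n + g ≤ k`. -/
theorem e2_PS {R : Type*} [CommRing R] [CharP R 2] (n q g : ℕ) (hg : 2 ≤ g) (hq : g ≤ q + 1)
    (f : R[X])
    (hrel : ∀ z : Fin (n + (q + 1)), n ≤ (z : ℕ) → Rel f (n + g) (u2 (n + (q + 1)) n g z))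
    (a : Fin n → R[X]) (b : Fin (q + 1) → R[X]) :
    PS f a b (fun t => q + (t : ℕ)) (fun t => if (t : ℕ) < q then (t : ℕ) else n + (q + 1))
      = 0 := by
  obtain ⟨g', rfl⟩ : ∃ g', g = g' + 2 := ⟨g - 2, by omega⟩
  obtain ⟨m, rfl⟩ : ∃ m, q = m + (g' + 1) := ⟨q - (g' + 1), by omega⟩
  have hrel' : ∀ z : Fin (n + (m + (g' + 2))), n ≤ (z : ℕ) →
      Rel f (n + (g' + 2)) (u3 (n + (m + (g' + 2))) n (g' + 2) z) := by
    intro z hz
    have h1 := hrel z hz
    have h2 : u3 (n + (m + (g' + 2))) n (g' + 2) z = u2 (n + (m + (g' + 2))) n (g' + 2) z := by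
      ext i
      simp only [u3, u2]
      by_cases h3 : i = z
      · rw [if_pos h3, if_pos h3, h3, if_neg (by omega)]
      · rw [if_neg h3, if_neg h3]
    rw [h2]
    exact h1
  have hM := merge_L n m (g' + 2) 1 (by omega) f hrel' a b
  rw [Finset.sum_eq_single (n + g' + 1)] at hM
  · refine Eq.trans ?_ hM
    have hc : ∀ t : Fin n, cl m (n + (g' + 2)) (m + (n + g' + 1)) (g' + 2 + (t : ℕ))
        = m + (g' + 1) + (t : ℕ) := by
      intro t
      have := t.2
      unfold cl
      rw [if_neg (by omega)]
      omega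
    have hC : (fun t : Fin n => m + (g' + 1) + (t : ℕ))
        = (fun t : Fin n => cl m (n + (g' + 2)) (m + (n + g' + 1)) (g' + 2 + (t : ℕ))) := by
      ext t; rw [hc]
    rw [hC]
    refine PS_congrE f a b _ _ _ ?_ ?_
    · intro x y hxy
      have hx := x.2
      have hy := y.2
      apply Fin.ext
      simp only at hxy
      split_ifs at hxy <;> omega
    · intro t
      have ht := t.2
      by_cases h1 : (t : ℕ) < m + (g' + 1)
      · by_cases h2 : (t : ℕ) < m
        · refine ⟨t, ?_⟩
          simp only [if_pos h1, if_pos h2]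
        · refine ⟨⟨(t : ℕ) + 1, by omega⟩, ?_⟩
          simp only
          rw [if_pos h1, if_neg (by omega), if_neg (by omega)]
          unfold cl
          rw [if_neg (by omega)]
          omega
      · refine ⟨⟨m, by omega⟩, ?_⟩
        simp only
        rw [if_neg h1, if_neg (by omega), if_pos trivial]
        omega
  · intro i hi hne
    rw [mem_range] at hi
    refine PS_zeroE f a b _ _ ⟨m, by omega⟩ ⟨m + 1, by omega⟩ (by simp) ?_
    simp only
    rw [if_neg (by omega), if_pos trivial, if_neg (by omega), if_neg (by omega)]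
    unfold cl
    rw [if_pos (by omega)]
    omega
  · intro h
    exact absurd (mem_range.2 (by omega)) h

end Pool.Agent.Helper10.CYC
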