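import Mathlib

/-!
# Alternants of hook shape

If `e_i(y) = 0` for `r ≤ i < b`, an alternant of `y` with exponents of total degree
`k(k-1)/2 + b`, whose shape has at least `r` rows, vanishes unless its shape is a hook.
-/

set_option autoImplicit false

namespace Pool.Agent.Helper10.CYC

open Finset Matrix

variable {K : Type*} [Field K] {k : ℕ}

/-- Elementary symmetric function of the family `y`. -/
def es (y : Fin k → K) (j : ℕ) : K := ∑ S ∈ powersetCard j (univ : Finset (Fin k)), ∏ i ∈ S, y i

lemma root_rel (y : Fin k → K) (i : Fin k) :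
    ∑ j ∈ range (k + 1), (-1) ^ j * (es y j * y i ^ (k - j)) = 0 := by
  classical
  have h := Multiset.prod_X_sub_X_eq_sum_esymm ((univ : Finset (Fin k)).val.map y)
  have h2 := congrArg (Polynomial.eval (y i)) h
  rw [Polynomial.eval_multiset_prod, Polynomial.eval_finsetSum] at h2
  have h3 : (Multiset.map (Polynomial.eval (y i)) (Multiset.map
      (fun t => Polynomial.X - Polynomial.C t) (Multiset.map y (univ : Finset (Fin k)).val))).prod
      = 0 := by
    rw [Multiset.prod_eq_zero_iff]
    simp only [Multiset.mem_map, exists_exists_and_eq_and, Polynomial.eval_sub,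
      Polynomial.eval_X, Polynomial.eval_C]
    exact ⟨i, by simp, by simp⟩
  rw [h3] at h2
  rw [h2]
  simp only [Multiset.card_map, Finset.card_val, Finset.card_univ, Fintype.card_fin]
  refine sum_congr rfl (fun j _ => ?_)
  simp only [Polynomial.eval_mul, Polynomial.eval_pow, Polynomial.eval_neg, Polynomial.eval_one,
    Polynomial.eval_C, Polynomial.eval_X, Finset.esymm_map_val, es]

/-- Values of a functional on powers. -/
def wf (y : Fin k → K) (w : Fin k → K) (e : ℕ) : K := ∑ i, w i * y i ^ e

lemma wf_rel (y w : Fin k → K) (g : ℕ) :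
    wf y w (k + g) = - ∑ j ∈ range k, (-1) ^ (j + 1) * (es y (j + 1) * wf y w (k + g - (j + 1))) := by
  have h : ∑ j ∈ range (k + 1), (-1) ^ j * (es y j * wf y w (k + g - j)) = 0 := by
    have h1 : ∀ j ∈ range (k + 1), (-1) ^ j * (es y j * wf y w (k + g - j))
        = ∑ i, (w i * y i ^ g) * ((-1) ^ j * (es y j * y i ^ (k - j))) := by
      intro j hj
      rw [mem_range] at hj
      rw [wf, mul_sum, mul_sum]
      refine sum_congr rfl (fun i _ => ?_)
      have : k + g - j = g + (k - j) := by omega
      rw [this, pow_add]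
      ring
    rw [sum_congr rfl h1, sum_comm]
    refine sum_eq_zero (fun i _ => ?_)
    rw [← mul_sum, root_rel, mul_zero]
  rw [sum_range_succ'] at h
  have he0 : es y 0 = 1 := by simp [es]
  rw [pow_zero, he0, one_mul, one_mul, Nat.sub_zero] at h
  linear_combination h

lemma wf_zero (y w : Fin k → K) (b r z : ℕ) (hzr : z + r ≤ k)
    (hw : ∀ j, j < k → wf y w j = if j = z then 1 else 0)
    (he : ∀ i, r ≤ i → i < b → es y i = 0) :
    ∀ e, k ≤ e → e < z + b → wf y w e = 0 := by
  intro e
  induction e using Nat.strong_induction_on with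
  | _ e ih =>
    intro h1 h2
    obtain ⟨g, rfl⟩ := Nat.exists_eq_add_of_le h1
    rw [wf_rel, neg_eq_zero]
    refine sum_eq_zero (fun j hj => ?_)
    rw [mem_range] at hj
    by_cases hlt : k + g - (j + 1) < k
    · by_cases hz : k + g - (j + 1) = z
      · rw [he (j + 1) (by omega) (by omega)]; ring
      · rw [hw _ hlt, if_neg hz]; ring
    · rw [ih (k + g - (j + 1)) (by omega) (by omega) (by omega)]; ring

lemma wf_val (y w : Fin k → K) (b r z : ℕ) (hb0 : 0 < b) (hb : b ≤ k) (hzr : z + r ≤ k)
    (hzb : k ≤ z + b) (hz : z < k)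
    (hw : ∀ j, j < k → wf y w j = if j = z then 1 else 0)
    (he : ∀ i, r ≤ i → i < b → es y i = 0) :
    wf y w (z + b) = - ((-1) ^ b * es y b) := by
  obtain ⟨g, hg⟩ := Nat.exists_eq_add_of_le hzb
  rw [hg, wf_rel, neg_inj]
  rw [sum_eq_single (b - 1)]
  · have e1 : b - 1 + 1 = b := by omega
    have e2 : k + g - b = z := by omega
    rw [e1, e2, hw z hz, if_pos rfl, mul_one]
  · intro j hj hjb
    rw [mem_range] at hj
    by_cases hlt : k + g - (j + 1) < k
    · rw [hw _ hlt, if_neg (by omega)]; ring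
    · rw [wf_zero y w b r z hzr hw he _ (by omega) (by omega)]; ring
  · intro h
    exact absurd (mem_range.2 (by omega)) h

lemma exists_w (y : Fin k → K) (hy : Function.Injective y) (z : ℕ) (hz : z < k) :
    ∃ w : Fin k → K, ∀ j, j < k → wf y w j = if j = z then 1 else 0 := by
  have hV : (vandermonde y).det ≠ 0 := det_vandermonde_ne_zero_iff.2 hy
  refine ⟨(vandermonde y)⁻¹ ⟨z, hz⟩, fun j hj => ?_⟩
  have h1 : (vandermonde y)⁻¹ * vandermonde y = 1 :=
    nonsing_inv_mul _ (isUnit_iff_ne_zero.2 hV)
  have h2 := congrFun (congrFun h1 ⟨z, hz⟩) ⟨j, hj⟩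
  rw [mul_apply] at h2
  rw [wf]
  simp only [vandermonde_apply] at h2
  rw [h2, one_apply]
  simp only [Fin.mk.injEq]
  by_cases h : j = z
  · rw [if_pos h, if_pos h.symm]
  · rw [if_neg h, if_neg (fun hh => h hh.symm)]

/-- Vanishing of the alternants whose exponents miss `z` and stay below `z + b`. -/
lemma det_zero (y : Fin k → K) (hy : Function.Injective y) (b r z : ℕ) (hz : z < k)
    (hzr : z + r ≤ k) (he : ∀ i, r ≤ i → i < b → es y i = 0)
    (E : Fin k → ℕ) (h1 : ∀ j, E j ≠ z) (h2 : ∀ j, E j < k ∨ E j < z + b) :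
    (Matrix.of fun i j => y i ^ E j : Matrix (Fin k) (Fin k) K).det = 0 := by
  obtain ⟨w, hw⟩ := exists_w y hy z hz
  rw [← exists_vecMul_eq_zero_iff]
  refine ⟨w, ?_, ?_⟩
  · rintro rfl
    have := hw z hz
    rw [if_pos rfl] at this
    simp [wf] at this
  · ext j
    rw [vecMul, dotProduct]
    have h3 : wf y w (E j) = 0 := by
      by_cases hlt : E j < k
      · rw [hw _ hlt, if_neg (h1 j)]
      · exact wf_zero y w b r z hzr hw he _ (by omega) (by have := h2 j; omega)
    simpa [wf] using h3

/-- Value of the alternants of hook shape. -/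
lemma det_hook (y : Fin k → K) (hy : Function.Injective y) (b r : ℕ) (z : Fin k)
    (hb0 : 0 < b) (hb : b ≤ k) (hzb : k ≤ z + b)
    (hzr : z + r ≤ k) (he : ∀ i, r ≤ i → i < b → es y i = 0) :
    (Matrix.of fun i j => y i ^ (if j = z then (z : ℕ) + b else (j : ℕ)) :
      Matrix (Fin k) (Fin k) K).det = - ((-1) ^ b * es y b) * (vandermonde y).det := by
  obtain ⟨w, hw⟩ := exists_w y hy z z.2
  set v : Fin k → K := fun i => y i ^ ((z : ℕ) + b) with hv
  have h1 : (Matrix.of fun i j => y i ^ (if j = z then (z : ℕ) + b else (j : ℕ)) :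
      Matrix (Fin k) (Fin k) K) = (vandermonde y).updateCol z v := by
    ext i j
    by_cases h : j = z
    · subst h; simp [hv]
    · simp [h, vandermonde_apply]
  rw [h1, ← cramer_apply]
  have h2 := mulVec_cramer (vandermonde y) v
  have h3 := congrArg (fun t => w ⬝ᵥ t) h2
  rw [dotProduct_mulVec] at h3
  have h4 : w ᵥ* vandermonde y = Pi.single z 1 := by
    ext j
    have := hw j j.2
    rw [wf] at this
    rw [vecMul, dotProduct]
    simp only [vandermonde_apply]
    rw [this]
    by_cases h : j = z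
    · subst h; simp
    · rw [if_neg (fun hh => h (Fin.ext hh)), Pi.single_eq_of_ne h]
  rw [h4, single_one_dotProduct, dotProduct_smul] at h3
  rw [h3]
  have h5 : w ⬝ᵥ v = - ((-1) ^ b * es y b) := by
    rw [← wf_val y w b r z hb0 hb hzr hzb z.2 hw he]
    rfl
  rw [h5, smul_eq_mul, mul_comm]

end Pool.Agent.Helper10.CYC
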