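import Pool.Agent.Helper10.CYC.PieceC

/-!
# Layer 1 of the even case: two block sums and the one-slot merges

`PS f a b C E` is the sum over all bijections of the determinants with columns
`a_i X^{C_{σ i}}`, `b_j X^{E_{τ j}}`.
-/

set_option autoImplicit false

namespace Pool.Agent.Helper10.CYC

open Finset Polynomial

/-- The two block sum. -/
noncomputable def PS {R : Type*} [CommRing R] {s l : ℕ} (f : R[X]) (a : Fin s → R[X])
    (b : Fin l → R[X]) (C : Fin s → ℕ) (E : Fin l → ℕ) : R :=
  ∑ σ : Equiv.Perm (Fin s), ∑ τ : Equiv.Perm (Fin l),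
    dd f (Fin.append (fun i => a i * X ^ C (σ i)) (fun j => b j * X ^ E (τ j)))

/-- Weight `jj` on the slot `z`, one on the other slots below `s`. -/
def u3 (k s jj : ℕ) (z : Fin k) : Fin k → ℕ :=
  fun i => if i = z then jj else if (i : ℕ) < s then 1 else 0

/-- The label at distance `d` after `p` on the circle `[m, m + b)`. -/
def cl (m b p d : ℕ) : ℕ := if p + d < m + b then p + d else p + d - b

/-- The distance from `p` to `x` on a circle of length `b`. -/
def cd (b p x : ℕ) : ℕ := if p ≤ x then x - p else x + b - p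

section ps

variable {R : Type*} [CommRing R] {s l : ℕ}

lemma PS_permC (f : R[X]) (a : Fin s → R[X]) (b : Fin l → R[X]) (C : Fin s → ℕ)
    (E : Fin l → ℕ) (π : Equiv.Perm (Fin s)) : PS f a b (fun i => C (π i)) E = PS f a b C E := by
  rw [PS, PS]
  refine Fintype.sum_equiv (Equiv.mulLeft π) _ _ (fun σ => ?_)
  rfl

lemma PS_permE (f : R[X]) (a : Fin s → R[X]) (b : Fin l → R[X]) (C : Fin s → ℕ)
    (E : Fin l → ℕ) (π : Equiv.Perm (Fin l)) : PS f a b C (fun i => E (π i)) = PS f a b C E := by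
  rw [PS, PS]
  refine sum_congr rfl (fun σ _ => ?_)
  refine Fintype.sum_equiv (Equiv.mulLeft π) _ _ (fun τ => ?_)
  rfl

lemma sum_perm_zero {M : Type*} [CommRing M] [CharP M 2] {n : ℕ} (E : Fin n → ℕ)
    (i j : Fin n) (hij : i ≠ j) (hE : E i = E j) (F : (Fin n → ℕ) → M) :
    ∑ σ : Equiv.Perm (Fin n), F (fun t => E (σ t)) = 0 := by
  classical
  refine Finset.sum_involution (fun σ _ => σ.trans (Equiv.swap i j)) ?_ ?_ ?_ ?_
  · intro σ _
    have h1 : (fun t => E ((σ.trans (Equiv.swap i j)) t)) = fun t => E (σ t) := by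
      ext t
      rw [Equiv.trans_apply]
      by_cases h : σ t = i
      · rw [h, Equiv.swap_apply_left, hE]
      · by_cases h' : σ t = j
        · rw [h', Equiv.swap_apply_right, hE]
        · rw [Equiv.swap_apply_of_ne_of_ne h h']
    rw [h1]
    exact CharTwo.add_self_eq_zero _
  · intro σ _ _ heq
    apply hij
    have h1 := congrArg (fun π : Equiv.Perm (Fin n) => π (σ.symm i)) heq
    simp only [Equiv.trans_apply, Equiv.apply_symm_apply, Equiv.swap_apply_left] at h1
    exact h1.symm
  · intro σ _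
    exact mem_univ _
  · intro σ _
    ext t
    simp

lemma PS_zeroC [CharP R 2] (f : R[X]) (a : Fin s → R[X]) (b : Fin l → R[X]) (C : Fin s → ℕ)
    (E : Fin l → ℕ) (i j : Fin s) (hij : i ≠ j) (h : C i = C j) : PS f a b C E = 0 := by
  rw [PS]
  exact sum_perm_zero C i j hij h (fun C' => ∑ τ : Equiv.Perm (Fin l),
    dd f (Fin.append (fun i => a i * X ^ C' i) (fun j => b j * X ^ E (τ j))))

lemma PS_zeroE [CharP R 2] (f : R[X]) (a : Fin s → R[X]) (b : Fin l → R[X]) (C : Fin s → ℕ)
    (E : Fin l → ℕ) (i j : Fin l) (hij : i ≠ j) (h : E i = E j) : PS f a b C E = 0 := by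
  rw [PS]
  refine sum_eq_zero (fun σ _ => ?_)
  exact sum_perm_zero E i j hij h (fun E' =>
    dd f (Fin.append (fun i => a i * X ^ C (σ i)) (fun j => b j * X ^ E' j)))

end ps

section circ

variable {k : ℕ}

lemma cd_lt {b p x : ℕ} (hp : p < k) (hx : x < k) (hpb : k ≤ p + b) (hxb : k ≤ x + b) :
    cd b p x < b := by
  unfold cd
  split_ifs <;> omega

lemma cd_inj {b p x y : ℕ} (hx : x < k) (hy : y < k) (hxb : k ≤ x + b)
    (hyb : k ≤ y + b) (hp : p < k) (h : cd b p x = cd b p y) : x = y := by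
  unfold cd at h
  split_ifs at h <;> omega

lemma cd_cl {m b p d : ℕ} (hp1 : m ≤ p) (hp2 : p < m + b) (hd : d < b) :
    cd b p (cl m b p d) = d := by
  unfold cd cl
  split_ifs <;> omega

lemma cl_cd {m b p x : ℕ} (hp1 : m ≤ p) (hp2 : p < m + b) (hx1 : m ≤ x) (hx2 : x < m + b) :
    cl m b p (cd b p x) = x := by
  unfold cd cl
  split_ifs <;> omega

lemma cl_ge {m b p d : ℕ} (hp1 : m ≤ p) (hd : d < b) : m ≤ cl m b p d := by
  unfold cl
  split_ifs <;> omega

lemma cl_lt {m b p d : ℕ} (hp2 : p < m + b) (hd : d < b) : cl m b p d < m + b := by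
  unfold cl
  split_ifs <;> omega

lemma cl_zero {m b p : ℕ} (hp2 : p < m + b) : cl m b p 0 = p := by
  unfold cl
  rw [if_pos (by omega)]; omega

lemma cl_inj {m b p d d' : ℕ} (hp1 : m ≤ p) (hp2 : p < m + b) (hd : d < b) (hd' : d' < b)
    (h : cl m b p d = cl m b p d') : d = d' := by
  have h1 := cd_cl hp1 hp2 hd
  rw [h, cd_cl hp1 hp2 hd'] at h1
  exact h1.symm

lemma u3_z (s jj : ℕ) (z : Fin k) : u3 k s jj z z = jj := by simp [u3]

lemma u3_pl (s jj : ℕ) (z i : Fin k) (h1 : i ≠ z) (h2 : (i : ℕ) < s) : u3 k s jj z i = 1 := by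
  simp [u3, h1, h2]

lemma u3_ne (s jj : ℕ) (z i : Fin k) (h : u3 k s jj z i ≠ 0) :
    i = z ∨ (i ≠ z ∧ (i : ℕ) < s) := by
  by_cases h1 : i = z
  · exact Or.inl h1
  · refine Or.inr ⟨h1, ?_⟩
    by_contra h2
    exact h (by simp [u3, h1, h2])

/-- The plain slots. -/
def pls (k s : ℕ) (z : Fin k) : Finset (Fin k) := univ.filter (fun i => i ≠ z ∧ (i : ℕ) < s)

lemma mem_pls (s : ℕ) (z i : Fin k) : i ∈ pls k s z ↔ i ≠ z ∧ (i : ℕ) < s := by
  simp [pls]

/-- Characterisation of the good labelings for one special slot. -/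
lemma good_u3 (n s jj : ℕ) (z : Fin k) (hjj : 1 ≤ jj) (hn : (pls k s z).card = n)
    (hb : n + jj ≤ k) (σ : Equiv.Perm (Fin k)) :
    Good k (n + jj) (u3 k s jj z) σ ↔ k ≤ (σ z : ℕ) + (n + jj) ∧
      ∀ i : Fin k, i ≠ z → (i : ℕ) < s → k ≤ (σ i : ℕ) + (n + jj) ∧
        jj ≤ cd (n + jj) (σ z) (σ i) := by
  have hpk := (σ z).2
  constructor
  · intro hg
    obtain ⟨hz1, jz, hjz, hz2⟩ := hg z (by rw [u3_z]; omega)
    rw [u3_z] at hz2
    have claim : ∀ t : ℕ, t < n → ∃ i : Fin k, i ∈ pls k s z ∧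
        cd (n + jj) (σ z) (σ i) = jj + t := by
      intro t
      induction t with
      | zero =>
        intro hn0
        have hjk := (σ jz).2
        have hne : jz ≠ z := by
          rintro rfl
          omega
        rcases u3_ne s jj z jz hjz with h | h
        · exact absurd h hne
        · refine ⟨jz, (mem_pls s z jz).2 h, ?_⟩
          unfold cd
          split_ifs <;> omega
      | succ t ih =>
        intro ht
        obtain ⟨i, hi, hcd⟩ := ih (by omega)
        have hi' := (mem_pls s z i).1 hi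
        obtain ⟨h1, j, hj, h2⟩ := hg i (by rw [u3_pl s jj z i hi'.1 hi'.2]; exact one_ne_zero)
        rw [u3_pl s jj z i hi'.1 hi'.2] at h2
        have h3 := (hg j hj).1
        have hik := (σ i).2
        have hjk := (σ j).2
        have hcd2 : cd (n + jj) (σ z) (σ j) = jj + t + 1 ∧ (σ j : ℕ) ≠ σ z := by
          unfold cd at hcd ⊢
          split_ifs at hcd ⊢ <;> omega
        rcases u3_ne s jj z j hj with h | h
        · exact absurd (by rw [h]) hcd2.2
        · exact ⟨j, (mem_pls s z j).2 h, by omega⟩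
    refine ⟨hz1, ?_⟩
    intro i hi1 hi2
    have hu := u3_pl s jj z i hi1 hi2
    refine ⟨(hg i (by rw [hu]; exact one_ne_zero)).1, ?_⟩
    choose T hT1 hT2 using (fun t : Fin n => claim t t.2)
    have hTinj : Function.Injective T := by
      intro a c hac
      have h1 := hT2 a
      rw [hac, hT2 c] at h1
      exact Fin.ext (by omega)
    have himg : univ.image T = pls k s z := by
      apply eq_of_subset_of_card_le
      · intro x hx
        obtain ⟨t, -, rfl⟩ := mem_image.1 hx
        exact hT1 t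
      · rw [card_image_of_injective _ hTinj, card_univ, Fintype.card_fin, hn]
    have hi : i ∈ univ.image T := by rw [himg]; exact (mem_pls s z i).2 ⟨hi1, hi2⟩
    obtain ⟨t, -, rfl⟩ := mem_image.1 hi
    rw [hT2]; omega
  · rintro ⟨hz1, hpl⟩
    have hmap : ∀ i ∈ pls k s z, cd (n + jj) (σ z) (σ i) ∈ Ico jj (n + jj) := by
      intro i hi
      have hi' := (mem_pls s z i).1 hi
      obtain ⟨h1, h2⟩ := hpl i hi'.1 hi'.2
      exact mem_Ico.2 ⟨h2, cd_lt hpk (σ i).2 hz1 h1⟩
    have hinj : Set.InjOn (fun i : Fin k => cd (n + jj) (σ z) (σ i)) (pls k s z : Set (Fin k)) := by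
      intro a ha c hc hac
      have ha' := (mem_pls s z a).1 (mem_coe.1 ha)
      have hc' := (mem_pls s z c).1 (mem_coe.1 hc)
      have h1 := cd_inj (σ a).2 (σ c).2 (hpl a ha'.1 ha'.2).1 (hpl c hc'.1 hc'.2).1 hpk hac
      exact σ.injective (Fin.ext h1)
    have himg : (pls k s z).image (fun i : Fin k => cd (n + jj) (σ z) (σ i)) =
        Ico jj (n + jj) := by
      apply eq_of_subset_of_card_le
      · intro x hx
        obtain ⟨i, hi, rfl⟩ := mem_image.1 hx
        exact hmap i hi
      · rw [card_image_of_injOn hinj, hn, Nat.card_Ico]; omega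
    have hsurj : ∀ d : ℕ, jj ≤ d → d < n + jj → ∃ i : Fin k, i ≠ z ∧ (i : ℕ) < s ∧
        cd (n + jj) (σ z) (σ i) = d := by
      intro d h1 h2
      have h3 : d ∈ (pls k s z).image (fun i : Fin k => cd (n + jj) (σ z) (σ i)) := by
        rw [himg]; exact mem_Ico.2 ⟨h1, h2⟩
      obtain ⟨i, hi, h4⟩ := mem_image.1 h3
      have hi' := (mem_pls s z i).1 hi
      exact ⟨i, hi'.1, hi'.2, h4⟩
    intro i hi
    rcases u3_ne s jj z i hi with h | ⟨h1, h2⟩
    · subst h
      refine ⟨hz1, ?_⟩
      rw [u3_z]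
      by_cases hn0 : n = 0
      · refine ⟨i, hi, Or.inr ?_⟩
        omega
      · obtain ⟨j, hj1, hj2, hj3⟩ := hsurj jj le_rfl (by omega)
        have hjk := (σ j).2
        refine ⟨j, by rw [u3_pl s jj i j hj1 hj2]; exact one_ne_zero, ?_⟩
        unfold cd at hj3
        split_ifs at hj3 <;> omega
    · obtain ⟨h3, h4⟩ := hpl i h1 h2
      refine ⟨h3, ?_⟩
      rw [u3_pl s jj z i h1 h2]
      have hik := (σ i).2
      have hlt := cd_lt hpk hik hz1 h3
      by_cases h5 : cd (n + jj) (σ z) (σ i) + 1 < n + jj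
      · obtain ⟨j, hj1, hj2, hj3⟩ := hsurj (cd (n + jj) (σ z) (σ i) + 1) (by omega) h5
        have hjk := (σ j).2
        have hjb := (hpl j hj1 hj2).1
        refine ⟨j, by rw [u3_pl s jj z j hj1 hj2]; exact one_ne_zero, ?_⟩
        unfold cd at hj3 h5 hlt
        split_ifs at hj3 h5 hlt <;> omega
      · refine ⟨z, by rw [u3_z]; omega, ?_⟩
        unfold cd at h5 hlt
        split_ifs at h5 hlt <;> omega

end circ

lemma card_filter_lt {k n : ℕ} (h : n ≤ k) :
    (univ.filter (fun i : Fin k => (i : ℕ) < n)).card = n := by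
  have h1 : (univ.filter (fun i : Fin k => (i : ℕ) < n)).image (fun i : Fin k => (i : ℕ))
      = range n := by
    ext x
    rw [mem_image, mem_range]
    constructor
    · rintro ⟨i, hi, rfl⟩
      exact (mem_filter.1 hi).2
    · intro hx
      exact ⟨⟨x, by omega⟩, mem_filter.2 ⟨mem_univ _, hx⟩, rfl⟩
  have h2 := card_image_of_injective (univ.filter (fun i : Fin k => (i : ℕ) < n))
    Fin.val_injective
  rw [h1, card_range] at h2
  exact h2.symm

lemma pls_card_ge {k n : ℕ} (h : n ≤ k) (z : Fin k) (hz : n ≤ (z : ℕ)) :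
    (pls k n z).card = n := by
  refine Eq.trans ?_ (card_filter_lt h)
  congr 1
  ext i
  simp only [pls, mem_filter, mem_univ, true_and]
  constructor
  · exact fun h => h.2
  · intro h1
    refine ⟨?_, h1⟩
    rintro rfl
    omega

lemma pls_card_lt {k n : ℕ} (h : n + 1 ≤ k) (z : Fin k) (hz : (z : ℕ) < n + 1) :
    (pls k (n + 1) z).card = n := by
  have h1 : pls k (n + 1) z = (univ.filter (fun i : Fin k => (i : ℕ) < n + 1)).erase z := by
    ext i
    simp only [pls, mem_filter, mem_univ, true_and, mem_erase]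
  have h2 : z ∈ univ.filter (fun i : Fin k => (i : ℕ) < n + 1) :=
    mem_filter.2 ⟨mem_univ _, hz⟩
  rw [h1, card_erase_of_mem h2, card_filter_lt h]
  rfl

section mergeL

variable {n m jj : ℕ}

/-- Labels for the merge of the special slot into the second block. -/
def fL1 (n m jj i : ℕ) (hi : i < n + jj) : Fin n ⊕ Fin (m + jj) → Fin (n + (m + jj)) :=
  Sum.elim (fun t => ⟨cl m (n + jj) (m + i) (jj + (t : ℕ)), by
      have h1 := t.2
      have h2 := @cl_lt m (n + jj) (m + i) (jj + (t : ℕ)) (by omega) (by omega)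
      omega⟩)
    (fun t => if h : (t : ℕ) < m then ⟨(t : ℕ), by omega⟩ else
      ⟨cl m (n + jj) (m + i) ((t : ℕ) - m), by
        have h1 := t.2
        have h2 := @cl_lt m (n + jj) (m + i) ((t : ℕ) - m) (by omega) (by omega)
        omega⟩)

lemma fL1_inl (i : ℕ) (hi : i < n + jj) (t : Fin n) :
    ((fL1 n m jj i hi (Sum.inl t) : Fin (n + (m + jj))) : ℕ)
      = cl m (n + jj) (m + i) (jj + (t : ℕ)) := rfl

lemma fL1_inr (i : ℕ) (hi : i < n + jj) (t : Fin (m + jj)) :
    ((fL1 n m jj i hi (Sum.inr t) : Fin (n + (m + jj))) : ℕ)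
      = if (t : ℕ) < m then (t : ℕ) else cl m (n + jj) (m + i) ((t : ℕ) - m) := by
  simp only [fL1, Sum.elim_inr]
  by_cases h : (t : ℕ) < m
  · rw [dif_pos h, if_pos h]
  · rw [dif_neg h, if_neg h]

lemma fL1_bij (i : ℕ) (hi : i < n + jj) : Function.Bijective (fL1 n m jj i hi) := by
  rw [Fintype.bijective_iff_injective_and_card]
  refine ⟨?_, by simp⟩
  rintro (a | a) (c | c) h
  · have h1 := congrArg (fun t : Fin (n + (m + jj)) => (t : ℕ)) h
    simp only [fL1_inl] at h1
    have ha := a.2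
    have hc := c.2
    have h2 := cl_inj (by omega) (by omega) (by omega) (by omega) h1
    congr 1
    exact Fin.ext (by omega)
  · have h1 := congrArg (fun t : Fin (n + (m + jj)) => (t : ℕ)) h
    simp only [fL1_inl, fL1_inr] at h1
    have ha := a.2
    have hc := c.2
    by_cases h3 : (c : ℕ) < m
    · rw [if_pos h3] at h1
      have h4 := @cl_ge m (n + jj) (m + i) (jj + (a : ℕ)) (by omega) (by omega)
      omega
    · rw [if_neg h3] at h1
      have h2 := cl_inj (by omega) (by omega) (by omega) (by omega) h1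
      omega
  · have h1 := congrArg (fun t : Fin (n + (m + jj)) => (t : ℕ)) h
    simp only [fL1_inl, fL1_inr] at h1
    have ha := a.2
    have hc := c.2
    by_cases h3 : (a : ℕ) < m
    · rw [if_pos h3] at h1
      have h4 := @cl_ge m (n + jj) (m + i) (jj + (c : ℕ)) (by omega) (by omega)
      omega
    · rw [if_neg h3] at h1
      have h2 := cl_inj (by omega) (by omega) (by omega) (by omega) h1
      omega
  · have h1 := congrArg (fun t : Fin (n + (m + jj)) => (t : ℕ)) h
    simp only [fL1_inr] at h1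
    have ha := a.2
    have hc := c.2
    congr 1
    apply Fin.ext
    by_cases h3 : (a : ℕ) < m
    · by_cases h4 : (c : ℕ) < m
      · rw [if_pos h3, if_pos h4] at h1; exact h1
      · rw [if_pos h3, if_neg h4] at h1
        have h5 := @cl_ge m (n + jj) (m + i) ((c : ℕ) - m) (by omega) (by omega)
        omega
    · by_cases h4 : (c : ℕ) < m
      · rw [if_neg h3, if_pos h4] at h1
        have h5 := @cl_ge m (n + jj) (m + i) ((a : ℕ) - m) (by omega) (by omega)
        omega
      · rw [if_neg h3, if_neg h4] at h1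
        have h2 := cl_inj (by omega) (by omega) (by omega) (by omega) h1
        omega

/-- **(M1)** The merge of the special slot (gap `jj`) into the second block, weight `+e`. -/
theorem merge_L {R : Type*} [CommRing R] [CharP R 2] (n m jj e : ℕ) (hjj : 1 ≤ jj) (f : R[X])
    (hrel : ∀ z : Fin (n + (m + jj)), n ≤ (z : ℕ) → Rel f (n + jj) (u3 (n + (m + jj)) n jj z))
    (a : Fin n → R[X]) (b : Fin (m + jj) → R[X]) :
    ∑ i ∈ range (n + jj), PS f a b (fun t => cl m (n + jj) (m + i) (jj + (t : ℕ)))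
      (fun t => if (t : ℕ) < m then (t : ℕ) else if (t : ℕ) = m then m + i + e
        else cl m (n + jj) (m + i) ((t : ℕ) - m)) = 0 := by
  classical
  set g : Fin (n + (m + jj)) → R[X] := Fin.append a b with hg
  set G : Fin (n + (m + jj)) × Equiv.Perm (Fin (n + (m + jj))) → R := fun x =>
    dd f (fun j => g j * X ^ ((x.2 j : ℕ) + (if j = x.1 then e else 0))) with hG
  set T : Finset (Fin (n + (m + jj)) × Equiv.Perm (Fin (n + (m + jj)))) := univ.filter
    (fun x : Fin (n + (m + jj)) × Equiv.Perm (Fin (n + (m + jj))) =>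
    n ≤ (x.1 : ℕ) ∧ Good (n + (m + jj)) (n + jj) (u3 (n + (m + jj)) n jj x.1) x.2) with hT
  have htot : ∑ x ∈ T, G x = 0 := by
    rw [hT, sum_filter, Fintype.sum_prod_type]
    refine sum_eq_zero (fun z _ => ?_)
    by_cases hz : n ≤ (z : ℕ)
    · have h1 := hrel z hz (fun j => g j * X ^ (if j = z then e else 0))
      rw [sum_filter] at h1
      refine Eq.trans (sum_congr rfl (fun σ _ => ?_)) h1
      by_cases hgd : Good (n + (m + jj)) (n + jj) (u3 (n + (m + jj)) n jj z) σ
      · rw [if_pos ⟨hz, hgd⟩, if_pos hgd, hG]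
        simp only
        congr 1
        ext1 j
        rw [mul_assoc, ← pow_add, add_comm]
      · rw [if_neg (fun h => hgd h.2), if_neg hgd]
    · exact sum_eq_zero (fun σ _ => by rw [if_neg (fun h => hz h.1)])
  have hmaps : ∀ x ∈ T, ((x.2 x.1 : Fin (n + (m + jj))) : ℕ) - m ∈ range (n + jj) := by
    intro x hx
    rw [hT, mem_filter] at hx
    obtain ⟨-, hz, hgd⟩ := hx
    have h1 := (x.2 x.1).2
    rw [mem_range]
    omega
  rw [← Finset.sum_fiberwise_of_maps_to hmaps] at htot
  refine Eq.trans (sum_congr rfl (fun i hi => ?_)) htot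
  rw [mem_range] at hi
  set e1 : Fin n ⊕ Fin (m + jj) ≃ Fin (n + (m + jj)) := finSumFinEquiv with he1
  set e2 : Fin n ⊕ Fin (m + jj) ≃ Fin (n + (m + jj)) :=
    Equiv.ofBijective (fL1 n m jj i hi) (fL1_bij i hi) with he2
  have e1l : ∀ t : Fin n, ((e1 (Sum.inl t) : Fin (n + (m + jj))) : ℕ) = t := by
    intro t; simp [he1]
  have e1r : ∀ t : Fin (m + jj), ((e1 (Sum.inr t) : Fin (n + (m + jj))) : ℕ) = n + t := by
    intro t; simp [he1]
  have e2l : ∀ t : Fin n, ((e2 (Sum.inl t) : Fin (n + (m + jj))) : ℕ)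
      = cl m (n + jj) (m + i) (jj + (t : ℕ)) := fun t => rfl
  have e2r : ∀ t : Fin (m + jj), ((e2 (Sum.inr t) : Fin (n + (m + jj))) : ℕ)
      = if (t : ℕ) < m then (t : ℕ) else cl m (n + jj) (m + i) ((t : ℕ) - m) :=
    fun t => fL1_inr i hi t
  set p : Fin (n + (m + jj)) := ⟨m + i, by omega⟩ with hp
  have hpv : (p : ℕ) = m + i := rfl
  -- step B
  have hQ : ∀ (σ : Equiv.Perm (Fin (n + (m + jj)))),
      (n ≤ (σ.symm p : ℕ) ∧ Good (n + (m + jj)) (n + jj)
        (u3 (n + (m + jj)) n jj (σ.symm p)) σ) ↔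
      ∀ t : Fin n, ∃ t' : Fin n, σ (e1 (Sum.inl t)) = e2 (Sum.inl t') := by
    intro σ
    have hσz : σ (σ.symm p) = p := Equiv.apply_symm_apply _ _
    constructor
    · rintro ⟨hz, hgd⟩ t
      rw [good_u3 n n jj (σ.symm p) hjj (pls_card_ge (by omega) _ hz) (by omega) σ, hσz] at hgd
      have ht := t.2
      obtain ⟨h1, h2⟩ := hgd.2 (e1 (Sum.inl t))
        (fun h => by
          have h3 := congrArg (fun t : Fin (n + (m + jj)) => (t : ℕ)) h
          simp only [e1l] at h3
          omega) (by rw [e1l]; exact ht)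
      have h3 := (σ (e1 (Sum.inl t))).2
      have h4 := cd_lt (b := n + jj) p.2 h3 (by rw [hpv]; omega) h1
      refine ⟨⟨cd (n + jj) p (σ (e1 (Sum.inl t))) - jj, by omega⟩, Fin.ext ?_⟩
      rw [e2l]
      simp only
      have h5 : jj + (cd (n + jj) p (σ (e1 (Sum.inl t))) - jj)
          = cd (n + jj) (m + i) (σ (e1 (Sum.inl t))) := by
        rw [hpv] at h2 ⊢
        omega
      rw [h5, cl_cd (by omega) (by omega) (by omega) (by omega)]
    · intro h
      have hlab : ∀ j : Fin (n + (m + jj)), (j : ℕ) < n → ∃ t' : Fin n,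
          (σ j : ℕ) = cl m (n + jj) (m + i) (jj + (t' : ℕ)) := by
        intro j hj
        obtain ⟨t', ht'⟩ := h ⟨j, hj⟩
        have h1 : e1 (Sum.inl ⟨(j : ℕ), hj⟩) = j := Fin.ext (by rw [e1l])
        rw [h1] at ht'
        exact ⟨t', by rw [ht', e2l]⟩
      have hz : n ≤ (σ.symm p : ℕ) := by
        by_contra hcon
        push Not at hcon
        obtain ⟨t', ht'⟩ := hlab _ hcon
        have ht2 := t'.2
        rw [hσz, hpv] at ht'
        have h2 := @cl_zero m (n + jj) (m + i) (by omega)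
        have h3 := cl_inj (m := m) (b := n + jj) (p := m + i) (d := 0) (d' := jj + (t' : ℕ))
          (by omega) (by omega) (by omega) (by omega) (by rw [h2]; exact ht')
        omega
      refine ⟨hz, ?_⟩
      rw [good_u3 n n jj (σ.symm p) hjj (pls_card_ge (by omega) _ hz) (by omega) σ, hσz]
      refine ⟨by rw [hpv]; omega, fun j _ hj => ?_⟩
      obtain ⟨t', ht'⟩ := hlab j hj
      have ht2 := t'.2
      have h4 := @cl_ge m (n + jj) (m + i) (jj + (t' : ℕ)) (by omega) (by omega)
      rw [ht', hpv]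
      refine ⟨by omega, ?_⟩
      rw [cd_cl (by omega) (by omega) (by omega)]
      omega
  have hB : ∑ x ∈ T with ((x.2 x.1 : Fin (n + (m + jj))) : ℕ) - m = i, G x
      = ∑ σ ∈ univ.filter (fun σ : Equiv.Perm (Fin (n + (m + jj))) =>
          n ≤ (σ.symm p : ℕ) ∧ Good (n + (m + jj)) (n + jj)
          (u3 (n + (m + jj)) n jj (σ.symm p)) σ), G (σ.symm p, σ) := by
    have hkey : ∀ x : Fin (n + (m + jj)) × Equiv.Perm (Fin (n + (m + jj))), x ∈ T →
        ((x.2 x.1 : Fin (n + (m + jj))) : ℕ) - m = i → x.1 = x.2.symm p := by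
      intro x hx hxi
      rw [hT, mem_filter] at hx
      obtain ⟨-, hz, hgd⟩ := hx
      have h1 := (good_u3 n n jj x.1 hjj (pls_card_ge (by omega) _ hz) (by omega) x.2).1 hgd
      rw [Equiv.eq_symm_apply]
      apply Fin.ext
      rw [hpv]
      have := h1.1
      omega
    refine Finset.sum_bij (fun x _ => x.2) ?_ ?_ ?_ ?_
    · intro x hx
      rw [mem_filter] at hx
      have h1 := hkey x hx.1 hx.2
      have h2 := hx.1
      rw [hT, mem_filter] at h2
      rw [mem_filter, ← h1]
      exact ⟨mem_univ _, h2.2⟩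
    · intro x hx y hy hxy
      rw [mem_filter] at hx hy
      have h1 := hkey x hx.1 hx.2
      have h2 := hkey y hy.1 hy.2
      apply Prod.ext
      · rw [h1, h2, hxy]
      · exact hxy
    · intro σ hσ
      rw [mem_filter] at hσ
      refine ⟨(σ.symm p, σ), ?_, rfl⟩
      rw [mem_filter, hT, mem_filter]
      refine ⟨⟨mem_univ _, hσ.2⟩, ?_⟩
      simp only [Equiv.apply_symm_apply]
      rw [hpv]; omega
    · intro x hx
      rw [mem_filter] at hx
      rw [← hkey x hx.1 hx.2]
  rw [hB, sum_two_block e1 e2 _ hQ, PS]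
  refine sum_congr rfl (fun τ _ => sum_congr rfl (fun lam _ => ?_))
  rw [hG]
  simp only
  congr 1
  ext1 j
  obtain ⟨y, rfl⟩ := e1.surjective j
  have hsy : ∀ y, (e1 y = (bp e1 e2 τ lam).symm p) ↔ bp e1 e2 τ lam (e1 y) = p := by
    intro y
    rw [Equiv.eq_symm_apply]
  rcases y with t | t
  · have h1 : e1 (Sum.inl t) = Fin.castAdd (m + jj) t := by rw [he1]; rfl
    have h2 : ¬ (e1 (Sum.inl t) = (bp e1 e2 τ lam).symm p) := by
      rw [hsy, bp_inl]
      intro hcon
      have h3 := congrArg (fun t : Fin (n + (m + jj)) => (t : ℕ)) hcon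
      simp only [e2l, hpv] at h3
      have h4 := (τ t).2
      have h5 := @cl_zero m (n + jj) (m + i) (by omega)
      have h6 := cl_inj (m := m) (b := n + jj) (p := m + i) (d := jj + ((τ t : Fin n) : ℕ))
        (d' := 0) (by omega) (by omega) (by omega) (by omega) (by rw [h5]; exact h3)
      omega
    rw [if_neg h2, bp_inl, e2l, hg, h1, Fin.append_left, Fin.append_left, add_zero]
  · have h1 : e1 (Sum.inr t) = Fin.natAdd n t := by rw [he1]; rfl
    have h4 := (lam t).2
    have h2 : (e1 (Sum.inr t) = (bp e1 e2 τ lam).symm p) ↔ ((lam t : Fin (m + jj)) : ℕ) = m := by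
      rw [hsy, bp_inr, Fin.ext_iff, e2r, hpv]
      have h5 := @cl_zero m (n + jj) (m + i) (by omega)
      constructor
      · intro h6
        by_cases h7 : ((lam t : Fin (m + jj)) : ℕ) < m
        · rw [if_pos h7] at h6; omega
        · rw [if_neg h7] at h6
          have h8 := cl_inj (m := m) (b := n + jj) (p := m + i)
            (d := ((lam t : Fin (m + jj)) : ℕ) - m) (d' := 0)
            (by omega) (by omega) (by omega) (by omega) (by rw [h5]; exact h6)
          omega
      · intro h6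
        rw [if_neg (by omega), h6, Nat.sub_self, h5]
    rw [bp_inr, e2r, hg, h1, Fin.append_right, Fin.append_right]
    congr 2
    by_cases h3 : ((lam t : Fin (m + jj)) : ℕ) < m
    · rw [if_pos h3, if_pos h3, ← h1, if_neg (fun h => by have := h2.1 h; omega), add_zero]
    · rw [if_neg h3, if_neg h3]
      by_cases h7 : ((lam t : Fin (m + jj)) : ℕ) = m
      · rw [if_pos h7, ← h1, if_pos (h2.2 h7), h7, Nat.sub_self,
          @cl_zero m (n + jj) (m + i) (by omega)]
      · rw [if_neg h7, ← h1, if_neg (fun h => h7 (h2.1 h)), add_zero]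

end mergeL

section mergeS

variable {n m q : ℕ}

/-- Labels for the merge of the special slot into the first block. -/
def fL2 (n m q i : ℕ) (hi : i < n + (q + 1)) : Fin (n + 1) ⊕ Fin (m + q) →
    Fin ((n + 1) + (m + q)) :=
  Sum.elim (fun t => if h : (t : ℕ) = 0 then ⟨m + i, by omega⟩ else
      ⟨cl m (n + (q + 1)) (m + i) (q + (t : ℕ)), by
      have h1 := t.2
      have h2 := @cl_lt m (n + (q + 1)) (m + i) (q + (t : ℕ)) (by omega) (by omega)
      omega⟩)
    (fun t => if h : (t : ℕ) < m then ⟨(t : ℕ), by omega⟩ else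
      ⟨cl m (n + (q + 1)) (m + i) ((t : ℕ) - m + 1), by
        have h1 := t.2
        have h2 := @cl_lt m (n + (q + 1)) (m + i) ((t : ℕ) - m + 1) (by omega) (by omega)
        omega⟩)

lemma fL2_inl (i : ℕ) (hi : i < n + (q + 1)) (t : Fin (n + 1)) :
    ((fL2 n m q i hi (Sum.inl t) : Fin ((n + 1) + (m + q))) : ℕ)
      = if (t : ℕ) = 0 then m + i else cl m (n + (q + 1)) (m + i) (q + (t : ℕ)) := by
  simp only [fL2, Sum.elim_inl]
  by_cases h : (t : ℕ) = 0
  · rw [dif_pos h, if_pos h]
  · rw [dif_neg h, if_neg h]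

lemma fL2_inr (i : ℕ) (hi : i < n + (q + 1)) (t : Fin (m + q)) :
    ((fL2 n m q i hi (Sum.inr t) : Fin ((n + 1) + (m + q))) : ℕ)
      = if (t : ℕ) < m then (t : ℕ) else cl m (n + (q + 1)) (m + i) ((t : ℕ) - m + 1) := by
  simp only [fL2, Sum.elim_inr]
  by_cases h : (t : ℕ) < m
  · rw [dif_pos h, if_pos h]
  · rw [dif_neg h, if_neg h]

lemma fL2_bij (i : ℕ) (hi : i < n + (q + 1)) : Function.Bijective (fL2 n m q i hi) := by
  rw [Fintype.bijective_iff_injective_and_card]
  refine ⟨?_, by simp⟩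
  have hz := @cl_zero m (n + (q + 1)) (m + i) (by omega)
  have key : ∀ d d' : ℕ, d < n + (q + 1) → d' < n + (q + 1) →
      cl m (n + (q + 1)) (m + i) d = cl m (n + (q + 1)) (m + i) d' → d = d' := by
    intro d d' h1 h2 h3
    exact cl_inj (by omega) (by omega) h1 h2 h3
  have hge : ∀ d : ℕ, d < n + (q + 1) → m ≤ cl m (n + (q + 1)) (m + i) d := by
    intro d h1
    exact cl_ge (by omega) h1
  -- every label as a value of `cl`
  rintro (a | a) (c | c) h
  · have h1 := congrArg (fun t : Fin ((n + 1) + (m + q)) => (t : ℕ)) h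
    simp only [fL2_inl] at h1
    have ha := a.2
    have hc := c.2
    congr 1
    apply Fin.ext
    by_cases h3 : (a : ℕ) = 0
    · by_cases h4 : (c : ℕ) = 0
      · omega
      · rw [if_pos h3, if_neg h4] at h1
        have := key 0 (q + (c : ℕ)) (by omega) (by omega) (hz.trans h1)
        omega
    · by_cases h4 : (c : ℕ) = 0
      · rw [if_neg h3, if_pos h4] at h1
        have := key (q + (a : ℕ)) 0 (by omega) (by omega) (h1.trans hz.symm)
        omega
      · rw [if_neg h3, if_neg h4] at h1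
        have := key _ _ (by omega) (by omega) h1
        omega
  · have h1 := congrArg (fun t : Fin ((n + 1) + (m + q)) => (t : ℕ)) h
    simp only [fL2_inl, fL2_inr] at h1
    have ha := a.2
    have hc := c.2
    exfalso
    by_cases h4 : (c : ℕ) < m
    · rw [if_pos h4] at h1
      by_cases h3 : (a : ℕ) = 0
      · rw [if_pos h3] at h1; omega
      · rw [if_neg h3] at h1
        have := hge (q + (a : ℕ)) (by omega)
        omega
    · rw [if_neg h4] at h1
      by_cases h3 : (a : ℕ) = 0
      · rw [if_pos h3] at h1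
        have := key 0 ((c : ℕ) - m + 1) (by omega) (by omega) (hz.trans h1)
        omega
      · rw [if_neg h3] at h1
        have := key _ _ (by omega) (by omega) h1
        omega
  · have h1 := congrArg (fun t : Fin ((n + 1) + (m + q)) => (t : ℕ)) h
    simp only [fL2_inl, fL2_inr] at h1
    have ha := a.2
    have hc := c.2
    exfalso
    by_cases h4 : (a : ℕ) < m
    · rw [if_pos h4] at h1
      by_cases h3 : (c : ℕ) = 0
      · rw [if_pos h3] at h1; omega
      · rw [if_neg h3] at h1
        have := hge (q + (c : ℕ)) (by omega)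
        omega
    · rw [if_neg h4] at h1
      by_cases h3 : (c : ℕ) = 0
      · rw [if_pos h3] at h1
        have := key ((a : ℕ) - m + 1) 0 (by omega) (by omega) (h1.trans hz.symm)
        omega
      · rw [if_neg h3] at h1
        have := key _ _ (by omega) (by omega) h1
        omega
  · have h1 := congrArg (fun t : Fin ((n + 1) + (m + q)) => (t : ℕ)) h
    simp only [fL2_inr] at h1
    have ha := a.2
    have hc := c.2
    congr 1
    apply Fin.ext
    by_cases h3 : (a : ℕ) < m
    · by_cases h4 : (c : ℕ) < m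
      · rw [if_pos h3, if_pos h4] at h1; exact h1
      · rw [if_pos h3, if_neg h4] at h1
        have := hge ((c : ℕ) - m + 1) (by omega)
        omega
    · by_cases h4 : (c : ℕ) < m
      · rw [if_neg h3, if_pos h4] at h1
        have := hge ((a : ℕ) - m + 1) (by omega)
        omega
      · rw [if_neg h3, if_neg h4] at h1
        have := key _ _ (by omega) (by omega) h1
        omega

/-- **(M2)** The merge of the special slot (gap `q + 1`) into the first block, weight `-e`
(all the other labels are shifted by `+e`). -/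
theorem merge_S {R : Type*} [CommRing R] [CharP R 2] (n m q e : ℕ) (f : R[X])
    (hrel : ∀ z : Fin ((n + 1) + (m + q)), (z : ℕ) < n + 1 →
      Rel f (n + (q + 1)) (u3 ((n + 1) + (m + q)) (n + 1) (q + 1) z))
    (a : Fin (n + 1) → R[X]) (b : Fin (m + q) → R[X]) :
    ∑ i ∈ range (n + (q + 1)), PS f a b
      (fun t => if (t : ℕ) = 0 then m + i else cl m (n + (q + 1)) (m + i) (q + (t : ℕ)) + e)
      (fun t => (if (t : ℕ) < m then (t : ℕ)
        else cl m (n + (q + 1)) (m + i) ((t : ℕ) - m + 1)) + e) = 0 := by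
  classical
  set g : Fin ((n + 1) + (m + q)) → R[X] := Fin.append a b with hg
  set G : Fin ((n + 1) + (m + q)) × Equiv.Perm (Fin ((n + 1) + (m + q))) → R := fun x =>
    dd f (fun j => g j * X ^ ((x.2 j : ℕ) + (if j = x.1 then 0 else e))) with hG
  set T : Finset (Fin ((n + 1) + (m + q)) × Equiv.Perm (Fin ((n + 1) + (m + q)))) :=
    univ.filter (fun x : Fin ((n + 1) + (m + q)) × Equiv.Perm (Fin ((n + 1) + (m + q))) =>
    (x.1 : ℕ) < n + 1 ∧ Good ((n + 1) + (m + q)) (n + (q + 1))
      (u3 ((n + 1) + (m + q)) (n + 1) (q + 1) x.1) x.2) with hT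
  have htot : ∑ x ∈ T, G x = 0 := by
    rw [hT, sum_filter, Fintype.sum_prod_type]
    refine sum_eq_zero (fun z _ => ?_)
    by_cases hz : (z : ℕ) < n + 1
    · have h1 := hrel z hz (fun j => g j * X ^ (if j = z then 0 else e))
      rw [sum_filter] at h1
      refine Eq.trans (sum_congr rfl (fun σ _ => ?_)) h1
      by_cases hgd : Good ((n + 1) + (m + q)) (n + (q + 1))
        (u3 ((n + 1) + (m + q)) (n + 1) (q + 1) z) σ
      · rw [if_pos ⟨hz, hgd⟩, if_pos hgd, hG]
        simp only
        congr 1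
        ext1 j
        rw [mul_assoc, ← pow_add, add_comm]
      · rw [if_neg (fun h => hgd h.2), if_neg hgd]
    · exact sum_eq_zero (fun σ _ => by rw [if_neg (fun h => hz h.1)])
  have hmaps : ∀ x ∈ T, ((x.2 x.1 : Fin ((n + 1) + (m + q))) : ℕ) - m
      ∈ range (n + (q + 1)) := by
    intro x hx
    rw [hT, mem_filter] at hx
    obtain ⟨-, hz, hgd⟩ := hx
    have h1 := (x.2 x.1).2
    rw [mem_range]
    omega
  rw [← Finset.sum_fiberwise_of_maps_to hmaps] at htot
  refine Eq.trans (sum_congr rfl (fun i hi => ?_)) htot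
  rw [mem_range] at hi
  set e1 : Fin (n + 1) ⊕ Fin (m + q) ≃ Fin ((n + 1) + (m + q)) := finSumFinEquiv with he1
  set e2 : Fin (n + 1) ⊕ Fin (m + q) ≃ Fin ((n + 1) + (m + q)) :=
    Equiv.ofBijective (fL2 n m q i hi) (fL2_bij i hi) with he2
  have e1l : ∀ t : Fin (n + 1), ((e1 (Sum.inl t) : Fin ((n + 1) + (m + q))) : ℕ) = t := by
    intro t; simp [he1]
  have e1r : ∀ t : Fin (m + q), ((e1 (Sum.inr t) : Fin ((n + 1) + (m + q))) : ℕ)
      = n + 1 + t := by
    intro t; simp [he1]
  have e2l : ∀ t : Fin (n + 1), ((e2 (Sum.inl t) : Fin ((n + 1) + (m + q))) : ℕ)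
      = if (t : ℕ) = 0 then m + i else cl m (n + (q + 1)) (m + i) (q + (t : ℕ)) :=
    fun t => fL2_inl i hi t
  have e2r : ∀ t : Fin (m + q), ((e2 (Sum.inr t) : Fin ((n + 1) + (m + q))) : ℕ)
      = if (t : ℕ) < m then (t : ℕ) else cl m (n + (q + 1)) (m + i) ((t : ℕ) - m + 1) :=
    fun t => fL2_inr i hi t
  set p : Fin ((n + 1) + (m + q)) := ⟨m + i, by omega⟩ with hp
  have hpv : (p : ℕ) = m + i := rfl
  have hcz := @cl_zero m (n + (q + 1)) (m + i) (by omega)
  have hcinj : ∀ d d' : ℕ, d < n + (q + 1) → d' < n + (q + 1) →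
      cl m (n + (q + 1)) (m + i) d = cl m (n + (q + 1)) (m + i) d' → d = d' := by
    intro d d' h1 h2 h3
    exact cl_inj (by omega) (by omega) h1 h2 h3
  -- step B
  have hQ : ∀ (σ : Equiv.Perm (Fin ((n + 1) + (m + q)))),
      ((σ.symm p : ℕ) < n + 1 ∧ Good ((n + 1) + (m + q)) (n + (q + 1))
        (u3 ((n + 1) + (m + q)) (n + 1) (q + 1) (σ.symm p)) σ) ↔
      ∀ t : Fin (n + 1), ∃ t' : Fin (n + 1), σ (e1 (Sum.inl t)) = e2 (Sum.inl t') := by
    intro σ
    have hσz : σ (σ.symm p) = p := Equiv.apply_symm_apply _ _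
    constructor
    · rintro ⟨hz, hgd⟩ t
      rw [good_u3 n (n + 1) (q + 1) (σ.symm p) (by omega) (pls_card_lt (by omega) _ hz)
        (by omega) σ, hσz] at hgd
      have ht := t.2
      by_cases htz : e1 (Sum.inl t) = σ.symm p
      · refine ⟨⟨0, by omega⟩, Fin.ext ?_⟩
        rw [htz, hσz, e2l, if_pos rfl]
      · obtain ⟨h1, h2⟩ := hgd.2 (e1 (Sum.inl t)) htz (by rw [e1l]; exact ht)
        have h3 := (σ (e1 (Sum.inl t))).2
        have h4 := cd_lt (b := n + (q + 1)) p.2 h3 (by rw [hpv]; omega) h1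
        refine ⟨⟨cd (n + (q + 1)) p (σ (e1 (Sum.inl t))) - q, by omega⟩, Fin.ext ?_⟩
        rw [e2l]
        simp only
        have h5 : q + (cd (n + (q + 1)) p (σ (e1 (Sum.inl t))) - q)
            = cd (n + (q + 1)) (m + i) (σ (e1 (Sum.inl t))) := by
          rw [hpv] at h2 ⊢
          omega
        rw [if_neg (by omega), h5, cl_cd (by omega) (by omega) (by omega) (by omega)]
    · intro h
      have hlab : ∀ j : Fin ((n + 1) + (m + q)), (j : ℕ) < n + 1 → ∃ t' : Fin (n + 1),
          (σ j : ℕ) = if (t' : ℕ) = 0 then m + i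
            else cl m (n + (q + 1)) (m + i) (q + (t' : ℕ)) := by
        intro j hj
        obtain ⟨t', ht'⟩ := h ⟨j, hj⟩
        have h1 : e1 (Sum.inl ⟨(j : ℕ), hj⟩) = j := Fin.ext (by rw [e1l])
        rw [h1] at ht'
        exact ⟨t', by rw [ht', e2l]⟩
      have hz : (σ.symm p : ℕ) < n + 1 := by
        choose T hT using h
        have hTinj : Function.Injective T := by
          intro a c hac
          have h1 := hT a
          rw [hac, ← hT c] at h1
          exact Sum.inl_injective (e1.injective (σ.injective h1))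
        obtain ⟨t, ht⟩ := Finite.surjective_of_injective hTinj ⟨0, by omega⟩
        have h1 := hT t
        rw [ht] at h1
        have h2 : σ (e1 (Sum.inl t)) = p := by
          rw [h1]; exact Fin.ext (by rw [e2l, if_pos rfl])
        rw [← h2, Equiv.symm_apply_apply, e1l]
        exact t.2
      refine ⟨hz, ?_⟩
      rw [good_u3 n (n + 1) (q + 1) (σ.symm p) (by omega) (pls_card_lt (by omega) _ hz)
        (by omega) σ, hσz]
      refine ⟨by rw [hpv]; omega, fun j hjz hj => ?_⟩
      obtain ⟨t', ht'⟩ := hlab j hj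
      have ht2 := t'.2
      have hne : (t' : ℕ) ≠ 0 := by
        intro h0
        rw [if_pos h0] at ht'
        apply hjz
        rw [Equiv.eq_symm_apply]
        exact Fin.ext ht'
      rw [if_neg hne] at ht'
      have h4 := @cl_ge m (n + (q + 1)) (m + i) (q + (t' : ℕ)) (by omega) (by omega)
      rw [ht', hpv]
      refine ⟨by omega, ?_⟩
      rw [cd_cl (by omega) (by omega) (by omega)]
      omega
  have hB : ∑ x ∈ T with ((x.2 x.1 : Fin ((n + 1) + (m + q))) : ℕ) - m = i, G x
      = ∑ σ ∈ univ.filter (fun σ : Equiv.Perm (Fin ((n + 1) + (m + q))) =>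
          (σ.symm p : ℕ) < n + 1 ∧ Good ((n + 1) + (m + q)) (n + (q + 1))
          (u3 ((n + 1) + (m + q)) (n + 1) (q + 1) (σ.symm p)) σ), G (σ.symm p, σ) := by
    have hkey : ∀ x : Fin ((n + 1) + (m + q)) × Equiv.Perm (Fin ((n + 1) + (m + q))), x ∈ T →
        ((x.2 x.1 : Fin ((n + 1) + (m + q))) : ℕ) - m = i → x.1 = x.2.symm p := by
      intro x hx hxi
      rw [hT, mem_filter] at hx
      obtain ⟨-, hz, hgd⟩ := hx
      have h1 := (good_u3 n (n + 1) (q + 1) x.1 (by omega) (pls_card_lt (by omega) _ hz)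
        (by omega) x.2).1 hgd
      rw [Equiv.eq_symm_apply]
      apply Fin.ext
      rw [hpv]
      have := h1.1
      omega
    refine Finset.sum_bij (fun x _ => x.2) ?_ ?_ ?_ ?_
    · intro x hx
      rw [mem_filter] at hx
      have h1 := hkey x hx.1 hx.2
      have h2 := hx.1
      rw [hT, mem_filter] at h2
      rw [mem_filter, ← h1]
      exact ⟨mem_univ _, h2.2⟩
    · intro x hx y hy hxy
      rw [mem_filter] at hx hy
      have h1 := hkey x hx.1 hx.2
      have h2 := hkey y hy.1 hy.2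
      apply Prod.ext
      · rw [h1, h2, hxy]
      · exact hxy
    · intro σ hσ
      rw [mem_filter] at hσ
      refine ⟨(σ.symm p, σ), ?_, rfl⟩
      rw [mem_filter, hT, mem_filter]
      refine ⟨⟨mem_univ _, hσ.2⟩, ?_⟩
      simp only [Equiv.apply_symm_apply]
      rw [hpv]; omega
    · intro x hx
      rw [mem_filter] at hx
      rw [← hkey x hx.1 hx.2]
  rw [hB, sum_two_block e1 e2 _ hQ, PS]
  refine sum_congr rfl (fun τ _ => sum_congr rfl (fun lam _ => ?_))
  rw [hG]
  simp only
  congr 1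
  ext1 j
  obtain ⟨y, rfl⟩ := e1.surjective j
  have hsy : ∀ y, (e1 y = (bp e1 e2 τ lam).symm p) ↔ bp e1 e2 τ lam (e1 y) = p := by
    intro y
    rw [Equiv.eq_symm_apply]
  rcases y with t | t
  · have h1 : e1 (Sum.inl t) = Fin.castAdd (m + q) t := by rw [he1]; rfl
    have h4 := (τ t).2
    have h2 : (e1 (Sum.inl t) = (bp e1 e2 τ lam).symm p) ↔ ((τ t : Fin (n + 1)) : ℕ) = 0 := by
      rw [hsy, bp_inl, Fin.ext_iff, e2l, hpv]
      constructor
      · intro h6
        by_contra h7
        rw [if_neg h7, ← hcz] at h6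
        rw [hcz] at h6
        have h8 := hcinj (q + ((τ t : Fin (n + 1)) : ℕ)) 0 (by omega) (by omega)
          (by rw [hcz]; exact h6)
        omega
      · intro h6
        rw [if_pos h6]
    rw [bp_inl, e2l, hg, h1, Fin.append_left, Fin.append_left]
    congr 2
    by_cases h7 : ((τ t : Fin (n + 1)) : ℕ) = 0
    · rw [if_pos h7, if_pos h7, ← h1, if_pos (h2.2 h7), add_zero]
    · rw [if_neg h7, if_neg h7, ← h1, if_neg (fun h => h7 (h2.1 h))]
  · have h1 : e1 (Sum.inr t) = Fin.natAdd (n + 1) t := by rw [he1]; rfl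
    have h4 := (lam t).2
    have h2 : ¬ (e1 (Sum.inr t) = (bp e1 e2 τ lam).symm p) := by
      rw [hsy, bp_inr, Fin.ext_iff, e2r, hpv]
      intro h6
      by_cases h7 : ((lam t : Fin (m + q)) : ℕ) < m
      · rw [if_pos h7] at h6; omega
      · rw [if_neg h7] at h6
        have h8 := hcinj (((lam t : Fin (m + q)) : ℕ) - m + 1) 0 (by omega) (by omega)
          (by rw [hcz]; exact h6)
        omega
    rw [if_neg h2, bp_inr, e2r, hg, h1, Fin.append_right, Fin.append_right]

/-- **(T1)** in two block form. -/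
theorem merge_T1 {R : Type*} [CommRing R] [CharP R 2] (s l : ℕ) (f : R[X])
    (hrel : Rel f s (u1 (s + l) s)) (a : Fin s → R[X]) (b : Fin l → R[X]) :
    PS f a b (fun t => l + (t : ℕ)) (fun t => (t : ℕ)) = 0 := by
  classical
  set e1 : Fin s ⊕ Fin l ≃ Fin (s + l) := finSumFinEquiv with he1
  set e2 : Fin s ⊕ Fin l ≃ Fin (s + l) :=
    (Equiv.sumComm _ _).trans (finSumFinEquiv.trans (finCongr (Nat.add_comm l s))) with he2
  have e1l : ∀ i : Fin s, ((e1 (Sum.inl i) : Fin (s + l)) : ℕ) = i := by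
    intro i; simp [he1]
  have e2l : ∀ i : Fin s, ((e2 (Sum.inl i) : Fin (s + l)) : ℕ) = l + i := by
    intro i; simp [he2]; omega
  have e2r : ∀ i : Fin l, ((e2 (Sum.inr i) : Fin (s + l)) : ℕ) = i := by
    intro i; simp [he2]
  have hp : ∀ σ : Equiv.Perm (Fin (s + l)), Good (s + l) s (u1 (s + l) s) σ ↔
      ∀ i : Fin s, ∃ t : Fin s, σ (e1 (Sum.inl i)) = e2 (Sum.inl t) := by
    intro σ
    constructor
    · intro hg i
      have h1 : u1 (s + l) s (e1 (Sum.inl i)) ≠ 0 := by
        simp only [u1, e1l, if_pos i.2]; exact one_ne_zero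
      have h2 := (hg _ h1).1
      have h3 := (σ (e1 (Sum.inl i))).2
      refine ⟨⟨(σ (e1 (Sum.inl i)) : ℕ) - l, by omega⟩, Fin.ext ?_⟩
      rw [e2l]; simp only; omega
    · intro h
      choose T hT using h
      have hTinj : Function.Injective T := by
        intro a b hab
        have h1 := hT a
        rw [hab, ← hT b] at h1
        exact Sum.inl_injective (e1.injective (σ.injective h1))
      have hTs := Finite.surjective_of_injective hTinj
      intro i hi
      have his : (i : ℕ) < s := by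
        by_contra hcon
        exact hi (by simp only [u1, if_neg hcon])
      have hi' : i = e1 (Sum.inl ⟨i, his⟩) := Fin.ext (by rw [e1l])
      have hl : (σ i : ℕ) = l + T ⟨i, his⟩ := by
        have h5 := hT ⟨i, his⟩
        rw [← hi'] at h5
        rw [h5, e2l]
      have hu : u1 (s + l) s i = 1 := by simp only [u1, if_pos his]
      refine ⟨by omega, ?_⟩
      by_cases ht : (T ⟨i, his⟩ : ℕ) + 1 < s
      · obtain ⟨j, hj⟩ := hTs ⟨(T ⟨i, his⟩ : ℕ) + 1, ht⟩
        refine ⟨e1 (Sum.inl j), ?_, Or.inl ?_⟩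
        · simp only [u1, e1l, if_pos j.2]; exact one_ne_zero
        · rw [hT, e2l, hj, hu, hl]; simp only; omega
      · obtain ⟨j, hj⟩ := hTs ⟨0, by omega⟩
        have h4 := (T ⟨i, his⟩).2
        refine ⟨e1 (Sum.inl j), ?_, Or.inr ?_⟩
        · simp only [u1, e1l, if_pos j.2]; exact one_ne_zero
        · rw [hT, e2l, hj, hu, hl]; simp only; omega
  have h := hrel (Fin.append a b)
  rw [sum_two_block e1 e2 _ hp] at h
  rw [← h, PS]
  refine sum_congr rfl (fun τ _ => sum_congr rfl (fun lam _ => ?_))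
  congr 1
  ext1 j
  obtain ⟨y, rfl⟩ := e1.surjective j
  rcases y with t | t
  · have h1 : e1 (Sum.inl t) = Fin.castAdd l t := by rw [he1]; rfl
    rw [bp_inl, e2l, h1, Fin.append_left, Fin.append_left]
  · have h1 : e1 (Sum.inr t) = Fin.natAdd s t := by rw [he1]; rfl
    rw [bp_inr, e2r, h1, Fin.append_right, Fin.append_right]

end mergeS

end Pool.Agent.Helper10.CYC
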