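import Pool.Agent.Helper10.CYC.Merge

/-!
# Layer 1 of the even case: merges with two special slots
-/

set_option autoImplicit false

namespace Pool.Agent.Helper10.CYC

open Finset Polynomial

/-- Weight `jj` on the slot `z`, `jj'` on the slot `w`, one on the other slots below `s`. -/
def u4 (k s jj jj' : ℕ) (z w : Fin k) : Fin k → ℕ :=
  fun i => if i = z then jj else if i = w then jj' else if (i : ℕ) < s then 1 else 0

section circ2

variable {k : ℕ}

lemma next_cd {b p x y u : ℕ} (hp : p < k) (hx : x < k) (hy : y < k) (hpb : k ≤ p + b)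
    (hxb : k ≤ x + b) (hyb : k ≤ y + b) (h : y = x + u ∨ y + b = x + u)
    (hlt : cd b p x + u < b) : cd b p y = cd b p x + u := by
  unfold cd at hlt ⊢
  split_ifs at hlt ⊢ <;> omega

lemma next_lab {b p x y u : ℕ} (hp : p < k) (hx : x < k) (hy : y < k) (hpb : k ≤ p + b)
    (hxb : k ≤ x + b) (hyb : k ≤ y + b) (h : cd b p y = cd b p x + u) :
    y = x + u ∨ y + b = x + u := by
  unfold cd at h
  split_ifs at h <;> omega

lemma next_z {b p x u : ℕ} (hp : p < k) (hx : x < k) (hpb : k ≤ p + b)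
    (hxb : k ≤ x + b) (h : cd b p x + u = b) : p = x + u ∨ p + b = x + u := by
  unfold cd at h
  split_ifs at h <;> omega

lemma cd_self {b p : ℕ} : cd b p p = 0 := by
  unfold cd
  rw [if_pos le_rfl]; omega

lemma u4_z (s jj jj' : ℕ) (z w : Fin k) : u4 k s jj jj' z w z = jj := by simp [u4]

lemma u4_w (s jj jj' : ℕ) (z w : Fin k) (h : z ≠ w) : u4 k s jj jj' z w w = jj' := by
  simp [u4, Ne.symm h]

lemma u4_pl (s jj jj' : ℕ) (z w i : Fin k) (h1 : i ≠ z) (h2 : i ≠ w) (h3 : (i : ℕ) < s) :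
    u4 k s jj jj' z w i = 1 := by
  simp [u4, h1, h2, h3]

lemma u4_ne (s jj jj' : ℕ) (z w i : Fin k) (h : u4 k s jj jj' z w i ≠ 0) :
    i = z ∨ i = w ∨ (i ≠ z ∧ i ≠ w ∧ (i : ℕ) < s) := by
  by_cases h1 : i = z
  · exact Or.inl h1
  · by_cases h2 : i = w
    · exact Or.inr (Or.inl h2)
    · refine Or.inr (Or.inr ⟨h1, h2, ?_⟩)
      by_contra h3
      exact h (by simp [u4, h1, h2, h3])

/-- The plain slots. -/
def pls2 (k s : ℕ) (z w : Fin k) : Finset (Fin k) :=
  univ.filter (fun i => i ≠ z ∧ i ≠ w ∧ (i : ℕ) < s)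

lemma mem_pls2 (s : ℕ) (z w i : Fin k) : i ∈ pls2 k s z w ↔ i ≠ z ∧ i ≠ w ∧ (i : ℕ) < s := by
  simp [pls2]

/-- Characterisation of the good labelings for two special slots. -/
lemma good_u4 (n s jj jj' : ℕ) (z w : Fin k) (hzw : z ≠ w) (hjj : 1 ≤ jj) (hjj' : 1 ≤ jj')
    (hn : (pls2 k s z w).card = n) (σ : Equiv.Perm (Fin k)) :
    Good k (n + jj + jj') (u4 k s jj jj' z w) σ ↔
      k ≤ (σ z : ℕ) + (n + jj + jj') ∧ k ≤ (σ w : ℕ) + (n + jj + jj') ∧
      jj ≤ cd (n + jj + jj') (σ z) (σ w) ∧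
      cd (n + jj + jj') (σ z) (σ w) + jj' ≤ n + jj + jj' ∧
      ∀ i : Fin k, i ≠ z → i ≠ w → (i : ℕ) < s → k ≤ (σ i : ℕ) + (n + jj + jj') ∧
        jj ≤ cd (n + jj + jj') (σ z) (σ i) ∧
        (cd (n + jj + jj') (σ z) (σ i) < cd (n + jj + jj') (σ z) (σ w) ∨
          cd (n + jj + jj') (σ z) (σ w) + jj' ≤ cd (n + jj + jj') (σ z) (σ i)) := by
  set b := n + jj + jj' with hbdef
  have hpk := (σ z).2
  have hwk := (σ w).2
  have hnez : ∀ j : Fin k, cd b (σ z) (σ j) ≠ 0 → k ≤ (σ j : ℕ) + b → j ≠ z := by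
    rintro j h - rfl
    exact h cd_self
  constructor
  · intro hg
    obtain ⟨hz1, jz, hjz, hz2⟩ := hg z (by rw [u4_z]; omega)
    rw [u4_z] at hz2
    obtain ⟨hw1, jw, hjw, hw2⟩ := hg w (by rw [u4_w _ _ _ _ _ hzw]; omega)
    rw [u4_w _ _ _ _ _ hzw] at hw2
    have hsupp : ∀ j : Fin k, u4 k s jj jj' z w j ≠ 0 → k ≤ (σ j : ℕ) + b :=
      fun j hj => (hg j hj).1
    -- distinct distances of plain slots
    have hpinj : ∀ i j : Fin k, i ∈ pls2 k s z w → j ∈ pls2 k s z w →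
        cd b (σ z) (σ i) = cd b (σ z) (σ j) → i = j := by
      intro i j hi hj h
      have hi' := (mem_pls2 s z w i).1 hi
      have hj' := (mem_pls2 s z w j).1 hj
      have h1 := hsupp i (by rw [u4_pl s jj jj' z w i hi'.1 hi'.2.1 hi'.2.2]; exact one_ne_zero)
      have h2 := hsupp j (by rw [u4_pl s jj jj' z w j hj'.1 hj'.2.1 hj'.2.2]; exact one_ne_zero)
      exact σ.injective (Fin.ext (cd_inj (σ i).2 (σ j).2 h1 h2 hpk h))
    have hbig : ¬ ∀ t : ℕ, t ≤ n → ∃ i : Fin k, i ∈ pls2 k s z w ∧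
        cd b (σ z) (σ i) = jj + t := by
      intro hall
      choose T hT1 hT2 using (fun t : Fin (n + 1) => hall t (by omega))
      have hTinj : Function.Injective T := by
        intro a c hac
        have h1 := hT2 a
        rw [hac, hT2 c] at h1
        exact Fin.ext (by omega)
      have h1 := Finset.card_le_card_of_injOn (s := univ) (t := pls2 k s z w) T
        (fun t _ => hT1 t) hTinj.injOn
      rw [card_univ, Fintype.card_fin, hn] at h1
      omega
    push Not at hbig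
    have hex : ∃ t : ℕ, ¬ ∃ i : Fin k, i ∈ pls2 k s z w ∧ cd b (σ z) (σ i) = jj + t := by
      obtain ⟨t, -, h⟩ := hbig
      exact ⟨t, fun ⟨i, h1, h2⟩ => h i h1 h2⟩
    classical
    obtain ⟨x, hx, hxmin⟩ : ∃ x : ℕ, (¬ ∃ i : Fin k, i ∈ pls2 k s z w ∧
        cd b (σ z) (σ i) = jj + x) ∧ ∀ t, t < x → ∃ i : Fin k, i ∈ pls2 k s z w ∧
        cd b (σ z) (σ i) = jj + t := by
      refine ⟨Nat.find hex, Nat.find_spec hex, fun t ht => ?_⟩
      by_contra hcon
      exact Nat.find_min hex ht hcon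
    have hxn : x ≤ n := by
      by_contra hcon
      push Not at hcon
      obtain ⟨t, ht, h⟩ := hbig
      obtain ⟨i, h1, h2⟩ := hxmin t (by omega)
      exact h i h1 h2
    -- the support slot at distance `jj + x`
    have hstep : ∀ t : ℕ, t ≤ x → ∃ j : Fin k, u4 k s jj jj' z w j ≠ 0 ∧
        cd b (σ z) (σ j) = jj + t := by
      intro t ht
      cases t with
      | zero =>
        refine ⟨jz, hjz, ?_⟩
        have h1 := next_cd (k := k) hpk hpk (σ jz).2 hz1 hz1 (hsupp jz hjz) hz2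
          (by rw [cd_self]; omega)
        rw [h1, cd_self]; omega
      | succ t =>
        obtain ⟨i, h1, h2⟩ := hxmin t (by omega)
        have hi' := (mem_pls2 s z w i).1 h1
        obtain ⟨h3, j, hj, h4⟩ := hg i (by
          rw [u4_pl s jj jj' z w i hi'.1 hi'.2.1 hi'.2.2]; exact one_ne_zero)
        rw [u4_pl s jj jj' z w i hi'.1 hi'.2.1 hi'.2.2] at h4
        refine ⟨j, hj, ?_⟩
        have h5 := next_cd (k := k) hpk (σ i).2 (σ j).2 hz1 h3 (hsupp j hj) h4 (by omega)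
        rw [h5, h2]; omega
    obtain ⟨jw0, hjw0, hjw1⟩ := hstep x le_rfl
    have hjw2 : jw0 = w := by
      rcases u4_ne s jj jj' z w jw0 hjw0 with h | h | h
      · exfalso
        rw [h, cd_self] at hjw1
        omega
      · exact h
      · exact absurd ⟨jw0, (mem_pls2 s z w jw0).2 h, hjw1⟩ hx
    rw [hjw2] at hjw1
    have hrest : ∀ t : ℕ, jj + x + jj' + t < b → ∃ i : Fin k, i ∈ pls2 k s z w ∧
        cd b (σ z) (σ i) = jj + x + jj' + t := by
      intro t
      induction t with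
      | zero =>
        intro ht
        have h1 := next_cd (k := k) hpk hwk (σ jw).2 hz1 hw1 (hsupp jw hjw) hw2 (by omega)
        rw [hjw1] at h1
        refine ⟨jw, ?_, by omega⟩
        rcases u4_ne s jj jj' z w jw hjw with h | h | h
        · rw [h, cd_self] at h1; omega
        · rw [h, hjw1] at h1; omega
        · exact (mem_pls2 s z w jw).2 h
      | succ t ih =>
        intro ht
        obtain ⟨i, h1, h2⟩ := ih (by omega)
        have hi' := (mem_pls2 s z w i).1 h1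
        obtain ⟨h3, j, hj, h4⟩ := hg i (by
          rw [u4_pl s jj jj' z w i hi'.1 hi'.2.1 hi'.2.2]; exact one_ne_zero)
        rw [u4_pl s jj jj' z w i hi'.1 hi'.2.1 hi'.2.2] at h4
        have h5 := next_cd (k := k) hpk (σ i).2 (σ j).2 hz1 h3 (hsupp j hj) h4 (by omega)
        rw [h2] at h5
        refine ⟨j, ?_, by omega⟩
        rcases u4_ne s jj jj' z w j hj with h | h | h
        · rw [h, cd_self] at h5; omega
        · rw [h, hjw1] at h5; omega
        · exact (mem_pls2 s z w j).2 h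
    refine ⟨hz1, hw1, by omega, by omega, ?_⟩
    intro i hi1 hi2 hi3
    have hu := u4_pl s jj jj' z w i hi1 hi2 hi3
    refine ⟨hsupp i (by rw [hu]; exact one_ne_zero), ?_⟩
    have hall : ∀ t : Fin n, ∃ j : Fin k, j ∈ pls2 k s z w ∧
        cd b (σ z) (σ j) = if (t : ℕ) < x then jj + t else jj + jj' + t := by
      intro t
      have ht := t.2
      by_cases h : (t : ℕ) < x
      · rw [if_pos h]; exact hxmin t h
      · rw [if_neg h]
        obtain ⟨j, h1, h2⟩ := hrest ((t : ℕ) - x) (by omega)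
        exact ⟨j, h1, by omega⟩
    choose T hT1 hT2 using hall
    have hTinj : Function.Injective T := by
      intro a c hac
      have h1 := hT2 a
      rw [hac, hT2 c] at h1
      apply Fin.ext
      split_ifs at h1 <;> omega
    have himg : univ.image T = pls2 k s z w := by
      apply eq_of_subset_of_card_le
      · intro y hy
        obtain ⟨t, -, rfl⟩ := mem_image.1 hy
        exact hT1 t
      · rw [card_image_of_injective _ hTinj, card_univ, Fintype.card_fin, hn]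
    have hi : i ∈ univ.image T := by rw [himg]; exact (mem_pls2 s z w i).2 ⟨hi1, hi2, hi3⟩
    obtain ⟨t, -, rfl⟩ := mem_image.1 hi
    rw [hT2, hjw1]
    have ht := t.2
    split_ifs <;> omega
  · rintro ⟨hz1, hw1, hd1, hd2, hpl⟩
    have hmap : ∀ i ∈ pls2 k s z w, cd b (σ z) (σ i) ∈
        Ico jj (cd b (σ z) (σ w)) ∪ Ico (cd b (σ z) (σ w) + jj') b := by
      intro i hi
      have hi' := (mem_pls2 s z w i).1 hi
      obtain ⟨h1, h2, h3⟩ := hpl i hi'.1 hi'.2.1 hi'.2.2
      have h4 := cd_lt hpk (σ i).2 hz1 h1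
      rw [mem_union, mem_Ico, mem_Ico]
      rcases h3 with h3 | h3
      · exact Or.inl ⟨h2, h3⟩
      · exact Or.inr ⟨h3, h4⟩
    have hinj : Set.InjOn (fun i : Fin k => cd b (σ z) (σ i))
        (pls2 k s z w : Set (Fin k)) := by
      intro a ha c hc hac
      have ha' := (mem_pls2 s z w a).1 (mem_coe.1 ha)
      have hc' := (mem_pls2 s z w c).1 (mem_coe.1 hc)
      have h1 := cd_inj (σ a).2 (σ c).2 (hpl a ha'.1 ha'.2.1 ha'.2.2).1
        (hpl c hc'.1 hc'.2.1 hc'.2.2).1 hpk hac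
      exact σ.injective (Fin.ext h1)
    have himg : (pls2 k s z w).image (fun i : Fin k => cd b (σ z) (σ i)) =
        Ico jj (cd b (σ z) (σ w)) ∪ Ico (cd b (σ z) (σ w) + jj') b := by
      apply eq_of_subset_of_card_le
      · intro x hx
        obtain ⟨i, hi, rfl⟩ := mem_image.1 hx
        exact hmap i hi
      · rw [card_image_of_injOn hinj, hn]
        refine (card_union_le _ _).trans ?_
        rw [Nat.card_Ico, Nat.card_Ico]; omega
    have hsurj : ∀ d : ℕ, ((jj ≤ d ∧ d < cd b (σ z) (σ w)) ∨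
        (cd b (σ z) (σ w) + jj' ≤ d ∧ d < b)) → ∃ i : Fin k, i ≠ z ∧ i ≠ w ∧ (i : ℕ) < s ∧
        cd b (σ z) (σ i) = d := by
      intro d h1
      have h3 : d ∈ (pls2 k s z w).image (fun i : Fin k => cd b (σ z) (σ i)) := by
        rw [himg, mem_union, mem_Ico, mem_Ico]; exact h1
      obtain ⟨i, hi, h4⟩ := mem_image.1 h3
      have hi' := (mem_pls2 s z w i).1 hi
      exact ⟨i, hi'.1, hi'.2.1, hi'.2.2, h4⟩
    -- a support slot at every admissible distance
    have hsl : ∀ d : ℕ, (d = cd b (σ z) (σ w) ∨ (jj ≤ d ∧ d < cd b (σ z) (σ w)) ∨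
        (cd b (σ z) (σ w) + jj' ≤ d ∧ d < b)) → ∃ j : Fin k, u4 k s jj jj' z w j ≠ 0 ∧
        k ≤ (σ j : ℕ) + b ∧ cd b (σ z) (σ j) = d := by
      intro d h1
      rcases h1 with h1 | h1
      · exact ⟨w, by rw [u4_w _ _ _ _ _ hzw]; omega, hw1, h1.symm⟩
      · obtain ⟨i, h2, h3, h4, h5⟩ := hsurj d h1
        exact ⟨i, by rw [u4_pl s jj jj' z w i h2 h3 h4]; exact one_ne_zero,
          (hpl i h2 h3 h4).1, h5⟩
    have hfin : ∀ (i : Fin k) (v : ℕ), k ≤ (σ i : ℕ) + b →
        (cd b (σ z) (σ i) + v = b ∨ cd b (σ z) (σ i) + v = cd b (σ z) (σ w) ∨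
        (jj ≤ cd b (σ z) (σ i) + v ∧ cd b (σ z) (σ i) + v < cd b (σ z) (σ w)) ∨
        (cd b (σ z) (σ w) + jj' ≤ cd b (σ z) (σ i) + v ∧ cd b (σ z) (σ i) + v < b)) →
        ∃ j, u4 k s jj jj' z w j ≠ 0 ∧ ((σ j : ℕ) = σ i + v ∨ (σ j : ℕ) + b = σ i + v) := by
      intro i v hi h1
      rcases h1 with h1 | h1
      · exact ⟨z, by rw [u4_z]; omega, next_z hpk (σ i).2 hz1 hi h1⟩
      · obtain ⟨j, h2, h3, h4⟩ := hsl _ h1
        exact ⟨j, h2, next_lab hpk (σ i).2 (σ j).2 hz1 hi h3 h4⟩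
    intro i hi
    rcases u4_ne s jj jj' z w i hi with h | h | ⟨h1, h2, h3⟩
    · subst h
      refine ⟨hz1, ?_⟩
      rw [u4_z]
      refine hfin i jj hz1 ?_
      rw [cd_self]
      omega
    · subst h
      refine ⟨hw1, ?_⟩
      rw [u4_w _ _ _ _ _ hzw]
      refine hfin i jj' hw1 ?_
      omega
    · obtain ⟨h4, h5, h6⟩ := hpl i h1 h2 h3
      refine ⟨h4, ?_⟩
      rw [u4_pl s jj jj' z w i h1 h2 h3]
      have h7 := cd_lt hpk (σ i).2 hz1 h4
      refine hfin i 1 h4 ?_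
      omega

end circ2

end Pool.Agent.Helper10.CYC
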