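import Pool.Agent.Helper10.CYC.T3

/-!
# Interface for the char 2 part (odd k, and even k with a class of odd size)

`dd f g` is the determinant of the coefficient matrix of `g_1..g_k` modulo `f`.
-/

set_option autoImplicit false

namespace Pool.Agent.Helper10.CYC

open Finset Polynomial

/-- The determinant of a family of `k` polynomials modulo `f` (degree `k`). -/
noncomputable def dd {R : Type*} [CommRing R] {k : ℕ} (f : R[X]) (g : Fin k → R[X]) : R :=
  (Matrix.of fun a j : Fin k => (g j %ₘ f).coeff (a : ℕ)).det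

/-- T1 weight: one on the first `s` slots. -/
def u1 (k s : ℕ) : Fin k → ℕ := fun i => if (i : ℕ) < s then 1 else 0

/-- T3 weight: one on the first `s` slots, `jj` on the slot `z`. -/
def u2 (k s jj : ℕ) (z : Fin k) : Fin k → ℕ :=
  fun i => if (i : ℕ) < s then 1 else if i = z then jj else 0

/-- The T3 relation in the form used in characteristic 2. -/
def Rel {R : Type*} [CommRing R] {k : ℕ} (f : R[X]) (b : ℕ) (u : Fin k → ℕ) : Prop :=
  ∀ g : Fin k → R[X],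
    ∑ σ ∈ univ.filter (fun σ : Equiv.Perm (Fin k) => Good k b u σ),
      dd f (fun j => g j * X ^ ((σ j : Fin k) : ℕ)) = 0

/-- Columns of the T1 determinant. -/
noncomputable def col1 {R : Type*} [CommRing R] (k s : ℕ) (Γ : R[X]) : Fin k → R[X] :=
  fun j => if (j : ℕ) < s then Γ * X ^ (2 * (k - s) + 2 * (j : ℕ))
    else X ^ (2 * (k - s) + 2 * ((j : ℕ) - s))

/-- Columns of the E2 determinant; `k = s + P + 1`. -/
noncomputable def col2 {R : Type*} [CommRing R] (k s P c : ℕ) : Fin k → R[X] :=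
  fun j => if (j : ℕ) < s then X ^ (2 * P + 2 * (j : ℕ))
    else if (j : ℕ) = s then X ^ (2 * P + 2 * c + k)
    else X ^ (2 * P + 2 * c + (2 * ((j : ℕ) - s) - 1))

/-! ## Pieces -/

/-- A1: functoriality. -/
def ST_A1 : Prop := ∀ (R S : Type) [CommRing R] [CommRing S] (φ : R →+* S) (k : ℕ)
  (f : R[X]) (_ : f.Monic) (g : Fin k → R[X]),
    φ (dd f g) = dd (f.map φ) (fun j => (g j).map φ)

/-- A2: evaluation at the roots. -/
def ST_A2 : Prop := ∀ (R : Type) [CommRing R] (k : ℕ) (y : Fin k → R) (g : Fin k → R[X]),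
    (Matrix.of fun i j : Fin k => (g j).eval (y i)).det
      = (Matrix.vandermonde y).det * dd (∏ i, (X - C (y i))) g

/-- A5: linear dependence. -/
def ST_A5 : Prop := ∀ (K : Type) [Field K] (k : ℕ) (f : K[X]) (_ : f.Monic)
  (_ : f.natDegree = k) (g : Fin k → K[X]), dd f g = 0 →
    ∃ v : Fin k → K, v ≠ 0 ∧ f ∣ ∑ j, C (v j) * g j

/-- C: T1 with all first `s` labels. -/
def ST_C : Prop := ∀ (K : Type) [CommRing K] [CharP K 2] (k s : ℕ) (_ : s ≤ k) (f : K[X]),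
  Rel f s (u1 k s) → ∀ Γ : K[X], dd f (col1 k s Γ) = 0

/-- D: E2. -/
def ST_D : Prop := ∀ (K : Type) [CommRing K] [CharP K 2] (k s P jj c : ℕ) (_ : k = s + P + 1)
  (_ : 1 ≤ s) (_ : 2 ≤ jj) (_ : s + jj ≤ k) (_ : P + c ≤ s) (f : K[X]),
  (∀ z : Fin k, s ≤ (z : ℕ) → Rel f (s + jj) (u2 k s jj z)) → dd f (col2 k s P c) = 0

/-- E: polynomial contradiction for T1. -/
def ST_E : Prop := ∀ (K : Type) [Field K] [CharP K 2] [IsAlgClosed K] (D O : K[X])
  (_ : D.Monic) (_ : O.Monic) (_ : D.eval 0 ≠ 0) (_ : O.eval 0 ≠ 0) (_ : Squarefree O)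
  (k m : ℕ) (_ : k = 2 * D.natDegree + O.natDegree) (_ : D.natDegree ≤ m)
  (_ : m ≤ D.natDegree + O.natDegree),
  (∀ Γ : K[X], ∃ v : Fin k → K, v ≠ 0 ∧ D ^ 2 * O ∣ ∑ j, C (v j) * col1 k m Γ j) → False

/-- F: polynomial contradiction for E2. -/
def ST_F : Prop := ∀ (K : Type) [Field K] [CharP K 2] [IsAlgClosed K] (D O : K[X])
  (_ : D.Monic) (_ : O.Monic) (_ : D.eval 0 ≠ 0) (_ : O.eval 0 ≠ 0) (_ : Squarefree O)
  (k s : ℕ) (_ : k = 2 * D.natDegree + O.natDegree) (_ : 1 ≤ O.natDegree)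
  (_ : s + 1 = D.natDegree + O.natDegree),
  (∀ c, D.natDegree + c ≤ s →
    ∃ v : Fin k → K, v ≠ 0 ∧ D ^ 2 * O ∣ ∑ j, C (v j) * col2 k s D.natDegree c j) → False

/-- G: factorization. -/
def ST_G : Prop := ∀ (K : Type) [Field K] [IsAlgClosed K] (k : ℕ) (y : Fin k → K)
  (_ : ∀ i, y i ≠ 0), ∃ D O : K[X], D.Monic ∧ O.Monic ∧ D.eval 0 ≠ 0 ∧ O.eval 0 ≠ 0 ∧
    Squarefree O ∧ ∏ i, (X - C (y i)) = D ^ 2 * O

/-- B: transfer.  `x` algebraic integers, all orderings satisfy `W = 0`. -/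
def ST_B : Prop := ∃ (κ : Type) (_ : Field κ) (_ : CharP κ 2) (_ : IsAlgClosed κ)
  (φ : integralClosure ℤ ℂ →+* κ), ∀ (k b : ℕ) (u : Fin k → ℕ)
  (x : Fin k → integralClosure ℤ ℂ) (_ : Function.Injective x)
  (_ : ∀ σ : Equiv.Perm (Fin k), W b (fun i => ((x (σ i) : integralClosure ℤ ℂ) : ℂ)) u = 0),
    Rel (∏ i, (X - C (φ (x i)))) b u

end Pool.Agent.Helper10.CYC
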