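import Pool.Agent.Helper10.CYC.Blocks

/-!
# Piece C: T1 in characteristic two
-/

set_option autoImplicit false

namespace Pool.Agent.Helper10.CYC

open Finset Polynomial

section

variable {K : Type*} [CommRing K] {k s q : ℕ}

/-- Determinant with the columns given on two blocks. -/
noncomputable def dS (f : K[X]) (e1 : Fin s ⊕ Fin q ≃ Fin k) (cS : Fin s → K[X])
    (cJ : Fin q → K[X]) : K := dd f (fun j => Sum.elim cS cJ (e1.symm j))

lemma dS_permS [CharP K 2] (f : K[X]) (e1 : Fin s ⊕ Fin q ≃ Fin k) (cS : Fin s → K[X])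
    (cJ : Fin q → K[X]) (σ : Equiv.Perm (Fin s)) :
    dS f e1 (fun i => cS (σ i)) cJ = dS f e1 cS cJ := by
  rw [dS, dS, ← dd_perm2 f (fun j => Sum.elim cS cJ (e1.symm j))
    (e1.symm.trans ((Equiv.Perm.sumCongr σ 1).trans e1))]
  congr 1
  ext1 j
  simp only [Equiv.trans_apply, Equiv.symm_apply_apply]
  rcases e1.symm j with i | l <;> simp

lemma dS_permJ [CharP K 2] (f : K[X]) (e1 : Fin s ⊕ Fin q ≃ Fin k) (cS : Fin s → K[X])
    (cJ : Fin q → K[X]) (σ : Equiv.Perm (Fin q)) :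
    dS f e1 cS (fun i => cJ (σ i)) = dS f e1 cS cJ := by
  rw [dS, dS, ← dd_perm2 f (fun j => Sum.elim cS cJ (e1.symm j))
    (e1.symm.trans ((Equiv.Perm.sumCongr 1 σ).trans e1))]
  congr 1
  ext1 j
  simp only [Equiv.trans_apply, Equiv.symm_apply_apply]
  rcases e1.symm j with i | l <;> simp

lemma dS_rep (f : K[X]) (e1 : Fin s ⊕ Fin q ≃ Fin k) (cS : Fin s → K[X])
    (cJ : Fin q → K[X]) (a b : Fin s ⊕ Fin q) (hab : a ≠ b)
    (h : Sum.elim cS cJ a = Sum.elim cS cJ b) : dS f e1 cS cJ = 0 := by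
  refine dd_rep f _ (e1 a) (e1 b) (fun hh => hab (e1.injective hh)) ?_
  simp only [Equiv.symm_apply_apply]
  exact h

end

theorem st_c : ST_C := by
  intro K _ _ k s hs f hrel Γ
  obtain ⟨q, rfl⟩ := Nat.exists_eq_add_of_le hs
  set e1 : Fin s ⊕ Fin q ≃ Fin (s + q) := finSumFinEquiv with he1
  set e2 : Fin s ⊕ Fin q ≃ Fin (s + q) :=
    (Equiv.sumComm _ _).trans (finSumFinEquiv.trans (finCongr (Nat.add_comm q s))) with he2
  have e1l : ∀ i : Fin s, ((e1 (Sum.inl i) : Fin (s + q)) : ℕ) = i := by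
    intro i; simp [he1]
  have e1r : ∀ i : Fin q, ((e1 (Sum.inr i) : Fin (s + q)) : ℕ) = s + i := by
    intro i; simp [he1]
  have e2l : ∀ i : Fin s, ((e2 (Sum.inl i) : Fin (s + q)) : ℕ) = q + i := by
    intro i; simp [he2]; omega
  have e2r : ∀ i : Fin q, ((e2 (Sum.inr i) : Fin (s + q)) : ℕ) = i := by
    intro i; simp [he2]
  have hp : ∀ σ : Equiv.Perm (Fin (s + q)), Good (s + q) s (u1 (s + q) s) σ ↔
      ∀ i : Fin s, ∃ t : Fin s, σ (e1 (Sum.inl i)) = e2 (Sum.inl t) := by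
    intro σ
    constructor
    · intro hg i
      have h1 : u1 (s + q) s (e1 (Sum.inl i)) ≠ 0 := by
        simp only [u1, e1l, if_pos i.2]; exact one_ne_zero
      have h2 := (hg _ h1).1
      have h3 := (σ (e1 (Sum.inl i))).2
      refine ⟨⟨(σ (e1 (Sum.inl i)) : ℕ) - q, by omega⟩, Fin.ext ?_⟩
      rw [e2l]; simp only; omega
    · intro h
      choose T hT using h
      have hTinj : Function.Injective T := by
        intro a b hab
        have h1 := hT a
        rw [hab, ← hT b] at h1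
        exact Sum.inl_injective (e1.injective (σ.injective h1))
      have hTs := Finite.surjective_of_injective hTinj
      intro i hi
      have his : (i : ℕ) < s := by
        by_contra hcon
        exact hi (by simp only [u1, if_neg hcon])
      have hi' : i = e1 (Sum.inl ⟨i, his⟩) := Fin.ext (by rw [e1l])
      have hl : (σ i : ℕ) = q + T ⟨i, his⟩ := by
        have h5 := hT ⟨i, his⟩
        rw [← hi'] at h5
        rw [h5, e2l]
      have hu : u1 (s + q) s i = 1 := by simp only [u1, if_pos his]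
      refine ⟨by omega, ?_⟩
      by_cases ht : (T ⟨i, his⟩ : ℕ) + 1 < s
      · obtain ⟨j, hj⟩ := hTs ⟨(T ⟨i, his⟩ : ℕ) + 1, ht⟩
        refine ⟨e1 (Sum.inl j), ?_, Or.inl ?_⟩
        · simp only [u1, e1l, if_pos j.2]; exact one_ne_zero
        · rw [hT, e2l, hj, hu, hl]; simp only; omega
      · obtain ⟨j, hj⟩ := hTs ⟨0, by omega⟩
        have h4 := (T ⟨i, his⟩).2
        refine ⟨e1 (Sum.inl j), ?_, Or.inr ?_⟩
        · simp only [u1, e1l, if_pos j.2]; exact one_ne_zero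
        · rw [hT, e2l, hj, hu, hl]; simp only; omega
  have h := hrel (fun j => if (j : ℕ) < s then Γ * X ^ (q + (j : ℕ))
    else X ^ (2 * q + ((j : ℕ) - s)))
  rw [sum_two_block e1 e2 _ hp] at h
  set H : (Fin s → ℕ) → (Fin q → ℕ) → K := fun ES EJ =>
    dS f e1 (fun i => Γ * X ^ (2 * q + ES i)) (fun l => X ^ (2 * q + EJ l)) with hH
  have h1 : ∀ (τ : Equiv.Perm (Fin s)) (lam : Equiv.Perm (Fin q)),
      dd f (fun j => (if (j : ℕ) < s then Γ * X ^ (q + (j : ℕ))
        else X ^ (2 * q + ((j : ℕ) - s))) * X ^ ((bp e1 e2 τ lam j : Fin (s + q)) : ℕ))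
      = H (fun i => (i : ℕ) + (τ i : ℕ)) (fun i => (i : ℕ) + (lam i : ℕ)) := by
    intro τ lam
    rw [hH]
    simp only [dS]
    congr 1
    ext1 j
    obtain ⟨x, rfl⟩ := e1.surjective j
    rw [Equiv.symm_apply_apply]
    rcases x with i | l
    · rw [bp_inl, e1l, e2l, if_pos i.2, Sum.elim_inl, mul_assoc, ← pow_add]
      congr 2
      ring
    · rw [bp_inr, e1r, e2r, if_neg (by omega), Sum.elim_inr, ← pow_add]
      congr 1
      omega
  have h2 : ∑ τ : Equiv.Perm (Fin s), ∑ lam : Equiv.Perm (Fin q),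
      H (fun i => (i : ℕ) + (τ i : ℕ)) (fun i => (i : ℕ) + (lam i : ℕ)) = 0 := by
    rw [← h]
    exact sum_congr rfl (fun τ _ => sum_congr rfl (fun lam _ => (h1 τ lam).symm))
  have h3 : ∀ τ : Equiv.Perm (Fin s), ∑ lam : Equiv.Perm (Fin q),
      H (fun i => (i : ℕ) + (τ i : ℕ)) (fun i => (i : ℕ) + (lam i : ℕ))
      = H (fun i => (i : ℕ) + (τ i : ℕ)) (fun i => 2 * (i : ℕ)) := by
    intro τ
    refine sq_lemma q (fun EJ => H (fun i => (i : ℕ) + (τ i : ℕ)) EJ) ?_ ?_
    · intro E σ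
      exact dS_permJ f e1 _ (fun l => X ^ (2 * q + E l)) σ
    · intro E i j hij hE
      refine dS_rep f e1 _ _ (Sum.inr i) (Sum.inr j) (fun hh => hij (Sum.inr_injective hh)) ?_
      simp only [Sum.elim_inr, hE]
  rw [sum_congr rfl (fun τ _ => h3 τ)] at h2
  have h4 : ∑ τ : Equiv.Perm (Fin s),
      H (fun i => (i : ℕ) + (τ i : ℕ)) (fun i => 2 * (i : ℕ))
      = H (fun i => 2 * (i : ℕ)) (fun i => 2 * (i : ℕ)) := by
    refine sq_lemma s (fun ES => H ES (fun i => 2 * (i : ℕ))) ?_ ?_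
    · intro E σ
      exact dS_permS f e1 (fun i => Γ * X ^ (2 * q + E i)) _ σ
    · intro E i j hij hE
      refine dS_rep f e1 _ _ (Sum.inl i) (Sum.inl j) (fun hh => hij (Sum.inl_injective hh)) ?_
      simp only [Sum.elim_inl, hE]
  rw [h4] at h2
  rw [← h2, hH]
  simp only [dS]
  congr 1
  ext1 j
  obtain ⟨x, rfl⟩ := e1.surjective j
  rw [Equiv.symm_apply_apply]
  have hq : s + q - s = q := by omega
  rcases x with i | l
  · rw [col1, e1l, if_pos i.2, Sum.elim_inl, hq]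
  · rw [col1, e1r, if_neg (by omega), Sum.elim_inr, hq]
    congr 1
    omega

end Pool.Agent.Helper10.CYC
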