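import Pool.Agent.Helper10.CYC.PieceC

/-!
# Piece D: the merged relation E2 in characteristic two
-/

set_option autoImplicit false

namespace Pool.Agent.Helper10.CYC

open Finset Polynomial

section comb

variable {k : ℕ}

lemma good_up {b : ℕ} {u : Fin k → ℕ} {σ : Equiv.Perm (Fin k)} (hg : Good k b u σ) (i : Fin k)
    (hi : u i = 1) (h : (σ i : ℕ) + 1 < k) : ∃ j, u j ≠ 0 ∧ (σ j : ℕ) = σ i + 1 := by
  obtain ⟨h1, j, hj, h2⟩ := hg i (by rw [hi]; exact one_ne_zero)
  rcases h2 with h2 | h2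
  · exact ⟨j, hj, by rw [h2, hi]⟩
  · have := (hg j hj).1
    rw [hi] at h2
    omega

lemma u2_lt (s jj : ℕ) (z i : Fin k) (h : (i : ℕ) < s) : u2 k s jj z i = 1 := by
  simp only [u2, if_pos h]

lemma u2_z (s jj : ℕ) (z : Fin k) (h : s ≤ (z : ℕ)) : u2 k s jj z z = jj := by
  simp only [u2, if_neg (not_lt.2 h), if_true]

lemma u2_ne (s jj : ℕ) (z i : Fin k) (h : u2 k s jj z i ≠ 0) : (i : ℕ) < s ∨ i = z := by
  by_contra hcon
  push Not at hcon
  exact h (by simp only [u2, if_neg (not_lt.2 hcon.1), if_neg hcon.2])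

lemma card_lt_le (s : ℕ) : (univ.filter (fun i : Fin k => (i : ℕ) < s)).card ≤ s := by
  have h := Finset.card_le_card_of_injOn (s := univ.filter (fun i : Fin k => (i : ℕ) < s))
    (t := range s) (fun i => (i : ℕ)) (by
      intro i hi
      have := (mem_filter.1 (mem_coe.1 hi)).2
      exact mem_coe.2 (mem_range.2 this)) (fun a _ c _ h => Fin.ext h)
  rwa [card_range] at h

lemma gap_next (s jj : ℕ) (hjj : 2 ≤ jj) (hb : s + jj ≤ k) (z : Fin k) (hz : s ≤ (z : ℕ))
    (σ : Equiv.Perm (Fin k)) (hg : Good k (s + jj) (u2 k s jj z) σ) (i : Fin k)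
    (hi : (i : ℕ) < s) (hσ : (σ i : ℕ) = σ z + 1) : False := by
  have hzk := (σ z).2
  have hik := (σ i).2
  have claim1 : ∀ n : ℕ, (σ z : ℕ) + 1 + n < k →
      ∃ i : Fin k, (i : ℕ) < s ∧ (σ i : ℕ) = σ z + 1 + n := by
    intro n
    induction n with
    | zero => intro _; exact ⟨i, hi, hσ⟩
    | succ n ih =>
      intro h
      obtain ⟨i', hi', h1⟩ := ih (by omega)
      obtain ⟨j, hj, h2⟩ := good_up hg i' (u2_lt s jj z i' hi') (by omega)
      rcases u2_ne s jj z j hj with h3 | h3
      · exact ⟨j, h3, by omega⟩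
      · rw [h3] at h2; omega
  obtain ⟨i1, hi1, h1⟩ := claim1 (k - 1 - ((σ z : ℕ) + 1)) (by omega)
  have claim2 : ∃ j, u2 k s jj z j ≠ 0 ∧ (σ j : ℕ) = k - (s + jj) := by
    obtain ⟨-, j, hj, h2⟩ := hg i1 (by rw [u2_lt s jj z i1 hi1]; exact one_ne_zero)
    rw [u2_lt s jj z i1 hi1] at h2
    refine ⟨j, hj, ?_⟩
    have := (σ j).2
    omega
  have claim3 : ∀ n : ℕ, k - (s + jj) + n ≤ (σ z : ℕ) →
      ∃ j, u2 k s jj z j ≠ 0 ∧ (σ j : ℕ) = k - (s + jj) + n := by
    intro n
    induction n with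
    | zero => intro _; exact claim2
    | succ n ih =>
      intro h
      obtain ⟨j, hj, h3⟩ := ih (by omega)
      rcases u2_ne s jj z j hj with h4 | h4
      · obtain ⟨j', hj', h5⟩ := good_up hg j (u2_lt s jj z j h4) (by omega)
        exact ⟨j', hj', by omega⟩
      · rw [h4] at h3; omega
  have hsub : Finset.Ico (k - (s + jj)) k ⊆
      ((univ.filter (fun i : Fin k => (i : ℕ) < s)) ∪ {z}).image (fun i => (σ i : ℕ)) := by
    intro t ht
    rw [mem_Ico] at ht
    rw [mem_image]
    by_cases hle : t ≤ (σ z : ℕ)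
    · obtain ⟨j, hj, h3⟩ := claim3 (t - (k - (s + jj))) (by omega)
      refine ⟨j, ?_, by omega⟩
      rcases u2_ne s jj z j hj with h4 | h4
      · exact mem_union_left _ (mem_filter.2 ⟨mem_univ _, h4⟩)
      · exact mem_union_right _ (mem_singleton.2 h4)
    · obtain ⟨j, hj, h3⟩ := claim1 (t - ((σ z : ℕ) + 1)) (by omega)
      exact ⟨j, mem_union_left _ (mem_filter.2 ⟨mem_univ _, hj⟩), by omega⟩
  have hcard := card_le_card hsub
  rw [Nat.card_Ico] at hcard
  have h5 := hcard.trans (card_image_le.trans ((card_union_le _ _).trans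
    (Nat.add_le_add_right (card_lt_le s) _)))
  rw [card_singleton] at h5
  omega

lemma good_comp {b : ℕ} {u : Fin k → ℕ} {σ : Equiv.Perm (Fin k)} (hg : Good k b u σ)
    (w : Equiv.Perm (Fin k)) : Good k b (fun i => u (w i)) (w.trans σ) := by
  intro i hi
  obtain ⟨h1, j, hj, h2⟩ := hg (w i) hi
  refine ⟨h1, w.symm j, ?_, ?_⟩
  · simpa using hj
  · simpa using h2

lemma u2_swap (s jj : ℕ) (z z' : Fin k) (hz : s ≤ (z : ℕ)) (hz' : s ≤ (z' : ℕ)) :
    (fun i => u2 k s jj z (Equiv.swap z z' i)) = u2 k s jj z' := by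
  ext i
  by_cases h1 : i = z
  · rw [h1, Equiv.swap_apply_left]
    by_cases h2 : z' = z
    · rw [h2]
    · simp only [u2, if_neg (not_lt.2 hz), if_neg (not_lt.2 hz'), if_neg h2,
        if_neg (fun h => h2 (Eq.symm h))]
  · by_cases h2 : i = z'
    · rw [h2, Equiv.swap_apply_right, u2_z _ _ _ hz, u2_z _ _ _ hz']
    · rw [Equiv.swap_apply_of_ne_of_ne h1 h2]
      simp only [u2, if_neg h1, if_neg h2]

end comb

section top

variable {s P jj : ℕ}

/-- slots -/
def eS (s P : ℕ) : Fin s ⊕ Fin (P + 1) ≃ Fin (s + P + 1) := finSumFinEquiv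

lemma eS_inl (i : Fin s) : ((eS s P (Sum.inl i) : Fin (s + P + 1)) : ℕ) = i := by
  simp [eS]

lemma eS_inr (i : Fin (P + 1)) : ((eS s P (Sum.inr i) : Fin (s + P + 1)) : ℕ) = s + i := by
  simp [eS]

/-- label function -/
def fL (s P : ℕ) : Fin s ⊕ Fin (P + 1) → Fin (s + P + 1) :=
  Sum.elim (fun t => ⟨P + (t : ℕ), by have := t.2; omega⟩)
    (fun l => if h : (l : ℕ) < P then ⟨(l : ℕ), by omega⟩ else ⟨P + s, by omega⟩)

lemma fL_inl (t : Fin s) : ((fL s P (Sum.inl t) : Fin (s + P + 1)) : ℕ) = P + t := rfl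

lemma fL_inr (l : Fin (P + 1)) : ((fL s P (Sum.inr l) : Fin (s + P + 1)) : ℕ)
    = if (l : ℕ) < P then (l : ℕ) else P + s := by
  simp only [fL, Sum.elim_inr]
  by_cases h : (l : ℕ) < P
  · rw [dif_pos h, if_pos h]
  · rw [dif_neg h, if_neg h]

lemma fL_bij : Function.Bijective (fL s P) := by
  rw [Fintype.bijective_iff_injective_and_card]
  refine ⟨?_, by simp; omega⟩
  rintro (a | a) (c | c) h
  · have := congrArg (fun t : Fin (s + P + 1) => (t : ℕ)) h
    simp only [fL_inl] at this
    congr 1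
    exact Fin.ext (by omega)
  · have := congrArg (fun t : Fin (s + P + 1) => (t : ℕ)) h
    simp only [fL_inl, fL_inr] at this
    have ha := a.2
    split_ifs at this <;> omega
  · have := congrArg (fun t : Fin (s + P + 1) => (t : ℕ)) h
    simp only [fL_inl, fL_inr] at this
    have hc := c.2
    split_ifs at this <;> omega
  · have := congrArg (fun t : Fin (s + P + 1) => (t : ℕ)) h
    simp only [fL_inr] at this
    have ha := a.2
    have hc := c.2
    congr 1
    apply Fin.ext
    split_ifs at this <;> omega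

/-- labels -/
noncomputable def eL (s P : ℕ) : Fin s ⊕ Fin (P + 1) ≃ Fin (s + P + 1) :=
  Equiv.ofBijective (fL s P) fL_bij

lemma eL_inl (t : Fin s) : ((eL s P (Sum.inl t) : Fin (s + P + 1)) : ℕ) = P + t := rfl

lemma eL_inr (l : Fin (P + 1)) : ((eL s P (Sum.inr l) : Fin (s + P + 1)) : ℕ)
    = if (l : ℕ) < P then (l : ℕ) else P + s := fL_inr l

lemma top_block (σ : Equiv.Perm (Fin (s + P + 1))) :
    (∀ i : Fin (s + P + 1), (i : ℕ) < s → P ≤ (σ i : ℕ) ∧ (σ i : ℕ) + 1 < s + P + 1) ↔
      ∀ i : Fin s, ∃ t : Fin s, σ (eS s P (Sum.inl i)) = eL s P (Sum.inl t) := by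
  constructor
  · intro h i
    obtain ⟨h1, h2⟩ := h (eS s P (Sum.inl i)) (by rw [eS_inl]; exact i.2)
    refine ⟨⟨(σ (eS s P (Sum.inl i)) : ℕ) - P, by omega⟩, Fin.ext ?_⟩
    rw [eL_inl]; simp only; omega
  · intro h i hi
    obtain ⟨t, ht⟩ := h ⟨i, hi⟩
    have hi' : i = eS s P (Sum.inl ⟨i, hi⟩) := Fin.ext (by rw [eS_inl])
    rw [← hi'] at ht
    have h2 := t.2
    have h3 : (σ i : ℕ) = P + t := by rw [ht, eL_inl]
    omega

lemma top_iff (hs : 1 ≤ s) (hjj : 2 ≤ jj) (hb : s + jj ≤ s + P + 1) (z : Fin (s + P + 1))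
    (hz : s ≤ (z : ℕ)) (σ : Equiv.Perm (Fin (s + P + 1))) (hσz : (σ z : ℕ) + 1 = s + P + 1) :
    Good (s + P + 1) (s + jj) (u2 (s + P + 1) s jj z) σ ↔
      ∀ i : Fin (s + P + 1), (i : ℕ) < s → P ≤ (σ i : ℕ) ∧ (σ i : ℕ) + 1 < s + P + 1 := by
  constructor
  · intro hg i hi
    have hne : (σ i : ℕ) ≠ σ z := by
      intro h
      have := σ.injective (Fin.ext h)
      rw [this] at hi
      omega
    have h1 : (σ i : ℕ) + 1 < s + P + 1 := by
      have := (σ i).2
      omega
    refine ⟨?_, h1⟩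
    by_contra hcon
    push Not at hcon
    have claim : ∀ n : ℕ, (σ i : ℕ) + n + 1 < s + P + 1 →
        ∃ j : Fin (s + P + 1), (j : ℕ) < s ∧ (σ j : ℕ) = σ i + n := by
      intro n
      induction n with
      | zero => intro _; exact ⟨i, hi, rfl⟩
      | succ n ih =>
        intro h
        obtain ⟨j, hj, h2⟩ := ih (by omega)
        obtain ⟨j', hj', h3⟩ := good_up hg j (u2_lt s jj z j hj) (by omega)
        rcases u2_ne s jj z j' hj' with h4 | h4
        · exact ⟨j', h4, by omega⟩
        · rw [h4] at h3; omega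
    have hsub : Finset.Ico (σ i : ℕ) (s + P) ⊆
        (univ.filter (fun i : Fin (s + P + 1) => (i : ℕ) < s)).image (fun i => (σ i : ℕ)) := by
      intro t ht
      rw [mem_Ico] at ht
      rw [mem_image]
      obtain ⟨j, hj, h3⟩ := claim (t - (σ i : ℕ)) (by omega)
      exact ⟨j, mem_filter.2 ⟨mem_univ _, hj⟩, by omega⟩
    have hcard := (card_le_card hsub).trans (card_image_le.trans (card_lt_le s))
    rw [Nat.card_Ico] at hcard
    omega
  · intro h
    have h' := (top_block σ).1 h
    choose T hT using h'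
    have hTinj : Function.Injective T := by
      intro a b hab
      have h1 := hT a
      rw [hab, ← hT b] at h1
      exact Sum.inl_injective ((eS s P).injective (σ.injective h1))
    have hTs := Finite.surjective_of_injective hTinj
    have hlab : ∀ t : ℕ, P ≤ t → t < P + s →
        ∃ j : Fin (s + P + 1), (j : ℕ) < s ∧ (σ j : ℕ) = t := by
      intro t ht1 ht2
      obtain ⟨j, hj⟩ := hTs ⟨t - P, by omega⟩
      refine ⟨eS s P (Sum.inl j), by rw [eS_inl]; exact j.2, ?_⟩
      rw [hT, eL_inl, hj]; simp only; omega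
    intro i hi
    rcases u2_ne s jj z i hi with h1 | h1
    · obtain ⟨h2, h3⟩ := h i h1
      refine ⟨by omega, ?_⟩
      rw [u2_lt s jj z i h1]
      by_cases h4 : (σ i : ℕ) + 1 < P + s
      · obtain ⟨j, hj, h5⟩ := hlab ((σ i : ℕ) + 1) (by omega) h4
        exact ⟨j, by rw [u2_lt s jj z j hj]; exact one_ne_zero, Or.inl h5⟩
      · refine ⟨z, by rw [u2_z s jj z hz]; omega, Or.inl (by omega)⟩
    · rw [h1, u2_z s jj z hz]
      refine ⟨by omega, ?_⟩
      obtain ⟨j, hj, h5⟩ := hlab P le_rfl (by omega)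
      exact ⟨j, by rw [u2_lt s jj z j hj]; exact one_ne_zero, Or.inr (by omega)⟩

end top

section surv

variable {s P c : ℕ}

lemma survivor (lam : Equiv.Perm (Fin (P + 1)))
    (hodd : ∀ l : Fin (P + 1), (lam l : ℕ) < P → ((l : ℕ) + (lam l : ℕ)) % 2 = 1)
    (hinj : ∀ l l' : Fin (P + 1), (lam l : ℕ) < P → (lam l' : ℕ) < P →
      (l : ℕ) + (lam l : ℕ) = (l' : ℕ) + (lam l' : ℕ) → l = l') :
    ∀ l : Fin (P + 1), 0 < (l : ℕ) → (lam l : ℕ) = (l : ℕ) - 1 := by
  classical
  set N : Finset (Fin (P + 1)) := univ.filter (fun l => (lam l : ℕ) < P) with hN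
  have hNcard : N.card = P := by
    have h1 : N = univ.erase (lam.symm (Fin.last P)) := by
      ext l
      rw [hN, mem_filter, mem_erase]
      constructor
      · rintro ⟨-, h⟩
        refine ⟨?_, mem_univ _⟩
        rintro rfl
        rw [Equiv.apply_symm_apply, Fin.val_last] at h
        omega
      · rintro ⟨h, -⟩
        refine ⟨mem_univ _, ?_⟩
        by_contra hcon
        apply h
        rw [Equiv.eq_symm_apply]
        apply Fin.ext
        rw [Fin.val_last]
        have := (lam l).2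
        omega
    rw [h1, card_erase_of_mem (mem_univ _), card_univ, Fintype.card_fin]
    omega
  have himg : N.image (fun l : Fin (P + 1) => ((l : ℕ) + (lam l : ℕ)) / 2) = range P := by
    apply eq_of_subset_of_card_le
    · intro t ht
      rw [mem_image] at ht
      obtain ⟨l, hl, rfl⟩ := ht
      rw [hN, mem_filter] at hl
      rw [mem_range]
      have h1 := l.2
      omega
    · rw [card_range, card_image_of_injOn, hNcard]
      intro a ha b hb hab
      rw [mem_coe, hN, mem_filter] at ha hb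
      have h1 := hodd a ha.2
      have h2 := hodd b hb.2
      simp only at hab
      exact hinj a b ha.2 hb.2 (by omega)
  have hsurj : ∀ t, t < P → ∃ l : Fin (P + 1), (lam l : ℕ) < P ∧
      (l : ℕ) + (lam l : ℕ) = 2 * t + 1 := by
    intro t ht
    have h1 : t ∈ N.image (fun l : Fin (P + 1) => ((l : ℕ) + (lam l : ℕ)) / 2) := by
      rw [himg]; exact mem_range.2 ht
    rw [mem_image] at h1
    obtain ⟨l, hl, h2⟩ := h1
    rw [hN, mem_filter] at hl
    have h3 := hodd l hl.2
    exact ⟨l, hl.2, by omega⟩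
  have key : ∀ d : ℕ, ∀ l : Fin (P + 1), (l : ℕ) + d = P → 0 < (l : ℕ) →
      (lam l : ℕ) = (l : ℕ) - 1 := by
    intro d
    induction d using Nat.strong_induction_on with
    | _ d ih =>
      intro t htd ht0
      obtain ⟨l, hl1, hl2⟩ := hsurj ((t : ℕ) - 1) (by omega)
      have hlP := l.2
      have h1 : (l : ℕ) ≤ t := by
        by_contra hcon
        push Not at hcon
        have := ih (P - (l : ℕ)) (by omega) l (by omega) (by omega)
        omega
      have h2 : (lam l : ℕ) ≤ (t : ℕ) - 1 := by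
        by_contra hcon
        push Not at hcon
        have h3 := ih (P - ((lam l : ℕ) + 1)) (by omega) ⟨(lam l : ℕ) + 1, by omega⟩
          (by simp only; omega) (by simp only; omega)
        simp only at h3
        have h4 : lam ⟨(lam l : ℕ) + 1, by omega⟩ = lam l := Fin.ext (by omega)
        have h5 := lam.injective h4
        have h6 := congrArg (fun t : Fin (P + 1) => (t : ℕ)) h5
        simp only at h6
        omega
      have h3 : l = t := Fin.ext (by omega)
      rw [h3] at hl2 h2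
      omega
  intro l hl
  have := l.2
  exact key (P - (l : ℕ)) l (by omega) hl

/-- The surviving permutation. -/
def lstar (P : ℕ) : Equiv.Perm (Fin (P + 1)) := (finRotate (P + 1)).symm

lemma lstar_pos (l : Fin (P + 1)) (h : 0 < (l : ℕ)) : (lstar P l : ℕ) = (l : ℕ) - 1 := by
  have h1 : lstar P l = ⟨(l : ℕ) - 1, by have := l.2; omega⟩ := by
    rw [lstar, Equiv.symm_apply_eq]
    rw [finRotate_apply]
    apply Fin.ext
    have h2 := l.2
    rw [Fin.val_add_one_of_lt]
    · simp only; omega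
    · rw [Fin.lt_def, Fin.val_last]; simp only; omega
  rw [h1]

lemma perm_eq_of_pos (lam mu : Equiv.Perm (Fin (P + 1)))
    (h1 : ∀ l : Fin (P + 1), 0 < (l : ℕ) → (lam l : ℕ) = (l : ℕ) - 1)
    (h2 : ∀ l : Fin (P + 1), 0 < (l : ℕ) → (mu l : ℕ) = (l : ℕ) - 1) : lam = mu := by
  have hlast : ∀ nu : Equiv.Perm (Fin (P + 1)),
      (∀ l : Fin (P + 1), 0 < (l : ℕ) → (nu l : ℕ) = (l : ℕ) - 1) → (nu 0 : ℕ) = P := by
    intro nu hnu
    by_contra hcon
    have h3 := (nu 0).2
    have h4 : nu ⟨(nu 0 : ℕ) + 1, by omega⟩ = nu 0 := by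
      apply Fin.ext
      rw [hnu _ (by simp only; omega)]
      simp only; omega
    have h5 := congrArg (fun t : Fin (P + 1) => (t : ℕ)) (nu.injective h4)
    simp only [Fin.val_zero] at h5
    omega
  ext l
  by_cases h : (l : ℕ) = 0
  · have : l = 0 := Fin.ext h
    rw [this, hlast lam h1, hlast mu h2]
  · rw [h1 l (by omega), h2 l (by omega)]

end surv

theorem st_d : ST_D := by
  intro K _ _ k s P jj c hk hs hjj hb hPc f hrel
  subst hk
  classical
  set ψ : Fin (s + P + 1) → ℕ := fun j => if (j : ℕ) < s then P + (j : ℕ)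
    else 2 * P + 2 * c + ((j : ℕ) - s) with hψ
  set G : Fin (s + P + 1) × Equiv.Perm (Fin (s + P + 1)) → K := fun p =>
    dd f (fun j => X ^ (ψ j + (if j = p.1 then 1 else 0) + (p.2 j : ℕ))) with hG
  set T : Finset (Fin (s + P + 1) × Equiv.Perm (Fin (s + P + 1))) := univ.filter (fun p =>
    s ≤ (p.1 : ℕ) ∧ Good (s + P + 1) (s + jj) (u2 (s + P + 1) s jj p.1) p.2) with hT
  have htot : ∑ p ∈ T, G p = 0 := by
    rw [hT, sum_filter, Fintype.sum_prod_type]
    refine sum_eq_zero (fun z _ => ?_)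
    by_cases hz : s ≤ (z : ℕ)
    · have h1 := hrel z hz (fun j => X ^ (ψ j + (if j = z then 1 else 0)))
      rw [sum_filter] at h1
      refine Eq.trans (sum_congr rfl (fun σ _ => ?_)) h1
      by_cases hg : Good (s + P + 1) (s + jj) (u2 (s + P + 1) s jj z) σ
      · rw [if_pos ⟨hz, hg⟩, if_pos hg, hG]
        simp only
        congr 1
        ext1 j
        rw [← pow_add]
      · rw [if_neg (fun h => hg h.2), if_neg hg]
    · exact sum_eq_zero (fun σ _ => by rw [if_neg (fun h => hz h.1)])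
  rw [← sum_filter_add_sum_filter_not T
    (fun p : Fin (s + P + 1) × Equiv.Perm (Fin (s + P + 1)) => ((p.2 p.1 : Fin (s + P + 1)) : ℕ) + 1 < s + P + 1)] at htot
  -- cancellation
  have hcanc : ∑ p ∈ T.filter (fun p : Fin (s + P + 1) × Equiv.Perm (Fin (s + P + 1)) => ((p.2 p.1 : Fin (s + P + 1)) : ℕ) + 1 < s + P + 1),
      G p = 0 := by
    have hmem : ∀ p : Fin (s + P + 1) × Equiv.Perm (Fin (s + P + 1)), p ∈ T.filter (fun p : Fin (s + P + 1) × Equiv.Perm (Fin (s + P + 1)) => ((p.2 p.1 : Fin (s + P + 1)) : ℕ) + 1 < s + P + 1) ↔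
        (s ≤ (p.1 : ℕ) ∧ Good (s + P + 1) (s + jj) (u2 (s + P + 1) s jj p.1) p.2) ∧
          ((p.2 p.1 : Fin (s + P + 1)) : ℕ) + 1 < s + P + 1 := by
      intro p
      rw [mem_filter, hT, mem_filter]
      simp
    let nx : Fin (s + P + 1) × Equiv.Perm (Fin (s + P + 1)) → Fin (s + P + 1) := fun p =>
      if h : ((p.2 p.1 : Fin (s + P + 1)) : ℕ) + 1 < s + P + 1 then
        p.2.symm ⟨((p.2 p.1 : Fin (s + P + 1)) : ℕ) + 1, h⟩ else p.1
    have hnx : ∀ p : Fin (s + P + 1) × Equiv.Perm (Fin (s + P + 1)), ((p.2 p.1 : Fin (s + P + 1)) : ℕ) + 1 < s + P + 1 →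
        ((p.2 (nx p) : Fin (s + P + 1)) : ℕ) = (p.2 p.1 : ℕ) + 1 := by
      intro p h
      simp only [nx, dif_pos h, Equiv.apply_symm_apply]
    have hnxne : ∀ p : Fin (s + P + 1) × Equiv.Perm (Fin (s + P + 1)), ((p.2 p.1 : Fin (s + P + 1)) : ℕ) + 1 < s + P + 1 → nx p ≠ p.1 := by
      intro p h heq
      have := hnx p h
      rw [heq] at this
      omega
    have hnxs : ∀ p : Fin (s + P + 1) × Equiv.Perm (Fin (s + P + 1)), p ∈ T.filter (fun p : Fin (s + P + 1) × Equiv.Perm (Fin (s + P + 1)) =>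
        ((p.2 p.1 : Fin (s + P + 1)) : ℕ) + 1 < s + P + 1) → s ≤ (nx p : ℕ) := by
      intro p hp
      obtain ⟨⟨hz, hg⟩, hlt⟩ := (hmem p).1 hp
      by_contra hcon
      push Not at hcon
      exact gap_next s jj hjj hb p.1 hz p.2 hg (nx p) hcon (hnx p hlt)
    let inv : Fin (s + P + 1) × Equiv.Perm (Fin (s + P + 1)) →
        Fin (s + P + 1) × Equiv.Perm (Fin (s + P + 1)) := fun p =>
      (nx p, (Equiv.swap p.1 (nx p)).trans p.2)
    have hinv1 : ∀ p : Fin (s + P + 1) × Equiv.Perm (Fin (s + P + 1)), (((inv p).2 (inv p).1 : Fin (s + P + 1)) : ℕ) = (p.2 p.1 : ℕ) := by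
      intro p
      simp only [inv, Equiv.trans_apply, Equiv.swap_apply_right]
    have hinvmem : ∀ p : Fin (s + P + 1) × Equiv.Perm (Fin (s + P + 1)), p ∈ T.filter (fun p : Fin (s + P + 1) × Equiv.Perm (Fin (s + P + 1)) =>
        ((p.2 p.1 : Fin (s + P + 1)) : ℕ) + 1 < s + P + 1) → inv p ∈ T.filter (fun p : Fin (s + P + 1) × Equiv.Perm (Fin (s + P + 1)) =>
        ((p.2 p.1 : Fin (s + P + 1)) : ℕ) + 1 < s + P + 1) := by
      intro p hp
      obtain ⟨⟨hz, hg⟩, hlt⟩ := (hmem p).1 hp
      rw [hmem]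
      refine ⟨⟨hnxs p hp, ?_⟩, ?_⟩
      · have h1 := good_comp hg (Equiv.swap p.1 (nx p))
        rw [u2_swap s jj p.1 (nx p) hz (hnxs p hp)] at h1
        exact h1
      · rw [hinv1]; exact hlt
    refine Finset.sum_involution (fun p _ => inv p) ?_ ?_ ?_ ?_
    · intro p hp
      obtain ⟨⟨hz, hg⟩, hlt⟩ := (hmem p).1 hp
      have h1 : G (inv p) = G p := by
        rw [hG]
        simp only
        congr 1
        ext1 j
        congr 1
        simp only [inv, Equiv.trans_apply]
        have hne := hnxne p hlt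
        have hn := hnx p hlt
        by_cases hj1 : j = p.1
        · subst hj1
          rw [Equiv.swap_apply_left, if_neg hne.symm, if_pos rfl, hn]
          omega
        · by_cases hj2 : j = nx p
          · subst hj2
            rw [Equiv.swap_apply_right, if_pos rfl, if_neg hne, hn]
            omega
          · rw [Equiv.swap_apply_of_ne_of_ne hj1 hj2, if_neg hj1, if_neg hj2]
      rw [h1]
      exact CharTwo.add_self_eq_zero _
    · intro p hp _ heq
      obtain ⟨⟨hz, hg⟩, hlt⟩ := (hmem p).1 hp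
      exact hnxne p hlt (congrArg Prod.fst heq)
    · intro p hp
      exact hinvmem p hp
    · intro p hp
      obtain ⟨⟨hz, hg⟩, hlt⟩ := (hmem p).1 hp
      have h1 : nx (inv p) = p.1 := by
        have h2 := hnx (inv p) (by rw [hinv1]; exact hlt)
        rw [hinv1] at h2
        have h3 : ((inv p).2 p.1 : ℕ) = (p.2 p.1 : ℕ) + 1 := by
          simp only [inv, Equiv.trans_apply, Equiv.swap_apply_left]
          exact hnx p hlt
        exact (inv p).2.injective (Fin.ext (by rw [h2, h3]))
      have h2 : inv (inv p) = (nx (inv p), (Equiv.swap (inv p).1 (nx (inv p))).trans (inv p).2) :=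
        rfl
      rw [h2, h1]
      apply Prod.ext
      · rfl
      · ext1 j
        simp only [inv, Equiv.trans_apply]
        rw [Equiv.swap_comm (nx p) p.1, Equiv.swap_apply_self]
  rw [hcanc, zero_add] at htot
  -- reindexing of the rest
  have hre : ∑ p ∈ T.filter (fun p : Fin (s + P + 1) × Equiv.Perm (Fin (s + P + 1)) => ¬ (((p.2 p.1 : Fin (s + P + 1)) : ℕ) + 1 < s + P + 1)),
      G p = ∑ σ ∈ univ.filter (fun σ : Equiv.Perm (Fin (s + P + 1)) =>
        ∀ i : Fin (s + P + 1), (i : ℕ) < s → P ≤ (σ i : ℕ) ∧ (σ i : ℕ) + 1 < s + P + 1),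
        dd f (fun j => X ^ (ψ j + (if (σ j : ℕ) + 1 = s + P + 1 then s + P + 1
          else (σ j : ℕ)))) := by
    refine Finset.sum_bij (fun p _ => p.2) ?_ ?_ ?_ ?_
    · intro p hp
      rw [mem_filter, hT, mem_filter] at hp
      obtain ⟨⟨-, hz, hg⟩, hlt⟩ := hp
      have hσz : ((p.2 p.1 : Fin (s + P + 1)) : ℕ) + 1 = s + P + 1 := by
        have := (p.2 p.1).2
        omega
      rw [mem_filter]
      exact ⟨mem_univ _, (top_iff hs hjj hb p.1 hz p.2 hσz).1 hg⟩
    · rintro ⟨z, σ⟩ hp ⟨z', σ'⟩ hp' heq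
      simp only at heq
      subst heq
      rw [mem_filter] at hp hp'
      have h1 := (σ z).2
      have h2 := (σ z').2
      have h3 := hp.2
      have h4 := hp'.2
      simp only at h3 h4
      have h5 : z = z' := σ.injective (Fin.ext (by omega))
      rw [h5]
    · intro σ hσ
      rw [mem_filter] at hσ
      set z := σ.symm (Fin.last (s + P)) with hzdef
      have hσz : ((σ z : Fin (s + P + 1)) : ℕ) + 1 = s + P + 1 := by
        rw [hzdef, Equiv.apply_symm_apply, Fin.val_last]
      have hz : s ≤ (z : ℕ) := by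
        by_contra hcon
        push Not at hcon
        have := (hσ.2 z hcon).2
        omega
      refine ⟨(z, σ), ?_, rfl⟩
      rw [mem_filter, hT, mem_filter]
      refine ⟨⟨mem_univ _, hz, (top_iff hs hjj hb z hz σ hσz).2 hσ.2⟩, ?_⟩
      simp only
      omega
    · intro p hp
      rw [mem_filter] at hp
      have hσz : ((p.2 p.1 : Fin (s + P + 1)) : ℕ) + 1 = s + P + 1 := by
        have := (p.2 p.1).2
        omega
      rw [hG]
      simp only
      congr 1
      ext1 j
      congr 1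
      by_cases hj : j = p.1
      · rw [hj, if_pos rfl, if_pos hσz]
        omega
      · have h1 : ¬ (((p.2 j : Fin (s + P + 1)) : ℕ) + 1 = s + P + 1) := by
          intro h
          exact hj (p.2.injective (Fin.ext (by omega)))
        rw [if_neg hj, if_neg h1, add_zero]
  rw [hre, sum_two_block (eS s P) (eL s P) _ top_block, sum_comm] at htot
  -- block form
  have hval : ∀ (τ : Equiv.Perm (Fin s)) (lam : Equiv.Perm (Fin (P + 1))),
      dd f (fun j => X ^ (ψ j + (if ((bp (eS s P) (eL s P) τ lam j : Fin (s + P + 1)) : ℕ) + 1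
          = s + P + 1 then s + P + 1
          else ((bp (eS s P) (eL s P) τ lam j : Fin (s + P + 1)) : ℕ))))
      = dS f (eS s P) (fun i => X ^ (2 * P + ((i : ℕ) + (τ i : ℕ))))
          (fun l => X ^ (2 * P + 2 * c + ((l : ℕ) + (if (lam l : ℕ) < P then (lam l : ℕ)
            else s + P + 1)))) := by
    intro τ lam
    rw [dS]
    congr 1
    ext1 j
    obtain ⟨x, rfl⟩ := (eS s P).surjective j
    rw [Equiv.symm_apply_apply]
    rcases x with i | l
    · rw [bp_inl, eL_inl, Sum.elim_inl, hψ]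
      simp only [eS_inl, if_pos i.2]
      have h1 := (τ i).2
      rw [if_neg (by omega)]
      congr 1
      omega
    · rw [bp_inr, eL_inr, Sum.elim_inr, hψ]
      simp only [eS_inr, if_neg (show ¬ (s + (l : ℕ) < s) by omega)]
      by_cases h2 : (lam l : ℕ) < P
      · rw [if_pos h2, if_pos h2, if_neg (by omega)]
        congr 1
        omega
      · rw [if_neg h2, if_neg h2, if_pos (by omega)]
        congr 1
        omega
  rw [sum_congr rfl (fun lam _ => sum_congr rfl (fun τ _ => hval τ lam))] at htot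
  have hsq : ∀ lam : Equiv.Perm (Fin (P + 1)), ∑ τ : Equiv.Perm (Fin s),
      dS f (eS s P) (fun i => X ^ (2 * P + ((i : ℕ) + (τ i : ℕ))))
          (fun l => X ^ (2 * P + 2 * c + ((l : ℕ) + (if (lam l : ℕ) < P then (lam l : ℕ)
            else s + P + 1))))
      = dS f (eS s P) (fun i => X ^ (2 * P + 2 * (i : ℕ)))
          (fun l => X ^ (2 * P + 2 * c + ((l : ℕ) + (if (lam l : ℕ) < P then (lam l : ℕ)
            else s + P + 1)))) := by
    intro lam
    refine sq_lemma s (fun ES => dS f (eS s P) (fun i => X ^ (2 * P + ES i))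
          (fun l => X ^ (2 * P + 2 * c + ((l : ℕ) + (if (lam l : ℕ) < P then (lam l : ℕ)
            else s + P + 1))))) ?_ ?_
    · intro E σ
      exact dS_permS f (eS s P) (fun i => X ^ (2 * P + E i)) _ σ
    · intro E i j hij hE
      refine dS_rep f (eS s P) _ _ (Sum.inl i) (Sum.inl j)
        (fun hh => hij (Sum.inl_injective hh)) ?_
      simp only [Sum.elim_inl, hE]
  rw [sum_congr rfl (fun lam _ => hsq lam)] at htot
  rw [Finset.sum_eq_single (lstar P)] at htot
  · rw [← htot, dS]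
    congr 1
    ext1 j
    obtain ⟨x, rfl⟩ := (eS s P).surjective j
    rw [Equiv.symm_apply_apply]
    rcases x with i | l
    · rw [col2, eS_inl, if_pos i.2, Sum.elim_inl]
    · rw [col2, eS_inr, if_neg (by omega), Sum.elim_inr]
      by_cases hl : (l : ℕ) = 0
      · have hl0 : l = 0 := Fin.ext hl
        have h1 : ¬ ((lstar P l : Fin (P + 1)) : ℕ) < P := by
          intro hcon
          have h2 : lstar P ⟨(lstar P l : ℕ) + 1, by omega⟩ = lstar P l := by
            apply Fin.ext
            rw [lstar_pos _ (by simp only; omega)]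
            simp only; omega
          have h3 := congrArg (fun t : Fin (P + 1) => (t : ℕ)) ((lstar P).injective h2)
          simp only at h3
          omega
        rw [if_pos (by omega), if_neg h1]
        congr 1
        omega
      · have h2 := lstar_pos l (by omega)
        have h3 := l.2
        rw [if_neg (by omega), if_pos (by omega), h2]
        congr 1
        omega
  · intro lam _ hlam
    by_contra hne
    apply hlam
    refine perm_eq_of_pos lam (lstar P) ?_ lstar_pos
    refine survivor lam ?_ ?_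
    · intro l hl
      by_contra hcon
      apply hne
      have hl2 := l.2
      have heven : ((l : ℕ) + (lam l : ℕ)) % 2 = 0 := by omega
      refine dS_rep f (eS s P) _ _ (Sum.inl ⟨c + ((l : ℕ) + (lam l : ℕ)) / 2, by omega⟩)
        (Sum.inr l) (by simp) ?_
      simp only [Sum.elim_inl, Sum.elim_inr, if_pos hl]
      congr 1
      omega
    · intro l l' hl hl' heq
      by_contra hcon
      apply hne
      refine dS_rep f (eS s P) _ _ (Sum.inr l) (Sum.inr l')
        (fun hh => hcon (Sum.inr_injective hh)) ?_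
      simp only [Sum.elim_inr, if_pos hl, if_pos hl', heq]
  · intro h
    exact absurd (mem_univ _) h

end Pool.Agent.Helper10.CYC
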