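import Pool.Agent.Helper10.CYC.T3L
import Pool.Agent.Helper10.CYC.Merge

/-!
# The relation RelL over every quotient of a domain, and the one-survivor merge (HL)
-/

set_option autoImplicit false

namespace Pool.Agent.Helper10.CYC

open Finset Polynomial

open Classical in
/-- The T3-lambda relation in the form used in characteristic 2. -/
def RelL {R : Type*} [CommRing R] {k : ℕ} (f : R[X]) (b lam : ℕ) (u : Fin k → ℕ) : Prop :=
  ∀ g : Fin k → R[X],
    ∑ σ ∈ univ.filter (fun σ : Equiv.Perm (Fin k) => GoodL b lam u σ),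
      dd f (fun j => g j * X ^ LL k lam ((σ j : Fin k) : ℕ)) = 0

/-- General transfer over a domain: integral coefficients `c`, exponents `e`. -/
lemma gen_dom {R : Type} [CommRing R] [IsDomain R] {k : ℕ} (c : Equiv.Perm (Fin k) → ℤ)
    (e : Equiv.Perm (Fin k) → Fin k → ℕ) (x : Fin k → R)
    (hx : Function.Injective x)
    (hW : ∀ σ : Equiv.Perm (Fin k),
      ∑ s : Equiv.Perm (Fin k), ((c s : ℤ) : R) * ∏ i, x (σ i) ^ e s i = 0)
    (G : Fin k → R[X]) :
    ∑ s : Equiv.Perm (Fin k), ((c s : ℤ) : R) *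
      dd (∏ i, (X - C (x i))) (fun j => G j * X ^ e s j) = 0 := by
  have hV : (Matrix.vandermonde x).det ≠ 0 := Matrix.det_vandermonde_ne_zero_iff.2 hx
  have key : (Matrix.vandermonde x).det *
      ∑ s : Equiv.Perm (Fin k), ((c s : ℤ) : R) *
        dd (∏ i, (X - C (x i))) (fun j => G j * X ^ e s j) = 0 := by
    rw [Finset.mul_sum]
    have e1 : ∀ s ∈ (univ : Finset (Equiv.Perm (Fin k))),
        (Matrix.vandermonde x).det * (((c s : ℤ) : R) *
          dd (∏ i, (X - C (x i))) (fun j => G j * X ^ e s j))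
        = ∑ σ : Equiv.Perm (Fin k), ((Equiv.Perm.sign σ : ℤ) : R) *
            ((∏ i, (G i).eval (x (σ i))) * (((c s : ℤ) : R) * ∏ i, x (σ i) ^ e s i)) := by
      intro s _
      have h1 := Helper91.CYC.st_a2 R k x (fun j => G j * X ^ e s j)
      have h2 : (Matrix.vandermonde x).det * (((c s : ℤ) : R) *
          dd (∏ i, (X - C (x i))) (fun j => G j * X ^ e s j))
          = ((c s : ℤ) : R) * ((Matrix.vandermonde x).det *
            dd (∏ i, (X - C (x i))) (fun j => G j * X ^ e s j)) := by ring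
      rw [h2, ← h1, Matrix.det_apply', Finset.mul_sum]
      refine Finset.sum_congr rfl (fun σ _ => ?_)
      have h3 : ∏ i, (Matrix.of fun i j : Fin k => (G j * X ^ e s j).eval (x i)) (σ i) i
          = (∏ i, (G i).eval (x (σ i))) * ∏ i, x (σ i) ^ e s i := by
        rw [← Finset.prod_mul_distrib]
        refine Finset.prod_congr rfl (fun i _ => ?_)
        simp
      rw [h3]; ring
    rw [Finset.sum_congr rfl e1, Finset.sum_comm]
    refine Finset.sum_eq_zero (fun σ _ => ?_)
    rw [← Finset.mul_sum, ← Finset.mul_sum, hW σ, mul_zero, mul_zero]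
  exact (mul_eq_zero.1 key).resolve_left hV

/-- General transfer to a quotient. -/
theorem gen_quot {R S : Type} [CommRing R] [IsDomain R] [CommRing S] (φ : R →+* S)
    (hφ : Function.Surjective φ) {k : ℕ} (c : Equiv.Perm (Fin k) → ℤ)
    (e : Equiv.Perm (Fin k) → Fin k → ℕ) (x : Fin k → R)
    (hx : Function.Injective x)
    (hW : ∀ σ : Equiv.Perm (Fin k),
      ∑ s : Equiv.Perm (Fin k), ((c s : ℤ) : R) * ∏ i, x (σ i) ^ e s i = 0)
    (g : Fin k → S[X]) :
    ∑ s : Equiv.Perm (Fin k), ((c s : ℤ) : S) *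
      dd (∏ i, (X - C (φ (x i)))) (fun j => g j * X ^ e s j) = 0 := by
  have hg : ∀ j, ∃ G : R[X], G.map φ = g j := fun j => Polynomial.map_surjective _ hφ (g j)
  choose G hG using hg
  have h3 := congrArg φ (gen_dom c e x hx hW G)
  rw [map_zero, map_sum] at h3
  rw [← h3]
  refine Finset.sum_congr rfl (fun s _ => ?_)
  rw [map_mul, map_intCast,
    Helper91.CYC.st_a1 R S φ k _ (monic_prod_of_monic _ _ fun i _ => monic_X_sub_C _)]
  congr 2
  · rw [Polynomial.map_prod]
    refine Finset.prod_congr rfl (fun i _ => ?_)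
    simp
  · funext j
    rw [Polynomial.map_mul, hG, Polynomial.map_pow, Polynomial.map_X]

lemma unit_cast_two {S : Type*} [CommRing S] [CharP S 2] (a : ℤˣ) : ((a : ℤ) : S) = 1 := by
  rcases Int.units_eq_one_or a with h | h
  · rw [h]; simp
  · rw [h]
    push_cast
    have h2 : (2 : S) = 0 := CharTwo.two_eq_zero
    linear_combination (-1 : S) * h2

/-- **RelL over a quotient**, from the integral relations at all orderings. -/
theorem relL_quot {R S : Type} [CommRing R] [IsDomain R] [CommRing S] [CharP S 2] (φ : R →+* S)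
    (hφ : Function.Surjective φ) {k b lam : ℕ} (u : Fin k → ℕ) (x : Fin k → R)
    (hx : Function.Injective x)
    (hW : ∀ σ : Equiv.Perm (Fin k),
      ∑ s : Equiv.Perm (Fin k), ((cL b lam u s : ℤ) : R) *
        ∏ i, x (σ i) ^ LL k lam (s i : ℕ) = 0) :
    RelL (∏ i, (X - C (φ (x i)))) b lam u := by
  classical
  intro g
  have h := gen_quot φ hφ (cL b lam u) (fun s j => LL k lam ((s j : Fin k) : ℕ)) x hx hW g
  rw [sum_filter]
  refine Eq.trans (sum_congr rfl (fun s _ => ?_)) h
  by_cases hg : GoodL b lam u s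
  · rw [if_pos hg, cL, dif_pos hg]
    push_cast
    rw [unit_cast_two, unit_cast_two, one_mul, one_mul]
  · rw [if_neg hg, cL, dif_neg hg, Int.cast_zero, zero_mul]

section HL

variable {n q : ℕ}

/-- Labels of the surviving term. -/
def fL0 (n q : ℕ) : Fin n ⊕ Fin (q + 1) → Fin (n + (q + 1)) :=
  Sum.elim (fun t => ⟨q + (t : ℕ), by have := t.2; omega⟩)
    (fun t => if h : (t : ℕ) < q then ⟨(t : ℕ), by omega⟩ else ⟨n + q, by omega⟩)

lemma fL0_inl (t : Fin n) : ((fL0 n q (Sum.inl t) : Fin (n + (q + 1))) : ℕ) = q + t := rfl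

lemma fL0_inr (t : Fin (q + 1)) : ((fL0 n q (Sum.inr t) : Fin (n + (q + 1))) : ℕ)
    = if (t : ℕ) < q then (t : ℕ) else n + q := by
  simp only [fL0, Sum.elim_inr]
  by_cases h : (t : ℕ) < q
  · rw [dif_pos h, if_pos h]
  · rw [dif_neg h, if_neg h]

lemma fL0_bij : Function.Bijective (fL0 n q) := by
  rw [Fintype.bijective_iff_injective_and_card]
  refine ⟨?_, by simp⟩
  rintro (a | a) (c | c) h
  · have := congrArg (fun t : Fin (n + (q + 1)) => (t : ℕ)) h
    simp only [fL0_inl] at this
    congr 1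
    exact Fin.ext (by omega)
  · have := congrArg (fun t : Fin (n + (q + 1)) => (t : ℕ)) h
    simp only [fL0_inl, fL0_inr] at this
    have ha := a.2
    split_ifs at this <;> omega
  · have := congrArg (fun t : Fin (n + (q + 1)) => (t : ℕ)) h
    simp only [fL0_inl, fL0_inr] at this
    have hc := c.2
    split_ifs at this <;> omega
  · have := congrArg (fun t : Fin (n + (q + 1)) => (t : ℕ)) h
    simp only [fL0_inr] at this
    have ha := a.2
    have hc := c.2
    congr 1
    apply Fin.ext
    split_ifs at this <;> omega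

/-- A supporting slot just above the special slot is impossible. -/
lemma next_zero {k n g lam b : ℕ} (hg : 2 ≤ g) (z : Fin k) (hz : n ≤ (z : ℕ))
    (σ : Equiv.Perm (Fin k)) (hgd : GoodL b lam (u3 k n g z) σ) (hne : (σ z : ℕ) + 1 < k)
    (z' : Fin k) (hz' : (σ z' : ℕ) = σ z + 1) :
    n ≤ (z' : ℕ) ∧ LL k lam (σ z') = LL k lam (σ z) + 1 := by
  obtain ⟨π, j0, hS⟩ := hgd
  have huz : u3 k n g z z = g := u3_z _ _ _
  have hlz : LL k lam (σ z) = σ z := LL_of_lt hne
  have hz'z : z' ≠ z := by
    rintro rfl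
    omega
  have hLL : LL k lam (σ z') = LL k lam (σ z) + 1 := by
    rw [hlz]
    by_cases h1 : (σ z' : ℕ) + 1 < k
    · rw [LL_of_lt h1, hz']
    · have h2 : (σ z' : ℕ) + 1 = k := by have := (σ z').2; omega
      have h3 : j0 = z := by
        by_contra hcon
        have h4 := hS.rest z (fun h => hcon h.symm)
        rw [huz, hlz] at h4
        have := (π z).2
        omega
      have h5 := hS.rest z' (by rw [h3]; exact hz'z)
      have h6 := (π z').2
      rw [LL_top h2] at h5 ⊢
      omega
  refine ⟨?_, hLL⟩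
  by_contra hcon
  push Not at hcon
  have hu : u3 k n g z z' = 1 := u3_pl n g z z' hz'z hcon
  have hl := hS.low z (by rw [huz]; omega)
  obtain ⟨j, hj⟩ := π.surjective ⟨(σ z : ℕ) + 1, hne⟩
  have hjv : (π j : ℕ) = σ z + 1 := by rw [hj]
  by_cases hj0 : j = j0
  · rw [hj0] at hjv; omega
  · have h4 := hS.rest j hj0
    rw [hjv] at h4
    by_cases hjz : j = z
    · rw [hjz, huz, hlz] at h4; omega
    · by_cases hjn : (j : ℕ) < n
      · rw [u3_pl n g z j hjz hjn] at h4
        have h5 : LL k lam (σ j) = LL k lam (σ z) := by rw [hlz]; omega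
        have h6 := LL_inj (σ j).2 (σ z).2 h5
        exact hjz (σ.injective (Fin.ext h6))
      · have h5 : u3 k n g z j = 0 := by simp [u3, hjz, hjn]
        rw [h5] at h4
        have h6 : LL k lam (σ j) = LL k lam (σ z') := by rw [hLL, hlz]; omega
        have h7 := LL_inj (σ j).2 (σ z').2 h6
        have h8 := σ.injective (Fin.ext h7)
        rw [h8] at hjn
        exact hjn hcon

lemma u3_swap (k n g : ℕ) (z z' : Fin k) (hz : n ≤ (z : ℕ)) (hz' : n ≤ (z' : ℕ)) :
    (fun i => u3 k n g z (Equiv.swap z z' i)) = u3 k n g z' := by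
  ext i
  by_cases h1 : i = z
  · rw [h1, Equiv.swap_apply_left]
    by_cases h2 : z' = z
    · rw [h2]
    · simp only [u3, if_neg (not_lt.2 hz), if_neg (not_lt.2 hz'), if_neg h2,
        if_neg (fun h => h2 (Eq.symm h))]
  · by_cases h2 : i = z'
    · rw [h2, Equiv.swap_apply_right, u3_z, u3_z]
    · rw [Equiv.swap_apply_of_ne_of_ne h1 h2]
      simp only [u3, if_neg h1, if_neg h2]

/-- When the special slot is on top, the good labelings are the block labelings. -/
lemma top_goodL {g lam : ℕ} (hg : 1 ≤ g) (hb : n + g + lam ≤ n + (q + 1))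
    (z : Fin (n + (q + 1))) (hz : n ≤ (z : ℕ))
    (σ : Equiv.Perm (Fin (n + (q + 1)))) (hσz : (σ z : ℕ) + 1 = n + (q + 1)) :
    GoodL (n + g + lam) lam (u3 (n + (q + 1)) n g z) σ ↔
      ∀ i : Fin (n + (q + 1)), (i : ℕ) < n → q ≤ (σ i : ℕ) ∧ (σ i : ℕ) + 1 < n + (q + 1) := by
  have huz : u3 (n + (q + 1)) n g z z = g := u3_z _ _ _
  have hlt : LL (n + (q + 1)) lam (σ z) = σ z + lam := LL_top hσz
  have hnt : ∀ i : Fin (n + (q + 1)), i ≠ z → (σ i : ℕ) + 1 < n + (q + 1) := by
    intro i hi
    have h1 := (σ i).2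
    have h2 : (σ i : ℕ) ≠ σ z := fun h => hi (σ.injective (Fin.ext h))
    omega
  constructor
  · rintro ⟨π, j0, hS⟩ i hi
    have hiz : i ≠ z := by rintro rfl; omega
    refine ⟨?_, hnt i hiz⟩
    have h3 : j0 = z := by
      by_contra hcon
      have h4 := hS.rest z (fun h => hcon h.symm)
      rw [huz, hlt] at h4
      have := (π z).2
      omega
    have h4 := hS.out
    rw [h3, huz, hlt] at h4
    have h5 := hS.low i (by rw [u3_pl n g z i hiz hi]; exact one_ne_zero)
    rw [h3] at h5
    omega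
  · intro h
    classical
    -- labels of the first block are exactly `[q, n+q)`
    have himg : (univ.filter (fun i : Fin (n + (q + 1)) => (i : ℕ) < n)).image
        (fun i => (σ i : ℕ)) = Ico q (n + q) := by
      apply eq_of_subset_of_card_le
      · intro x hx
        obtain ⟨i, hi, rfl⟩ := mem_image.1 hx
        have := h i (mem_filter.1 hi).2
        rw [mem_Ico]; omega
      · rw [card_image_of_injective _ (fun a c hac => σ.injective (Fin.ext hac)),
          card_filter_lt (by omega), Nat.card_Ico]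
        omega
    have hother : ∀ i : Fin (n + (q + 1)), i ≠ z → n ≤ (i : ℕ) → (σ i : ℕ) < q := by
      intro i hiz hin
      by_contra hcon
      push Not at hcon
      have h1 := hnt i hiz
      have h2 : (σ i : ℕ) ∈ Ico q (n + q) := by rw [mem_Ico]; omega
      rw [← himg, mem_image] at h2
      obtain ⟨j, hj, hj2⟩ := h2
      have h3 := σ.injective (Fin.ext hj2)
      have := (mem_filter.1 hj).2
      rw [h3] at this
      omega
    let F : Fin (n + (q + 1)) → Fin (n + (q + 1)) := fun j =>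
      if j = z then ⟨q, by omega⟩ else
        if h' : (j : ℕ) < n then ⟨(σ j : ℕ) + 1, by have := (h j h').2; omega⟩ else σ j
    have hFz : (F z : ℕ) = q := by simp [F]
    have hFs : ∀ j, j ≠ z → (j : ℕ) < n → (F j : ℕ) = σ j + 1 := by
      intro j h1 h2
      simp [F, h1, h2]
    have hFo : ∀ j, j ≠ z → n ≤ (j : ℕ) → (F j : ℕ) = σ j := by
      intro j h1 h2
      simp [F, h1, not_lt.2 h2]
    have hFinj : Function.Injective F := by
      intro a c hac
      have hac' : (F a : ℕ) = (F c : ℕ) := congrArg (fun t : Fin (n + (q + 1)) => (t : ℕ)) hac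
      by_cases ha : a = z
      · by_cases hc : c = z
        · rw [ha, hc]
        · rw [ha, hFz] at hac'
          by_cases hcn : (c : ℕ) < n
          · rw [hFs c hc hcn] at hac'
            have := h c hcn
            omega
          · rw [hFo c hc (not_lt.1 hcn)] at hac'
            have := hother c hc (not_lt.1 hcn)
            omega
      · by_cases hc : c = z
        · rw [hc, hFz] at hac'
          by_cases han : (a : ℕ) < n
          · rw [hFs a ha han] at hac'
            have := h a han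
            omega
          · rw [hFo a ha (not_lt.1 han)] at hac'
            have := hother a ha (not_lt.1 han)
            omega
        · by_cases han : (a : ℕ) < n
          · by_cases hcn : (c : ℕ) < n
            · rw [hFs a ha han, hFs c hc hcn] at hac'
              exact σ.injective (Fin.ext (by omega))
            · rw [hFs a ha han, hFo c hc (not_lt.1 hcn)] at hac'
              have h1 := h a han
              have h2 := hother c hc (not_lt.1 hcn)
              omega
          · by_cases hcn : (c : ℕ) < n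
            · rw [hFo a ha (not_lt.1 han), hFs c hc hcn] at hac'
              have h1 := h c hcn
              have h2 := hother a ha (not_lt.1 han)
              omega
            · rw [hFo a ha (not_lt.1 han), hFo c hc (not_lt.1 hcn)] at hac'
              exact σ.injective (Fin.ext hac')
    refine ⟨Equiv.ofBijective F (Finite.injective_iff_bijective.1 hFinj), z, ?_, ?_, ?_, ?_⟩
    · rw [Equiv.ofBijective_apply, hFz, huz, hlt]; omega
    · rw [Equiv.ofBijective_apply, hFz]; omega
    · intro j hj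
      rw [Equiv.ofBijective_apply, LL_of_lt (hnt j hj)]
      by_cases hjn : (j : ℕ) < n
      · rw [hFs j hj hjn, u3_pl n g z j hj hjn]
      · rw [hFo j hj (not_lt.1 hjn)]
        have : u3 (n + (q + 1)) n g z j = 0 := by simp [u3, hj, hjn]
        rw [this, add_zero]
    · intro i hi
      rw [Equiv.ofBijective_apply, hFz]
      rcases u3_ne n g z i hi with h1 | h1
      · rw [h1]; omega
      · exact (h i h1.2).1

/-- **(HL)** the one-survivor merge: `V(S) V(J) h_{n+1+lam}(J) = 0`. -/
theorem merge_H {R : Type*} [CommRing R] [CharP R 2] (n q g lam : ℕ) (hg : 2 ≤ g)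
    (hb : g + lam ≤ q + 1) (f : R[X])
    (hrel : ∀ z : Fin (n + (q + 1)), n ≤ (z : ℕ) →
      RelL f (n + g + lam) lam (u3 (n + (q + 1)) n g z))
    (a : Fin n → R[X]) (b : Fin (q + 1) → R[X]) :
    PS f a b (fun t => q + (t : ℕ))
      (fun t => if (t : ℕ) < q then (t : ℕ) else n + (q + 1) + lam) = 0 := by
  classical
  set gg : Fin (n + (q + 1)) → R[X] := Fin.append a b with hgg
  set G : Fin (n + (q + 1)) × Equiv.Perm (Fin (n + (q + 1))) → R := fun x =>
    dd f (fun j => gg j * X ^ (LL (n + (q + 1)) lam (x.2 j : ℕ) + (if j = x.1 then 1 else 0)))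
    with hG
  set T : Finset (Fin (n + (q + 1)) × Equiv.Perm (Fin (n + (q + 1)))) := univ.filter
    (fun x : Fin (n + (q + 1)) × Equiv.Perm (Fin (n + (q + 1))) =>
    n ≤ (x.1 : ℕ) ∧ GoodL (n + g + lam) lam (u3 (n + (q + 1)) n g x.1) x.2) with hT
  have htot : ∑ x ∈ T, G x = 0 := by
    rw [hT, sum_filter, Fintype.sum_prod_type]
    refine sum_eq_zero (fun z _ => ?_)
    by_cases hz : n ≤ (z : ℕ)
    · have h1 := hrel z hz (fun j => gg j * X ^ (if j = z then 1 else 0))
      rw [sum_filter] at h1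
      refine Eq.trans (sum_congr rfl (fun σ _ => ?_)) h1
      by_cases hgd : GoodL (n + g + lam) lam (u3 (n + (q + 1)) n g z) σ
      · rw [if_pos ⟨hz, hgd⟩, if_pos hgd, hG]
        simp only
        congr 1
        ext1 j
        rw [mul_assoc, ← pow_add, add_comm]
      · rw [if_neg (fun h => hgd h.2), if_neg hgd]
    · exact sum_eq_zero (fun σ _ => by rw [if_neg (fun h => hz h.1)])
  rw [← sum_filter_add_sum_filter_not T
    (fun x : Fin (n + (q + 1)) × Equiv.Perm (Fin (n + (q + 1))) =>
      ((x.2 x.1 : Fin (n + (q + 1))) : ℕ) + 1 < n + (q + 1))] at htot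
  have hcanc : ∑ x ∈ T.filter (fun x : Fin (n + (q + 1)) × Equiv.Perm (Fin (n + (q + 1))) =>
      ((x.2 x.1 : Fin (n + (q + 1))) : ℕ) + 1 < n + (q + 1)), G x = 0 := by
    have hmem : ∀ x : Fin (n + (q + 1)) × Equiv.Perm (Fin (n + (q + 1))),
        x ∈ T.filter (fun x : Fin (n + (q + 1)) × Equiv.Perm (Fin (n + (q + 1))) =>
          ((x.2 x.1 : Fin (n + (q + 1))) : ℕ) + 1 < n + (q + 1)) ↔
        (n ≤ (x.1 : ℕ) ∧ GoodL (n + g + lam) lam (u3 (n + (q + 1)) n g x.1) x.2) ∧
          ((x.2 x.1 : Fin (n + (q + 1))) : ℕ) + 1 < n + (q + 1) := by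
      intro x
      rw [mem_filter, hT, mem_filter]
      simp
    let nx : Fin (n + (q + 1)) × Equiv.Perm (Fin (n + (q + 1))) → Fin (n + (q + 1)) := fun x =>
      if h : ((x.2 x.1 : Fin (n + (q + 1))) : ℕ) + 1 < n + (q + 1) then
        x.2.symm ⟨((x.2 x.1 : Fin (n + (q + 1))) : ℕ) + 1, h⟩ else x.1
    have hnx : ∀ x : Fin (n + (q + 1)) × Equiv.Perm (Fin (n + (q + 1))),
        ((x.2 x.1 : Fin (n + (q + 1))) : ℕ) + 1 < n + (q + 1) →
        ((x.2 (nx x) : Fin (n + (q + 1))) : ℕ) = (x.2 x.1 : ℕ) + 1 := by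
      intro x h
      simp only [nx, dif_pos h, Equiv.apply_symm_apply]
    have hnxne : ∀ x : Fin (n + (q + 1)) × Equiv.Perm (Fin (n + (q + 1))),
        ((x.2 x.1 : Fin (n + (q + 1))) : ℕ) + 1 < n + (q + 1) → nx x ≠ x.1 := by
      intro x h heq
      have := hnx x h
      rw [heq] at this
      omega
    let inv : Fin (n + (q + 1)) × Equiv.Perm (Fin (n + (q + 1))) →
        Fin (n + (q + 1)) × Equiv.Perm (Fin (n + (q + 1))) := fun x =>
      (nx x, (Equiv.swap x.1 (nx x)).trans x.2)
    have hinv1 : ∀ x : Fin (n + (q + 1)) × Equiv.Perm (Fin (n + (q + 1))),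
        (((inv x).2 (inv x).1 : Fin (n + (q + 1))) : ℕ) = (x.2 x.1 : ℕ) := by
      intro x
      simp only [inv, Equiv.trans_apply, Equiv.swap_apply_right]
    have hnxs : ∀ x : Fin (n + (q + 1)) × Equiv.Perm (Fin (n + (q + 1))),
        (n ≤ (x.1 : ℕ) ∧ GoodL (n + g + lam) lam (u3 (n + (q + 1)) n g x.1) x.2) →
          ((x.2 x.1 : Fin (n + (q + 1))) : ℕ) + 1 < n + (q + 1) →
          n ≤ (nx x : ℕ) ∧ LL (n + (q + 1)) lam (x.2 (nx x)) =
            LL (n + (q + 1)) lam (x.2 x.1) + 1 := by
      intro x h1 h2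
      exact next_zero hg x.1 h1.1 x.2 h1.2 h2 (nx x) (hnx x h2)
    refine Finset.sum_involution (fun x _ => inv x) ?_ ?_ ?_ ?_
    · intro x hx
      obtain ⟨hh, hlt⟩ := (hmem x).1 hx
      obtain ⟨hn1, hn2⟩ := hnxs x hh hlt
      have h1 : G (inv x) = G x := by
        rw [hG]
        simp only
        congr 1
        ext1 j
        congr 2
        simp only [inv, Equiv.trans_apply]
        have hne := hnxne x hlt
        by_cases hj1 : j = x.1
        · subst hj1
          rw [Equiv.swap_apply_left, if_neg hne.symm, if_pos rfl, hn2]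
        · by_cases hj2 : j = nx x
          · subst hj2
            rw [Equiv.swap_apply_right, if_pos rfl, if_neg hne, hn2]
          · rw [Equiv.swap_apply_of_ne_of_ne hj1 hj2, if_neg hj1, if_neg hj2]
      rw [h1]
      exact CharTwo.add_self_eq_zero _
    · intro x hx _ heq
      obtain ⟨-, hlt⟩ := (hmem x).1 hx
      exact hnxne x hlt (congrArg Prod.fst heq)
    · intro x hx
      obtain ⟨hh, hlt⟩ := (hmem x).1 hx
      obtain ⟨hn1, hn2⟩ := hnxs x hh hlt
      rw [hmem]
      refine ⟨⟨hn1, ?_⟩, ?_⟩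
      · have h1 := goodL_comp hh.2 (Equiv.swap x.1 (nx x))
        rw [u3_swap _ n g x.1 (nx x) hh.1 hn1] at h1
        exact h1
      · rw [hinv1]; exact hlt
    · intro x hx
      obtain ⟨hh, hlt⟩ := (hmem x).1 hx
      have h1 : nx (inv x) = x.1 := by
        have h2 := hnx (inv x) (by rw [hinv1]; exact hlt)
        rw [hinv1] at h2
        have h3 : ((inv x).2 x.1 : ℕ) = (x.2 x.1 : ℕ) + 1 := by
          simp only [inv, Equiv.trans_apply, Equiv.swap_apply_left]
          exact hnx x hlt
        exact (inv x).2.injective (Fin.ext (by rw [h2, h3]))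
      have h2 : inv (inv x) = (nx (inv x), (Equiv.swap (inv x).1 (nx (inv x))).trans (inv x).2) :=
        rfl
      rw [h2, h1]
      apply Prod.ext
      · rfl
      · ext1 j
        simp only [inv, Equiv.trans_apply]
        rw [Equiv.swap_comm (nx x) x.1, Equiv.swap_apply_self]
  rw [hcanc, zero_add] at htot
  have hre : ∑ x ∈ T.filter (fun x : Fin (n + (q + 1)) × Equiv.Perm (Fin (n + (q + 1))) =>
      ¬ (((x.2 x.1 : Fin (n + (q + 1))) : ℕ) + 1 < n + (q + 1))), G x
      = ∑ σ ∈ univ.filter (fun σ : Equiv.Perm (Fin (n + (q + 1))) =>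
        ∀ i : Fin (n + (q + 1)), (i : ℕ) < n → q ≤ (σ i : ℕ) ∧ (σ i : ℕ) + 1 < n + (q + 1)),
        dd f (fun j => gg j * X ^ (if (σ j : ℕ) + 1 = n + (q + 1) then n + (q + 1) + lam
          else (σ j : ℕ))) := by
    refine Finset.sum_bij (fun x _ => x.2) ?_ ?_ ?_ ?_
    · intro x hx
      rw [mem_filter, hT, mem_filter] at hx
      obtain ⟨⟨-, hz, hgd⟩, hlt⟩ := hx
      have hσz : ((x.2 x.1 : Fin (n + (q + 1))) : ℕ) + 1 = n + (q + 1) := by
        have := (x.2 x.1).2
        omega
      rw [mem_filter]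
      exact ⟨mem_univ _, (top_goodL (by omega) (by omega) x.1 hz x.2 hσz).1 hgd⟩
    · rintro ⟨z, σ⟩ hx ⟨z', σ'⟩ hx' heq
      simp only at heq
      subst heq
      rw [mem_filter] at hx hx'
      have h1 := (σ z).2
      have h2 := (σ z').2
      have h3 := hx.2
      have h4 := hx'.2
      simp only at h3 h4
      have h5 : z = z' := σ.injective (Fin.ext (by omega))
      rw [h5]
    · intro σ hσ
      rw [mem_filter] at hσ
      set z := σ.symm ⟨n + q, by omega⟩ with hzdef
      have hσz : ((σ z : Fin (n + (q + 1))) : ℕ) + 1 = n + (q + 1) := by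
        rw [hzdef, Equiv.apply_symm_apply]
        simp only
        omega
      have hz : n ≤ (z : ℕ) := by
        by_contra hcon
        push Not at hcon
        have := (hσ.2 z hcon).2
        omega
      refine ⟨(z, σ), ?_, rfl⟩
      rw [mem_filter, hT, mem_filter]
      refine ⟨⟨mem_univ _, hz, (top_goodL (by omega) (by omega) z hz σ hσz).2 hσ.2⟩, ?_⟩
      simp only
      omega
    · intro x hx
      rw [mem_filter] at hx
      have hσz : ((x.2 x.1 : Fin (n + (q + 1))) : ℕ) + 1 = n + (q + 1) := by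
        have := (x.2 x.1).2
        omega
      rw [hG]
      simp only
      congr 1
      ext1 j
      congr 2
      by_cases hj : j = x.1
      · rw [hj, if_pos rfl, if_pos hσz, LL_top hσz]
        omega
      · have h1 : (x.2 j : ℕ) ≠ x.2 x.1 := fun h => hj (x.2.injective (Fin.ext h))
        have h2 := (x.2 j).2
        rw [if_neg hj, if_neg (by omega), add_zero, LL_of_lt (by omega)]
  rw [hre] at htot
  set e1 : Fin n ⊕ Fin (q + 1) ≃ Fin (n + (q + 1)) := finSumFinEquiv with he1
  set e2 : Fin n ⊕ Fin (q + 1) ≃ Fin (n + (q + 1)) :=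
    Equiv.ofBijective (fL0 n q) fL0_bij with he2
  have e1l : ∀ t : Fin n, ((e1 (Sum.inl t) : Fin (n + (q + 1))) : ℕ) = t := by
    intro t; simp [he1]
  have e2l : ∀ t : Fin n, ((e2 (Sum.inl t) : Fin (n + (q + 1))) : ℕ) = q + t :=
    fun t => rfl
  have e2r : ∀ t : Fin (q + 1), ((e2 (Sum.inr t) : Fin (n + (q + 1))) : ℕ)
      = if (t : ℕ) < q then (t : ℕ) else n + q := fun t => fL0_inr t
  have hQ : ∀ σ : Equiv.Perm (Fin (n + (q + 1))),
      (∀ i : Fin (n + (q + 1)), (i : ℕ) < n → q ≤ (σ i : ℕ) ∧ (σ i : ℕ) + 1 < n + (q + 1)) ↔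
      ∀ t : Fin n, ∃ t' : Fin n, σ (e1 (Sum.inl t)) = e2 (Sum.inl t') := by
    intro σ
    constructor
    · intro h t
      obtain ⟨h1, h2⟩ := h (e1 (Sum.inl t)) (by rw [e1l]; exact t.2)
      refine ⟨⟨(σ (e1 (Sum.inl t)) : ℕ) - q, by omega⟩, Fin.ext ?_⟩
      rw [e2l]; simp only; omega
    · intro h i hi
      obtain ⟨t, ht⟩ := h ⟨i, hi⟩
      have hi' : i = e1 (Sum.inl ⟨i, hi⟩) := Fin.ext (by rw [e1l])
      rw [← hi'] at ht
      have h2 := t.2
      have h3 : (σ i : ℕ) = q + t := by rw [ht, e2l]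
      omega
  rw [sum_two_block e1 e2 _ hQ] at htot
  rw [← htot, PS]
  refine sum_congr rfl (fun τ _ => sum_congr rfl (fun lam' _ => ?_))
  congr 1
  ext1 j
  obtain ⟨y, rfl⟩ := e1.surjective j
  rcases y with t | t
  · have h1 : e1 (Sum.inl t) = Fin.castAdd (q + 1) t := by rw [he1]; rfl
    have h2 := (τ t).2
    rw [bp_inl, e2l, hgg, h1, Fin.append_left, Fin.append_left, if_neg (by omega)]
  · have h1 : e1 (Sum.inr t) = Fin.natAdd n t := by rw [he1]; rfl
    have h2 := (lam' t).2
    rw [bp_inr, e2r, hgg, h1, Fin.append_right, Fin.append_right]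
    congr 2
    by_cases h3 : ((lam' t : Fin (q + 1)) : ℕ) < q
    · rw [if_pos h3, if_pos h3, if_neg (by omega)]
    · rw [if_neg h3, if_neg h3, if_pos (by omega)]

end HL

end Pool.Agent.Helper10.CYC
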