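import Pool.Agent.Helper10.CYC.Hook

/-!
# The cyclic gap relations (T3)

`x`, `y` families of size `k`, all the determinants `V(x_i y_{σ i})` zero, `e_i(y) = 0` for
`r ≤ i < b`, `u ≥ 0` a weight of total `b` with support of size `r`.  Then
`e_b(y) * W = 0` where `W` is the sum of `∏ x_i^{s_i}` over the labelings `s` for which the
labels of the support lie in `[k-b, k)` and the next support label after `s_i` on the circle
`[k-b, k)` of length `b` is `s_i + u_i`.
-/

set_option autoImplicit false

namespace Pool.Agent.Helper10.CYC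

open Finset Matrix

variable {K : Type*} [Field K] {k : ℕ}

/-- The labels of the support of `u` lie in `[k-b,k)` and the next support label after `s_i`
on the circle of length `b` is `s_i + u_i`. -/
def Good (k b : ℕ) (u : Fin k → ℕ) (s : Equiv.Perm (Fin k)) : Prop :=
  ∀ i, u i ≠ 0 → k ≤ (s i : ℕ) + b ∧
    ∃ j, u j ≠ 0 ∧ ((s j : ℕ) = s i + u i ∨ (s j : ℕ) + b = s i + u i)

instance (b : ℕ) (u : Fin k → ℕ) : DecidablePred (Good k b u) := fun s => by
  unfold Good; infer_instance

/-- The gap sum. -/
def W (b : ℕ) (x : Fin k → K) (u : Fin k → ℕ) : K :=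
  ∑ s ∈ univ.filter (fun s : Equiv.Perm (Fin k) => Good k b u s), ∏ i, x i ^ (s i : ℕ)

/-- The exponent function `s + u` is of hook shape: `π` is its reduction, `j0` the slot of the
large exponent. -/
structure Str (b : ℕ) (u : Fin k → ℕ) (s π : Equiv.Perm (Fin k)) (j0 : Fin k) : Prop where
  out : (s j0 : ℕ) + u j0 = (π j0 : ℕ) + b
  big : k ≤ (π j0 : ℕ) + b
  rest : ∀ j, j ≠ j0 → (π j : ℕ) = s j + u j
  low : ∀ i, u i ≠ 0 → (π j0 : ℕ) ≤ s i

lemma le_of_strictMono {n : ℕ} (f : Fin n → ℕ) (hf : StrictMono f) (i : Fin n) :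
    (i : ℕ) ≤ f i := by
  obtain ⟨i, hi⟩ := i
  induction i with
  | zero => exact Nat.zero_le _
  | succ j ih =>
    have h1 : f ⟨j, by omega⟩ < f ⟨j + 1, hi⟩ := hf (by simp [Fin.lt_def])
    have h2 := ih (by omega)
    simp only at h2 ⊢
    omega

/-- An injective function to the naturals with the minimal possible sum has values `< k`. -/
lemma lt_of_inj_sum (e : Fin k → ℕ) (he : Function.Injective e)
    (hs : ∑ x, e x ≤ ∑ i : Fin k, (i : ℕ)) : ∀ j, e j < k := by
  classical
  set S : Finset ℕ := univ.image e with hS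
  have hcard : S.card = k := by
    rw [hS, card_image_of_injective _ he, card_univ, Fintype.card_fin]
  set f := S.orderEmbOfFin hcard with hf
  have himg : univ.image (fun i : Fin k => f i) = S := by
    rw [hf]; exact Finset.image_orderEmbOfFin_univ S hcard
  have hsum : ∑ x, e x = ∑ i : Fin k, f i := by
    have h1 : ∑ y ∈ S, y = ∑ x, e x := by
      rw [hS, sum_image (fun a _ b _ hab => he hab)]
    have h2 : ∑ y ∈ S, y = ∑ i : Fin k, f i := by
      rw [← himg, sum_image (fun a _ b _ hab => f.injective hab)]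
    rw [← h1, h2]
  have hle : ∀ i : Fin k, (i : ℕ) ≤ f i := fun i => le_of_strictMono (fun i => f i) f.strictMono i
  have hfi : ∀ i : Fin k, (i : ℕ) = f i := by
    have h0 : ∑ i : Fin k, (i : ℕ) = ∑ i : Fin k, (f i : ℕ) := by
      apply le_antisymm (sum_le_sum (fun i _ => hle i))
      rw [← hsum]; exact hs
    have := (Finset.sum_eq_sum_iff_of_le (s := (univ : Finset (Fin k)))
      (f := fun i : Fin k => (i : ℕ)) (g := fun i : Fin k => (f i : ℕ)) (fun i _ => hle i)).1 h0
    intro i
    exact this i (mem_univ i)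
  intro j
  have hj : e j ∈ S := by rw [hS]; exact mem_image_of_mem _ (mem_univ _)
  rw [← himg, mem_image] at hj
  obtain ⟨i, -, hi⟩ := hj
  rw [← hi, ← hfi i]
  exact i.2

/-- the size of the support -/
def supp (u : Fin k → ℕ) : Finset (Fin k) := univ.filter (fun i => u i ≠ 0)

lemma mem_supp (u : Fin k → ℕ) (i : Fin k) : i ∈ supp u ↔ u i ≠ 0 := by simp [supp]

lemma card_low (u : Fin k → ℕ) (s : Equiv.Perm (Fin k)) (z : ℕ) (hz : z < k)
    (low : ∀ i, u i ≠ 0 → z ≤ (s i : ℕ)) : z + (supp u).card ≤ k := by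
  classical
  have h1 : ((supp u).image (fun i => (s i : ℕ))) ⊆ Finset.Ico z k := by
    intro t ht
    rw [mem_image] at ht
    obtain ⟨i, hi, rfl⟩ := ht
    rw [mem_Ico]
    exact ⟨low i ((mem_supp u i).1 hi), (s i).2⟩
  have h2 : ((supp u).image (fun i => (s i : ℕ))).card = (supp u).card :=
    card_image_of_injective _ (fun a c hac => s.injective (Fin.ext hac))
  have h3 := card_le_card h1
  rw [h2, Nat.card_Ico] at h3
  omega

lemma str_or_zero (y : Fin k → K) (hy : Function.Injective y) (b : ℕ) (hb0 : 0 < b)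
    (u : Fin k → ℕ) (hu : ∑ i, u i = b) (he : ∀ i, (supp u).card ≤ i → i < b → es y i = 0)
    (s : Equiv.Perm (Fin k)) :
    (Matrix.of fun i j => y i ^ ((s j : ℕ) + u j) : Matrix (Fin k) (Fin k) K).det = 0 ∨
      ∃ π j0, Str b u s π j0 := by
  classical
  set E : Fin k → ℕ := fun j => (s j : ℕ) + u j with hE
  have hsumE : ∑ j, E j = ∑ j : Fin k, (j : ℕ) + b := by
    rw [hE, sum_add_distrib, hu, Equiv.sum_comp s (fun j : Fin k => (j : ℕ))]
  by_cases hinj : Function.Injective E
  swap
  · left
    rw [Function.not_injective_iff] at hinj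
    obtain ⟨a, c, hac, hne⟩ := hinj
    refine Matrix.det_zero_of_column_eq hne (fun i => ?_)
    simp only [hE] at hac
    simp only [Matrix.of_apply]
    rw [hac]
  have hex : ∃ n, n < k ∧ ∀ j, E j ≠ n := by
    by_contra hcon
    push Not at hcon
    have hcon' : ∀ t : Fin k, ∃ j, E j = t := fun t => hcon t t.2
    choose g hg using hcon'
    have hginj : Function.Injective g := by
      intro a c hac
      have h1 := hg a
      have h2 := hg c
      rw [hac] at h1
      exact Fin.ext (by omega)
    have hbij := Finite.injective_iff_bijective.1 hginj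
    have h3 : ∑ t : Fin k, E (g t) = ∑ j, E j :=
      Function.Bijective.sum_comp hbij E
    have h4 : ∑ t : Fin k, E (g t) = ∑ t : Fin k, (t : ℕ) :=
      sum_congr rfl (fun t _ => hg t)
    omega
  set z := Nat.find hex with hzdef
  obtain ⟨hzk, hzE⟩ := Nat.find_spec hex
  rw [← hzdef] at hzk hzE
  have hmin : ∀ n, n < z → ∃ j, E j = n := by
    intro n hn
    have := Nat.find_min hex hn
    push Not at this
    exact this (by omega)
  have hfix : ∀ n, n < z → ∀ j, E j = n → (s j : ℕ) = n := by
    intro n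
    induction n using Nat.strong_induction_on with
    | _ n ih =>
      intro hn j hj
      have h1 : (s j : ℕ) ≤ n := by rw [← hj, hE]; simp only; omega
      rcases Nat.lt_or_ge (s j : ℕ) n with hlt | hge
      · obtain ⟨j', hj'⟩ := hmin (s j) (by omega)
        have h2 := ih (s j) hlt (by omega) j' hj'
        have h3 : j' = j := s.injective (Fin.ext h2)
        rw [h3] at hj'
        omega
      · omega
  have hlow : ∀ i, u i ≠ 0 → z ≤ (s i : ℕ) := by
    intro i hi
    by_contra hcon
    push Not at hcon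
    obtain ⟨j, hj⟩ := hmin (s i) hcon
    have h1 := hfix _ hcon j hj
    have h2 : j = i := s.injective (Fin.ext h1)
    rw [h2, hE] at hj
    simp only at hj
    omega
  have hzr := card_low u s z hzk hlow
  by_cases h2 : ∀ j, E j < k ∨ E j < z + b
  · left
    exact det_zero y hy b (supp u).card z hzk hzr he E hzE h2
  right
  push Not at h2
  obtain ⟨j0, hj0, hj1⟩ := h2
  have hfinj : Function.Injective (Function.update E j0 z) := by
    intro a c hac
    by_cases ha : a = j0
    · by_cases hc : c = j0
      · rw [ha, hc]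
      · rw [ha, Function.update_self, Function.update_of_ne hc] at hac
        exact absurd hac.symm (hzE c)
    · by_cases hc : c = j0
      · rw [hc, Function.update_self, Function.update_of_ne ha] at hac
        exact absurd hac (hzE a)
      · rw [Function.update_of_ne ha, Function.update_of_ne hc] at hac
        exact hinj hac
  have hfsum : ∑ j, Function.update E j0 z j + E j0 = ∑ j, E j + z := by
    rw [Finset.sum_update_of_mem (mem_univ j0), ← Finset.add_sum_erase univ E (mem_univ j0),
      ← Finset.erase_eq]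
    omega
  have hflt := lt_of_inj_sum _ hfinj (by omega)
  let f : Fin k → Fin k := fun j => ⟨Function.update E j0 z j, hflt j⟩
  have hfb : Function.Bijective f := by
    apply Finite.injective_iff_bijective.1
    intro a c hac
    exact hfinj (Fin.mk.inj_iff.1 hac)
  have hfs : ∑ j, Function.update E j0 z j = ∑ j : Fin k, (j : ℕ) :=
    Function.Bijective.sum_comp hfb (fun j : Fin k => (j : ℕ))
  have hEj0 : E j0 = z + b := by omega
  refine ⟨Equiv.ofBijective f hfb, j0, ?_⟩
  have hπ0 : ((Equiv.ofBijective f hfb j0 : Fin k) : ℕ) = z := by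
    simp [f]
  refine ⟨?_, ?_, ?_, ?_⟩
  · rw [hπ0]; exact hEj0
  · rw [hπ0]; omega
  · intro j hj
    simp only [Equiv.ofBijective_apply, f]
    rw [Function.update_of_ne hj]
  · intro i hi
    rw [hπ0]; exact hlow i hi

lemma det_of_str (y : Fin k → K) (hy : Function.Injective y) (b : ℕ) (hb0 : 0 < b) (hb : b ≤ k)
    (u : Fin k → ℕ) (he : ∀ i, (supp u).card ≤ i → i < b → es y i = 0)
    (s π : Equiv.Perm (Fin k)) (j0 : Fin k) (hS : Str b u s π j0) :
    (Matrix.of fun i j => y i ^ ((s j : ℕ) + u j) : Matrix (Fin k) (Fin k) K).det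
      = ((Equiv.Perm.sign π : ℤ) : K) * (- ((-1) ^ b * es y b) * (vandermonde y).det) := by
  have h1 : (Matrix.of fun i j => y i ^ ((s j : ℕ) + u j) : Matrix (Fin k) (Fin k) K)
      = (Matrix.of fun i j => y i ^ (if j = π j0 then ((π j0 : Fin k) : ℕ) + b else (j : ℕ)) :
          Matrix (Fin k) (Fin k) K).submatrix id π := by
    ext i j
    simp only [Matrix.of_apply, Matrix.submatrix_apply, id]
    by_cases h : j = j0
    · rw [h, if_pos rfl, hS.out]
    · rw [if_neg (fun hh => h (π.injective hh)), hS.rest j h]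
  rw [h1, det_permute', det_hook y hy b (supp u).card (π j0) hb0 hb hS.big
    (card_low u s _ (π j0).2 hS.low) he]

lemma Str.u_ne {b : ℕ} {u : Fin k → ℕ} {s π : Equiv.Perm (Fin k)} {j0 : Fin k}
    (hS : Str b u s π j0) : u j0 ≠ 0 := by
  have h1 := hS.out
  have h2 := hS.big
  have h3 := (s j0).2
  omega

lemma Str.good {b : ℕ} {u : Fin k → ℕ} {s π : Equiv.Perm (Fin k)} {j0 : Fin k}
    (hS : Str b u s π j0) : Good k b u s := by
  intro i hi
  refine ⟨?_, s.symm (π i), ?_, ?_⟩
  · have h1 := hS.big
    have h2 := hS.low i hi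
    omega
  · intro hcon
    by_cases hj : s.symm (π i) = j0
    · rw [hj] at hcon
      exact hS.u_ne hcon
    · have h1 := hS.rest _ hj
      rw [hcon, Equiv.apply_symm_apply, add_zero] at h1
      have h2 : s.symm (π i) = i := π.injective (Fin.ext h1)
      rw [h2] at hcon
      exact hi hcon
  · rw [Equiv.apply_symm_apply]
    by_cases hj : i = j0
    · right; rw [hj]; exact hS.out.symm
    · left; exact hS.rest i hj

lemma Str.sign {b : ℕ} {u : Fin k → ℕ} {s π : Equiv.Perm (Fin k)} {j0 : Fin k}
    (hu : ∑ i, u i = b) (hS : Str b u s π j0) :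
    Equiv.Perm.sign s * Equiv.Perm.sign π = - (-1) ^ (supp u).card := by
  classical
  set q : Equiv.Perm (Fin k) := s⁻¹ * π with hq
  have hsq : ∀ i, s (q i) = π i := by
    intro i; rw [hq]; simp
  have hsign : Equiv.Perm.sign s * Equiv.Perm.sign π = Equiv.Perm.sign q := by
    rw [hq, Equiv.Perm.sign_mul, Equiv.Perm.sign_inv]
  rw [hsign]
  have hmv : ∀ i, i ≠ j0 → (q i ≠ i ↔ u i ≠ 0) := by
    intro i hi
    rw [not_iff_not]
    constructor
    · intro h
      have h1 := hsq i
      rw [h] at h1
      have h2 := hS.rest i hi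
      rw [← h1] at h2
      omega
    · intro h
      have h2 := hS.rest i hi
      rw [h, add_zero] at h2
      exact s.injective (by rw [hsq]; exact Fin.ext h2)
  by_cases h0 : q j0 = j0
  · -- the one element case
    have h1 := hsq j0
    rw [h0] at h1
    have h2 := hS.out
    rw [h1] at h2
    have h3 : u j0 = b := by omega
    have h4 : ∀ i, i ≠ j0 → u i = 0 := by
      intro i hi
      have h5 : u i + u j0 ≤ ∑ i, u i := by
        rw [← Finset.add_sum_erase univ u (mem_univ j0), add_comm]
        apply Nat.add_le_add_left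
        exact Finset.single_le_sum (f := u) (fun _ _ => Nat.zero_le _)
          (mem_erase.2 ⟨hi, mem_univ i⟩)
      omega
    have h5 : q = 1 := by
      ext i
      by_cases hi : i = j0
      · rw [hi, h0]; rfl
      · have := (hmv i hi).not.2 (by simpa using h4 i hi)
        simp only [ne_eq, not_not] at this
        rw [this]; rfl
    have h6 : (supp u).card = 1 := by
      rw [card_eq_one]
      refine ⟨j0, ?_⟩
      ext i
      rw [mem_supp, mem_singleton]
      constructor
      · intro h
        by_contra hcon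
        exact h (h4 i hcon)
      · rintro rfl
        exact hS.u_ne
    rw [h5, h6]
    simp
  · have hsupp : q.support = supp u := by
      ext i
      rw [Equiv.Perm.mem_support, mem_supp]
      by_cases hi : i = j0
      · rw [hi]
        exact ⟨fun _ => hS.u_ne, fun _ => h0⟩
      · exact hmv i hi
    have hcyc : q.IsCycle := by
      refine ⟨j0, h0, ?_⟩
      intro t ht
      have hall : ∃ n : ℕ, (q ^ n) t = j0 := by
        by_contra hcon
        push Not at hcon
        have hgrow : ∀ n : ℕ, n ≤ (s ((q ^ n) t) : ℕ) := by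
          intro n
          induction n with
          | zero => exact Nat.zero_le _
          | succ n ih =>
            have h1 : q ((q ^ n) t) ≠ (q ^ n) t := by
              intro h
              apply ht
              rw [← Equiv.Perm.mul_apply, ← pow_succ', pow_succ, Equiv.Perm.mul_apply] at h
              exact (q ^ n).injective h
            have h2 := (hmv _ (hcon n)).1 h1
            have h3 := hS.rest _ (hcon n)
            rw [pow_succ', Equiv.Perm.mul_apply, hsq, h3]
            omega
        have h1 := hgrow k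
        have h2 := (s ((q ^ k) t)).2
        omega
      obtain ⟨n, hn⟩ := hall
      have : q.SameCycle t j0 := ⟨n, by simpa using hn⟩
      exact this.symm
    rw [hcyc.sign, hsupp]

lemma str_of_good (b : ℕ) (hb0 : 0 < b) (u : Fin k → ℕ) (hu : ∑ i, u i = b)
    (s : Equiv.Perm (Fin k)) (hg : Good k b u s) : ∃ π j0, Str b u s π j0 := by
  classical
  have hex : ∀ i, ∃ j, (u i = 0 → j = i) ∧ (u i ≠ 0 → u j ≠ 0 ∧
      ((s j : ℕ) = s i + u i ∨ (s j : ℕ) + b = s i + u i)) := by
    intro i
    by_cases h : u i = 0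
    · exact ⟨i, fun _ => rfl, fun h' => absurd h h'⟩
    · obtain ⟨j, hj⟩ := (hg i h).2
      exact ⟨j, fun h' => absurd h' h, fun _ => hj⟩
  choose q hq0 hq1 using hex
  -- number of wraps
  set w : Fin k → ℕ := fun i => if (s (q i) : ℕ) = s i + u i then 0 else 1 with hw
  have hrel : ∀ i, (s (q i) : ℕ) + b * w i = s i + u i := by
    intro i
    by_cases h : (s (q i) : ℕ) = s i + u i
    · simp only [hw, if_pos h]; omega
    · simp only [hw, if_neg h, mul_one]
      by_cases hu0 : u i = 0
      · exfalso
        apply h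
        rw [hq0 i hu0, hu0, add_zero]
      · rcases (hq1 i hu0).2 with h' | h'
        · exact absurd h' h
        · exact h'
  have hsub : ∀ C : Finset (Fin k), ∑ i ∈ C, u i ≤ b := by
    intro C
    rw [← hu]
    exact sum_le_sum_of_subset (subset_univ C)
  -- a closed set is everything
  have hne : (supp u).Nonempty := by
    by_contra hcon
    rw [not_nonempty_iff_eq_empty] at hcon
    have : ∑ i, u i = 0 := by
      refine sum_eq_zero (fun i _ => ?_)
      by_contra h
      have := (mem_supp u i).2 h
      rw [hcon] at this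
      exact absurd this (notMem_empty _)
    omega
  have hclosed : ∀ i ∈ supp u, q i ∈ supp u := by
    intro i hi
    rw [mem_supp] at hi ⊢
    exact (hq1 i hi).1
  let F : Finset (Finset (Fin k)) := (supp u).powerset.filter
    (fun C => C.Nonempty ∧ ∀ i ∈ C, q i ∈ C)
  have hF : F.Nonempty := ⟨supp u, by
    simp only [F, mem_filter, mem_powerset]
    exact ⟨Subset.refl _, hne, hclosed⟩⟩
  obtain ⟨C, hC, hCmin⟩ := Finset.exists_min_image F Finset.card hF
  simp only [F, mem_filter, mem_powerset] at hC
  obtain ⟨hCs, hCne, hCcl⟩ := hC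
  have himgF : C.image q ∈ F := by
    simp only [F, mem_filter, mem_powerset]
    refine ⟨?_, hCne.image q, ?_⟩
    · intro t ht
      rw [mem_image] at ht
      obtain ⟨i, hi, rfl⟩ := ht
      exact hclosed i (hCs hi)
    · intro t ht
      rw [mem_image] at ht
      obtain ⟨i, hi, rfl⟩ := ht
      exact mem_image_of_mem q (hCcl i hi)
  have hcardC := hCmin _ himgF
  have hsubC : C.image q ⊆ C := by
    intro t ht
    rw [mem_image] at ht
    obtain ⟨i, hi, rfl⟩ := ht
    exact hCcl i hi
  have himg : C.image q = C := eq_of_subset_of_card_le hsubC hcardC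
  have hinjC : Set.InjOn q C := by
    rw [← Finset.card_image_iff, himg]
  have hsumC : ∑ i ∈ C, (s (q i) : ℕ) = ∑ i ∈ C, (s i : ℕ) := by
    conv_rhs => rw [← himg]
    rw [sum_image hinjC]
  have hkey : b * ∑ i ∈ C, w i = ∑ i ∈ C, u i := by
    have h1 : ∑ i ∈ C, ((s (q i) : ℕ) + b * w i) = ∑ i ∈ C, ((s i : ℕ) + u i) :=
      sum_congr rfl (fun i _ => hrel i)
    rw [sum_add_distrib, sum_add_distrib, hsumC, ← mul_sum] at h1
    omega
  have hpos : 0 < ∑ i ∈ C, u i := by
    obtain ⟨i, hi⟩ := hCne
    have h1 := (mem_supp u i).1 (hCs hi)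
    have h2 := single_le_sum (f := u) (fun _ _ => Nat.zero_le _) hi
    omega
  have hw1 : ∑ i ∈ C, w i = 1 := by
    have h1 := hsub C
    rw [← hkey] at h1 hpos
    have h2 : 0 < ∑ i ∈ C, w i := Nat.pos_of_mul_pos_left hpos
    have h3 : ∑ i ∈ C, w i ≤ 1 := by
      by_contra hcon
      push Not at hcon
      nlinarith
    omega
  have hsumCb : ∑ i ∈ C, u i = b := by rw [← hkey, hw1, mul_one]
  have hCall : C = supp u := by
    apply Subset.antisymm hCs
    intro i hi
    by_contra hcon
    have h1 : ∑ t ∈ insert i C, u t ≤ b := hsub _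
    rw [sum_insert hcon, hsumCb] at h1
    have := (mem_supp u i).1 hi
    omega
  -- the wrapping slot
  obtain ⟨j0, hj0C, hj0w⟩ : ∃ j0 ∈ C, w j0 ≠ 0 := by
    by_contra hcon
    push Not at hcon
    rw [sum_eq_zero hcon] at hw1
    omega
  have hj0one : w j0 = 1 := by
    simp only [hw] at hj0w ⊢
    by_cases h : (s (q j0) : ℕ) = s j0 + u j0
    · rw [if_pos h] at hj0w; exact absurd rfl hj0w
    · rw [if_neg h]
  have hwrest : ∀ i, i ≠ j0 → w i = 0 := by
    intro i hi
    by_cases hiC : i ∈ C
    · have h1 : w i + w j0 ≤ ∑ i ∈ C, w i := by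
        rw [← Finset.add_sum_erase C w hj0C, add_comm]
        apply Nat.add_le_add_left
        exact Finset.single_le_sum (f := w) (fun _ _ => Nat.zero_le _)
          (mem_erase.2 ⟨hi, hiC⟩)
      omega
    · rw [hCall, mem_supp, not_not] at hiC
      simp only [hw]
      rw [if_pos]
      rw [hq0 i hiC, hiC, add_zero]
  have hqinj : Function.Injective q := by
    intro a c hac
    by_cases ha : u a = 0
    · by_cases hc : u c = 0
      · rw [hq0 a ha, hq0 c hc] at hac; exact hac
      · exfalso
        have h1 := (hq1 c hc).1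
        rw [← hac, hq0 a ha] at h1
        exact h1 ha
    · by_cases hc : u c = 0
      · exfalso
        have h1 := (hq1 a ha).1
        rw [hac, hq0 c hc] at h1
        exact h1 hc
      · apply hinjC _ _ hac
        · rw [hCall]; exact (mem_supp u a).2 ha
        · rw [hCall]; exact (mem_supp u c).2 hc
  have hqb : Function.Bijective q := Finite.injective_iff_bijective.1 hqinj
  refine ⟨(Equiv.ofBijective q hqb).trans s, j0, ?_, ?_, ?_, ?_⟩
  · have := hrel j0
    rw [hj0one, mul_one] at this
    simpa using this.symm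
  · have h1 : u j0 ≠ 0 := (mem_supp u j0).1 (hCs hj0C)
    have h2 := (hg (q j0) (hq1 j0 h1).1).1
    simpa using h2
  · intro j hj
    have := hrel j
    rw [hwrest j hj, mul_zero, add_zero] at this
    simpa using this
  · intro i hi
    obtain ⟨i1, hi1, hmin⟩ := Finset.exists_min_image (supp u) (fun i => (s i : ℕ)) hne
    have hi1C : i1 ∈ C.image q := by rw [himg, hCall]; exact hi1
    rw [mem_image] at hi1C
    obtain ⟨i2, hi2, hq2⟩ := hi1C
    have h3 : i2 = j0 := by
      by_contra hcon
      have h4 := hrel i2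
      rw [hwrest i2 hcon, mul_zero, add_zero, hq2] at h4
      have h5 := hmin i2 (hCs hi2)
      have h6 := (mem_supp u i2).1 (hCs hi2)
      omega
    have h7 := hmin i ((mem_supp u i).2 hi)
    rw [← hq2, h3] at h7
    simpa using h7

/-- Expansion of the alternating sum. -/
lemma expand (x y : Fin k → K) (u : Fin k → ℕ)
    (hV : ∀ σ : Equiv.Perm (Fin k), (vandermonde (fun i => x i * y (σ i))).det = 0) :
    ∑ s : Equiv.Perm (Fin k), ((Equiv.Perm.sign s : ℤ) : K) * (∏ i, x i ^ (s i : ℕ)) *
      (Matrix.of fun i j => y i ^ ((s j : ℕ) + u j) : Matrix (Fin k) (Fin k) K).det = 0 := by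
  have h1 : ∀ σ : Equiv.Perm (Fin k), ∑ s : Equiv.Perm (Fin k), ((Equiv.Perm.sign s : ℤ) : K) *
      (∏ i, x i ^ (s i : ℕ)) * ∏ i, y (σ i) ^ (s i : ℕ) = 0 := by
    intro σ
    rw [← hV σ, ← det_transpose, det_apply']
    refine sum_congr rfl (fun s _ => ?_)
    rw [mul_assoc, ← prod_mul_distrib]
    congr 1
    refine prod_congr rfl (fun i _ => ?_)
    rw [transpose_apply, vandermonde_apply, mul_pow]
  have h2 : ∑ σ : Equiv.Perm (Fin k), ((Equiv.Perm.sign σ : ℤ) : K) * (∏ i, y (σ i) ^ u i) *
      (∑ s : Equiv.Perm (Fin k), ((Equiv.Perm.sign s : ℤ) : K) *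
      (∏ i, x i ^ (s i : ℕ)) * ∏ i, y (σ i) ^ (s i : ℕ)) = 0 :=
    sum_eq_zero (fun σ _ => by rw [h1 σ, mul_zero])
  rw [← h2]
  simp only [mul_sum]
  rw [sum_comm]
  refine sum_congr rfl (fun s _ => ?_)
  rw [det_apply', mul_sum]
  refine sum_congr rfl (fun σ _ => ?_)
  simp only [Matrix.of_apply, pow_add, prod_mul_distrib]
  ring

/-- **T3** -/
theorem T3 (b : ℕ) (hb0 : 0 < b) (hb : b ≤ k) (x y : Fin k → K) (hy : Function.Injective y)
    (hV : ∀ σ : Equiv.Perm (Fin k), (vandermonde (fun i => x i * y (σ i))).det = 0)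
    (u : Fin k → ℕ) (hu : ∑ i, u i = b)
    (he : ∀ i, (supp u).card ≤ i → i < b → es y i = 0) :
    es y b * W b x u = 0 := by
  have h1 := expand x y u hV
  have h2 : ∀ s : Equiv.Perm (Fin k), ((Equiv.Perm.sign s : ℤ) : K) * (∏ i, x i ^ (s i : ℕ)) *
      (Matrix.of fun i j => y i ^ ((s j : ℕ) + u j) : Matrix (Fin k) (Fin k) K).det
      = if Good k b u s then ((-1) ^ ((supp u).card + b) * es y b * (vandermonde y).det)
          * ∏ i, x i ^ (s i : ℕ) else 0 := by
    intro s
    by_cases hg : Good k b u s
    · rw [if_pos hg]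
      obtain ⟨π, j0, hS⟩ := str_of_good b hb0 u hu s hg
      rw [det_of_str y hy b hb0 hb u he s π j0 hS]
      have h3 := hS.sign hu
      have h4 : ((Equiv.Perm.sign s : ℤ) : K) * ((Equiv.Perm.sign π : ℤ) : K)
          = - (-1) ^ (supp u).card := by
        have h5 := congrArg (fun t : ℤˣ => ((t : ℤ) : K)) h3
        simpa using h5
      rw [pow_add]
      linear_combination (-(∏ i, x i ^ (s i : ℕ)) * ((-1) ^ b * es y b) *
        (vandermonde y).det) * h4
    · rw [if_neg hg]
      rcases str_or_zero y hy b hb0 u hu he s with h | ⟨π, j0, hS⟩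
      · rw [h, mul_zero]
      · exact absurd hS.good hg
  rw [sum_congr rfl (fun s _ => h2 s), ← sum_filter, ← mul_sum] at h1
  have hV0 : (vandermonde y).det ≠ 0 := det_vandermonde_ne_zero_iff.2 hy
  have hs0 : ((-1 : K)) ^ ((supp u).card + b) ≠ 0 := pow_ne_zero _ (by norm_num)
  rcases mul_eq_zero.1 h1 with h | h
  · rcases mul_eq_zero.1 h with h | h
    · rcases mul_eq_zero.1 h with h | h
      · exact absurd h hs0
      · rw [h, zero_mul]
    · exact absurd h hV0
  · rw [W, h, mul_zero]

end Pool.Agent.Helper10.CYC
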