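import Pool.Agent.Helper10.CYC.T3
import Pool.Agent.Helper91.CYC.PieceA

/-!
# The relations T3 with a shifted top label (helper83's T3-lambda)

The label set `[0,k)` is replaced by `[0,k-1) ∪ {k-1+lam}`.
-/

set_option autoImplicit false

namespace Pool.Agent.Helper10.CYC

open Finset Matrix

/-- The labels. -/
def LL (k lam t : ℕ) : ℕ := if t + 1 = k then t + lam else t

lemma LL_ge (k lam t : ℕ) : t ≤ LL k lam t := by
  unfold LL
  split_ifs <;> omega

lemma LL_inj {k lam t t' : ℕ} (ht : t < k) (ht' : t' < k) (h : LL k lam t = LL k lam t') :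
    t = t' := by
  unfold LL at h
  split_ifs at h <;> omega

lemma LL_of_lt {k lam t : ℕ} (h : t + 1 < k) : LL k lam t = t := by
  unfold LL
  rw [if_neg (by omega)]

lemma LL_top {k lam t : ℕ} (h : t + 1 = k) : LL k lam t = t + lam := by
  unfold LL
  rw [if_pos h]

variable {k : ℕ}

/-- `π` is the reduction of the exponent function, `j0` the slot of the large exponent. -/
structure StrL (b lam : ℕ) (u : Fin k → ℕ) (s π : Equiv.Perm (Fin k)) (j0 : Fin k) : Prop where
  out : LL k lam (s j0) + u j0 = (π j0 : ℕ) + b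
  big : k ≤ (π j0 : ℕ) + b
  rest : ∀ j, j ≠ j0 → (π j : ℕ) = LL k lam (s j) + u j
  low : ∀ i, u i ≠ 0 → (π j0 : ℕ) ≤ s i

/-- Good labelings. -/
def GoodL (b lam : ℕ) (u : Fin k → ℕ) (s : Equiv.Perm (Fin k)) : Prop :=
  ∃ (π : Equiv.Perm (Fin k)) (j0 : Fin k), StrL b lam u s π j0

lemma goodL_comp {b lam : ℕ} {u : Fin k → ℕ} {s : Equiv.Perm (Fin k)} (hg : GoodL b lam u s)
    (w : Equiv.Perm (Fin k)) : GoodL b lam (fun i => u (w i)) (w.trans s) := by
  obtain ⟨π, j0, h⟩ := hg
  refine ⟨w.trans π, w.symm j0, ?_, ?_, ?_, ?_⟩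
  · simpa using h.out
  · simpa using h.big
  · intro j hj
    have := h.rest (w j) (fun h => hj (by rw [← h, Equiv.symm_apply_apply]))
    simpa using this
  · intro i hi
    have := h.low (w i) hi
    simpa using this

section field

variable {K : Type*} [Field K]

lemma sum_LL' (k' lam : ℕ) : ∑ j : Fin (k' + 1), LL (k' + 1) lam (j : ℕ)
    = ∑ j : Fin (k' + 1), (j : ℕ) + lam := by
  rw [Fin.sum_univ_castSucc, Fin.sum_univ_castSucc (fun j : Fin (k' + 1) => (j : ℕ))]
  have h1 : ∀ i : Fin k', LL (k' + 1) lam ((Fin.castSucc i : Fin (k' + 1)) : ℕ)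
      = ((Fin.castSucc i : Fin (k' + 1)) : ℕ) := by
    intro i
    exact LL_of_lt (by have := i.2; simp)
  have h2 : LL (k' + 1) lam ((Fin.last k' : Fin (k' + 1)) : ℕ)
      = ((Fin.last k' : Fin (k' + 1)) : ℕ) + lam := LL_top (by simp)
  rw [h2, sum_congr rfl (fun i _ => h1 i)]
  omega

lemma sum_LL (hk : 0 < k) (lam : ℕ) : ∑ j : Fin k, LL k lam (j : ℕ) = ∑ j : Fin k, (j : ℕ) + lam := by
  cases k with
  | zero => omega
  | succ k' => exact sum_LL' k' lam

lemma strL_or_zero (y : Fin k → K) (hy : Function.Injective y) (b lam : ℕ) (hb0 : 0 < b)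
    (hk : 0 < k) (u : Fin k → ℕ) (hu : ∑ i, u i + lam = b)
    (he : ∀ i, (supp u).card ≤ i → i < b → es y i = 0) (s : Equiv.Perm (Fin k)) :
    (Matrix.of fun i j => y i ^ (LL k lam (s j : ℕ) + u j) : Matrix (Fin k) (Fin k) K).det = 0 ∨
      ∃ π j0, StrL b lam u s π j0 := by
  classical
  set E : Fin k → ℕ := fun j => LL k lam (s j : ℕ) + u j with hE
  have hge : ∀ j, (s j : ℕ) ≤ LL k lam (s j : ℕ) := fun j => LL_ge k lam (s j)
  have hsumE : ∑ j, E j = ∑ j : Fin k, (j : ℕ) + b := by
    rw [hE, sum_add_distrib, Equiv.sum_comp s (fun j : Fin k => LL k lam (j : ℕ)), sum_LL hk,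
      ← hu]
    omega
  by_cases hinj : Function.Injective E
  swap
  · left
    rw [Function.not_injective_iff] at hinj
    obtain ⟨a, c, hac, hne⟩ := hinj
    refine Matrix.det_zero_of_column_eq hne (fun i => ?_)
    simp only [hE] at hac
    simp only [Matrix.of_apply]
    rw [hac]
  have hex : ∃ n, n < k ∧ ∀ j, E j ≠ n := by
    by_contra hcon
    push Not at hcon
    have hcon' : ∀ t : Fin k, ∃ j, E j = t := fun t => hcon t t.2
    choose g hg using hcon'
    have hginj : Function.Injective g := by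
      intro a c hac
      have h1 := hg a
      have h2 := hg c
      rw [hac] at h1
      exact Fin.ext (by omega)
    have hbij := Finite.injective_iff_bijective.1 hginj
    have h3 : ∑ t : Fin k, E (g t) = ∑ j, E j :=
      Function.Bijective.sum_comp hbij E
    have h4 : ∑ t : Fin k, E (g t) = ∑ t : Fin k, (t : ℕ) :=
      sum_congr rfl (fun t _ => hg t)
    omega
  set z := Nat.find hex with hzdef
  obtain ⟨hzk, hzE⟩ := Nat.find_spec hex
  rw [← hzdef] at hzk hzE
  have hmin : ∀ n, n < z → ∃ j, E j = n := by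
    intro n hn
    have := Nat.find_min hex hn
    push Not at this
    exact this (by omega)
  have hfix : ∀ n, n < z → ∀ j, E j = n → (s j : ℕ) = n := by
    intro n
    induction n using Nat.strong_induction_on with
    | _ n ih =>
      intro hn j hj
      have h1 : (s j : ℕ) ≤ n := by
        have := hge j
        rw [← hj, hE]; simp only; omega
      rcases Nat.lt_or_ge (s j : ℕ) n with hlt | hge
      · obtain ⟨j', hj'⟩ := hmin (s j) (by omega)
        have h2 := ih (s j) hlt (by omega) j' hj'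
        have h3 : j' = j := s.injective (Fin.ext h2)
        rw [h3] at hj'
        omega
      · omega
  have hlow : ∀ i, u i ≠ 0 → z ≤ (s i : ℕ) := by
    intro i hi
    by_contra hcon
    push Not at hcon
    obtain ⟨j, hj⟩ := hmin (s i) hcon
    have h1 := hfix _ hcon j hj
    have h2 : j = i := s.injective (Fin.ext h1)
    rw [h2, hE] at hj
    simp only at hj
    have := hge i
    omega
  have hzr := card_low u s z hzk hlow
  by_cases h2 : ∀ j, E j < k ∨ E j < z + b
  · left
    exact det_zero y hy b (supp u).card z hzk hzr he E hzE h2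
  right
  push Not at h2
  obtain ⟨j0, hj0, hj1⟩ := h2
  have hfinj : Function.Injective (Function.update E j0 z) := by
    intro a c hac
    by_cases ha : a = j0
    · by_cases hc : c = j0
      · rw [ha, hc]
      · rw [ha, Function.update_self, Function.update_of_ne hc] at hac
        exact absurd hac.symm (hzE c)
    · by_cases hc : c = j0
      · rw [hc, Function.update_self, Function.update_of_ne ha] at hac
        exact absurd hac (hzE a)
      · rw [Function.update_of_ne ha, Function.update_of_ne hc] at hac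
        exact hinj hac
  have hfsum : ∑ j, Function.update E j0 z j + E j0 = ∑ j, E j + z := by
    rw [Finset.sum_update_of_mem (mem_univ j0), ← Finset.add_sum_erase univ E (mem_univ j0),
      ← Finset.erase_eq]
    omega
  have hflt := lt_of_inj_sum _ hfinj (by omega)
  let f : Fin k → Fin k := fun j => ⟨Function.update E j0 z j, hflt j⟩
  have hfb : Function.Bijective f := by
    apply Finite.injective_iff_bijective.1
    intro a c hac
    exact hfinj (Fin.mk.inj_iff.1 hac)
  have hfs : ∑ j, Function.update E j0 z j = ∑ j : Fin k, (j : ℕ) :=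
    Function.Bijective.sum_comp hfb (fun j : Fin k => (j : ℕ))
  have hEj0 : E j0 = z + b := by omega
  refine ⟨Equiv.ofBijective f hfb, j0, ?_⟩
  have hπ0 : ((Equiv.ofBijective f hfb j0 : Fin k) : ℕ) = z := by
    simp [f]
  refine ⟨?_, ?_, ?_, ?_⟩
  · rw [hπ0]; exact hEj0
  · rw [hπ0]; omega
  · intro j hj
    simp only [Equiv.ofBijective_apply, f]
    rw [Function.update_of_ne hj]
  · intro i hi
    rw [hπ0]; exact hlow i hi

lemma det_of_strL (y : Fin k → K) (hy : Function.Injective y) (b lam : ℕ) (hb0 : 0 < b)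
    (hb : b ≤ k) (u : Fin k → ℕ) (he : ∀ i, (supp u).card ≤ i → i < b → es y i = 0)
    (s π : Equiv.Perm (Fin k)) (j0 : Fin k) (hS : StrL b lam u s π j0) :
    (Matrix.of fun i j => y i ^ (LL k lam (s j : ℕ) + u j) : Matrix (Fin k) (Fin k) K).det
      = ((Equiv.Perm.sign π : ℤ) : K) * (- ((-1) ^ b * es y b) * (vandermonde y).det) := by
  have h1 : (Matrix.of fun i j => y i ^ (LL k lam (s j : ℕ) + u j) :
      Matrix (Fin k) (Fin k) K)
      = (Matrix.of fun i j => y i ^ (if j = π j0 then ((π j0 : Fin k) : ℕ) + b else (j : ℕ)) :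
          Matrix (Fin k) (Fin k) K).submatrix id π := by
    ext i j
    simp only [Matrix.of_apply, Matrix.submatrix_apply, id]
    by_cases h : j = j0
    · rw [h, if_pos rfl, hS.out]
    · rw [if_neg (fun hh => h (π.injective hh)), hS.rest j h]
  rw [h1, det_permute', det_hook y hy b (supp u).card (π j0) hb0 hb hS.big
    (card_low u s _ (π j0).2 hS.low) he]

open Classical in
/-- The integral coefficient of a labeling. -/
noncomputable def cL (b lam : ℕ) (u : Fin k → ℕ) (s : Equiv.Perm (Fin k)) : ℤ :=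
  if h : GoodL b lam u s then (Equiv.Perm.sign s : ℤ) * (Equiv.Perm.sign h.choose : ℤ) else 0

/-- Expansion of the alternating sum with the shifted labels. -/
lemma expandL (lam : ℕ) (x y : Fin k → K) (u : Fin k → ℕ)
    (hV : ∀ σ : Equiv.Perm (Fin k), (vandermonde (fun i => x i * y (σ i))).det = 0) :
    ∑ s : Equiv.Perm (Fin k), ((Equiv.Perm.sign s : ℤ) : K) *
      (∏ i, x i ^ LL k lam (s i : ℕ)) *
      (Matrix.of fun i j => y i ^ (LL k lam (s j : ℕ) + u j) :
        Matrix (Fin k) (Fin k) K).det = 0 := by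
  have h0 : ∀ σ : Equiv.Perm (Fin k),
      (Matrix.of fun i j => (x i * y (σ i)) ^ LL k lam (j : ℕ) :
        Matrix (Fin k) (Fin k) K).det = 0 := by
    intro σ
    have h := hV σ
    rw [det_vandermonde_eq_zero_iff] at h
    obtain ⟨i, j, hij, hne⟩ := h
    refine Matrix.det_zero_of_row_eq hne ?_
    ext t
    simp only [Matrix.of_apply]
    rw [hij]
  have h1 : ∀ σ : Equiv.Perm (Fin k), ∑ s : Equiv.Perm (Fin k), ((Equiv.Perm.sign s : ℤ) : K) *
      (∏ i, x i ^ LL k lam (s i : ℕ)) * ∏ i, y (σ i) ^ LL k lam (s i : ℕ) = 0 := by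
    intro σ
    rw [← h0 σ, ← det_transpose, det_apply']
    refine sum_congr rfl (fun s _ => ?_)
    rw [mul_assoc, ← prod_mul_distrib]
    congr 1
    refine prod_congr rfl (fun i _ => ?_)
    rw [transpose_apply, Matrix.of_apply, mul_pow]
  have h2 : ∑ σ : Equiv.Perm (Fin k), ((Equiv.Perm.sign σ : ℤ) : K) * (∏ i, y (σ i) ^ u i) *
      (∑ s : Equiv.Perm (Fin k), ((Equiv.Perm.sign s : ℤ) : K) *
      (∏ i, x i ^ LL k lam (s i : ℕ)) * ∏ i, y (σ i) ^ LL k lam (s i : ℕ)) = 0 :=
    sum_eq_zero (fun σ _ => by rw [h1 σ, mul_zero])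
  rw [← h2]
  simp only [mul_sum]
  rw [sum_comm]
  refine sum_congr rfl (fun s _ => ?_)
  rw [det_apply', mul_sum]
  refine sum_congr rfl (fun σ _ => ?_)
  simp only [Matrix.of_apply, pow_add, prod_mul_distrib]
  ring

/-- **T3-lambda** -/
theorem T3L (b lam : ℕ) (hb0 : 0 < b) (hb : b ≤ k) (x y : Fin k → K)
    (hy : Function.Injective y)
    (hV : ∀ σ : Equiv.Perm (Fin k), (vandermonde (fun i => x i * y (σ i))).det = 0)
    (u : Fin k → ℕ) (hu : ∑ i, u i + lam = b)
    (he : ∀ i, (supp u).card ≤ i → i < b → es y i = 0) (heb : es y b ≠ 0) :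
    ∑ s : Equiv.Perm (Fin k), ((cL b lam u s : ℤ) : K) * ∏ i, x i ^ LL k lam (s i : ℕ) = 0 := by
  classical
  have h1 := expandL lam x y u hV
  have h2 : ∀ s : Equiv.Perm (Fin k), ((Equiv.Perm.sign s : ℤ) : K) *
      (∏ i, x i ^ LL k lam (s i : ℕ)) *
      (Matrix.of fun i j => y i ^ (LL k lam (s j : ℕ) + u j) : Matrix (Fin k) (Fin k) K).det
      = (- ((-1) ^ b * es y b) * (vandermonde y).det) *
        (((cL b lam u s : ℤ) : K) * ∏ i, x i ^ LL k lam (s i : ℕ)) := by
    intro s
    by_cases hg : GoodL b lam u s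
    · obtain ⟨j0, hS⟩ := hg.choose_spec
      rw [det_of_strL y hy b lam hb0 hb u he s hg.choose j0 hS, cL, dif_pos hg]
      push_cast
      ring
    · rcases strL_or_zero y hy b lam hb0 (by omega) u hu he s with h | ⟨π, j0, hS⟩
      · rw [h, cL, dif_neg hg]
        simp
      · exact absurd ⟨π, j0, hS⟩ hg
  rw [sum_congr rfl (fun s _ => h2 s), ← mul_sum] at h1
  have hV0 : (vandermonde y).det ≠ 0 := det_vandermonde_ne_zero_iff.2 hy
  have hne : (- ((-1) ^ b * es y b) * (vandermonde y).det) ≠ 0 := by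
    refine mul_ne_zero (neg_ne_zero.2 (mul_ne_zero (pow_ne_zero _ (by norm_num)) heb)) hV0
  exact (mul_eq_zero.1 h1).resolve_left hne

end field

end Pool.Agent.Helper10.CYC
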